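import Pool.Agent.Lib_helper23.TF.Defs

/-! MP_bc6371_lc, block AX: the conditions are first-order. Cites nothing (Defs only). -/

set_option autoImplicit false

namespace Pool.Agent.Lib_helper23.TF

open FirstOrder FirstOrder.Language

/-- the property `P` of tuples is first-order -/
private def FO {α : Type} (P : ∀ (X : Type) [Lg.Structure X], (α → X) → Prop) : Prop :=
  ∃ φ : Lg.Formula α, ∀ (X : Type) [Lg.Structure X] (x : α → X), φ.Realize x ↔ P X x

private theorem FO_and {α : Type} {P Q : ∀ (X : Type) [Lg.Structure X], (α → X) → Prop}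
    (hP : FO P) (hQ : FO Q) : FO fun X _ x => P X x ∧ Q X x := by
  obtain ⟨φ, hφ⟩ := hP
  obtain ⟨ψ, hψ⟩ := hQ
  exact ⟨φ ⊓ ψ, fun X _ x => by rw [Formula.realize_inf, hφ, hψ]⟩

private theorem FO_or {α : Type} {P Q : ∀ (X : Type) [Lg.Structure X], (α → X) → Prop}
    (hP : FO P) (hQ : FO Q) : FO fun X _ x => P X x ∨ Q X x := by
  obtain ⟨φ, hφ⟩ := hP
  obtain ⟨ψ, hψ⟩ := hQ
  exact ⟨φ ⊔ ψ, fun X _ x => by rw [Formula.realize_sup, hφ, hψ]⟩

private theorem FO_imp {α : Type} {P Q : ∀ (X : Type) [Lg.Structure X], (α → X) → Prop}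
    (hP : FO P) (hQ : FO Q) : FO fun X _ x => P X x → Q X x := by
  obtain ⟨φ, hφ⟩ := hP
  obtain ⟨ψ, hψ⟩ := hQ
  exact ⟨φ.imp ψ, fun X _ x => by rw [Formula.realize_imp, hφ, hψ]⟩

private theorem FO_not {α : Type} {P : ∀ (X : Type) [Lg.Structure X], (α → X) → Prop}
    (hP : FO P) : FO fun X _ x => ¬ P X x := by
  obtain ⟨φ, hφ⟩ := hP
  exact ⟨φ.not, fun X _ x => by rw [Formula.realize_not, hφ]⟩

private theorem FO_const {α : Type} (c : Prop) : FO fun (X : Type) [Lg.Structure X] (_ : α → X) => c := by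
  by_cases h : c
  · exact ⟨⊤, fun X _ x => by simp [h]⟩
  · exact ⟨⊥, fun X _ x => by simp [h]⟩

private theorem FO_fin {α ι : Type} [Finite ι]
    {P : ι → ∀ (X : Type) [Lg.Structure X], (α → X) → Prop}
    (hP : ∀ i, FO (P i)) : FO fun X _ x => ∀ i, P i X x := by
  choose φ hφ using hP
  exact ⟨Formula.iInf φ, fun X _ x => by
    rw [Formula.realize_iInf]
    exact forall_congr' fun i => hφ i X x⟩

private theorem FO_all {α : Type} (β : Type) [Finite β]
    {P : ∀ (X : Type) [Lg.Structure X], (α ⊕ β → X) → Prop} (hP : FO P) :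
    FO fun (X : Type) [Lg.Structure X] (x : α → X) => ∀ y : β → X, P X (Sum.elim x y) := by
  obtain ⟨φ, hφ⟩ := hP
  refine ⟨φ.iAlls β, fun X _ x => ?_⟩
  rw [Formula.realize_iAlls]
  exact forall_congr' fun y => hφ X (Sum.elim x y)

private theorem FO_ex {α : Type} (β : Type) [Finite β]
    {P : ∀ (X : Type) [Lg.Structure X], (α ⊕ β → X) → Prop} (hP : FO P) :
    FO fun (X : Type) [Lg.Structure X] (x : α → X) => ∃ y : β → X, P X (Sum.elim x y) := by
  obtain ⟨φ, hφ⟩ := hP
  refine ⟨φ.iExs β, fun X _ x => ?_⟩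
  rw [Formula.realize_iExs]
  exact exists_congr fun y => hφ X (Sum.elim x y)

private def fs (b : Bool) : Lg.Functions 1 := Fn.s b

private def rl (i : Ix) : Lg.Relations 2 := Rl.lt i

private def tm {α : Type} : List Bool → Lg.Term α → Lg.Term α
  | [], t => t
  | b :: w, t => tm w (Term.func (fs b) ![t])

private theorem tm_real {α X : Type} [Lg.Structure X] (x : α → X) (w : List Bool) :
    ∀ t : Lg.Term α, (tm w t).realize x = ev w (t.realize x) := by
  induction w with
  | nil => intro t; rfl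
  | cons b w ih =>
    intro t
    rw [tm, ih]
    show ev w _ = ev w (Structure.funMap (fs b) ![t.realize x])
    congr 1
    rw [Term.realize_func]
    congr 1
    funext i
    fin_cases i
    rfl

private theorem FO_eq {α : Type} (w w' : List Bool) (j j' : α) :
    FO fun (X : Type) [Lg.Structure X] (x : α → X) => ev w (x j) = ev w' (x j') :=
  ⟨(tm w (Term.var j)).equal (tm w' (Term.var j')), fun X _ x => by
    rw [Formula.realize_equal, tm_real, tm_real]; rfl⟩

private theorem FO_lt {α : Type} (i : Ix) (j j' : α) :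
    FO fun (X : Type) [Lg.Structure X] (x : α → X) => Alg.lt i (x j) (x j') :=
  ⟨Relations.formula₂ (rl i) (Term.var j) (Term.var j'), fun X _ x => by
    rw [Formula.realize_rel₂]; rfl⟩

private theorem FO_inN {α : Type} (u v : List Bool) (j : α) :
    FO fun (X : Type) [Lg.Structure X] (x : α → X) => InN u v (x j) :=
  FO_or (FO_eq [false] [true] j j) (FO_eq (false :: u) (true :: v) j j)

private theorem FO_cmp {α : Type} (i : Ix) (j j' : α) :
    FO fun (X : Type) [Lg.Structure X] (x : α → X) => Cmp i (x j) (x j') := by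
  cases i with
  | fib b => exact FO_eq [b] [b] j j'
  | co u v => exact FO_and (FO_inN u v j) (FO_inN u v j')

private theorem FO_inC {α : Type} (i : Ix) (a : Bool → α) (j : α) :
    FO fun (X : Type) [Lg.Structure X] (x : α → X) => InC i (fun b => x (a b)) (x j) := by
  cases i with
  | fib b => exact FO_eq [b] [] j (a b)
  | co u v =>
    exact FO_and (FO_or (FO_eq [] [] (a false) (a true)) (FO_eq u v (a false) (a true)))
      (FO_inN u v j)

private theorem transfer {P : ∀ (X : Type) [Lg.Structure X], (Empty → X) → Prop} (hP : FO P)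
    {M U : Type} [Lg.Structure M] [Lg.Structure U] (h : Lg.ElementarilyEquivalent M U)
    (hM : P M default) : P U default := by
  obtain ⟨φ, hφ⟩ := hP
  have h1 := (elementarilyEquivalent_iff.1 h) φ
  exact (hφ U default).1 (h1.1 ((hφ M default).2 hM))

/-- one extension statement -/
private def E1 (X : Type) [Alg X] (m n : ℕ) (cA : Fin m → Ix) (cB : Fin n → Ix) : Prop :=
  ∀ y : Bool ⊕ (Fin m ⊕ Fin n) → X,
    (∀ p, InC (cA p) (fun b => y (.inl b)) (y (.inr (.inl p)))) →
    (∀ q, InC (cB q) (fun b => y (.inl b)) (y (.inr (.inr q)))) →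
    (∀ p q, cA p = cB q → Alg.lt (cA p) (y (.inr (.inl p))) (y (.inr (.inr q)))) →
    ∃ z : Unit → X, (∀ b, Alg.s b (z ()) = y (.inl b)) ∧
      (∀ p, Alg.lt (cA p) (y (.inr (.inl p))) (z ())) ∧
      ∀ q, Alg.lt (cB q) (z ()) (y (.inr (.inr q)))

private theorem E1_of_Ext {X : Type} [Alg X] (hE : Ext X) (m n : ℕ) (cA : Fin m → Ix)
    (cB : Fin n → Ix) : E1 X m n cA cB := by
  classical
  intro y h1 h2 h3
  obtain ⟨z, hz, hz'⟩ := hE (fun b => y (.inl b)) (Finset.univ.image cA ∪ Finset.univ.image cB)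
    (fun i => (Finset.univ.filter fun p => cA p = i).image fun p => y (.inr (.inl p)))
    (fun i => (Finset.univ.filter fun q => cB q = i).image fun q => y (.inr (.inr q)))
    (by
      intro i _ c hc
      obtain ⟨p, hp, rfl⟩ := Finset.mem_image.1 hc
      rw [Finset.mem_filter] at hp
      rw [← hp.2]; exact h1 p)
    (by
      intro i _ c hc
      obtain ⟨q, hq, rfl⟩ := Finset.mem_image.1 hc
      rw [Finset.mem_filter] at hq
      rw [← hq.2]; exact h2 q)
    (by
      intro i _ c hc d hd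
      obtain ⟨p, hp, rfl⟩ := Finset.mem_image.1 hc
      obtain ⟨q, hq, rfl⟩ := Finset.mem_image.1 hd
      rw [Finset.mem_filter] at hp hq
      rw [← hp.2]
      exact h3 p q (hp.2.trans hq.2.symm))
  refine ⟨fun _ => z, hz, fun p => ?_, fun q => ?_⟩
  · refine (hz' (cA p) (Finset.mem_union_left _ (Finset.mem_image_of_mem _ (Finset.mem_univ p)))).1 _ ?_
    exact Finset.mem_image_of_mem (fun p => y (.inr (.inl p)))
      (Finset.mem_filter.2 ⟨Finset.mem_univ _, rfl⟩)
  · refine (hz' (cB q) (Finset.mem_union_right _ (Finset.mem_image_of_mem _ (Finset.mem_univ q)))).2 _ ?_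
    exact Finset.mem_image_of_mem (fun q => y (.inr (.inr q)))
      (Finset.mem_filter.2 ⟨Finset.mem_univ _, rfl⟩)

private theorem Ext_of_E1 {X : Type} [Alg X]
    (h : ∀ (m n : ℕ) (cA : Fin m → Ix) (cB : Fin n → Ix), E1 X m n cA cB) : Ext X := by
  intro a I L R hL hR hLR
  set SL := I.sigma L with hSL
  set SR := I.sigma R with hSR
  set eL := SL.equivFin with heL
  set eR := SR.equivFin with heR
  obtain ⟨z, hz, hzL, hzR⟩ := h _ _ (fun p => (eL.symm p).1.1) (fun q => (eR.symm q).1.1)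
    (Sum.elim a (Sum.elim (fun p => (eL.symm p).1.2) fun q => (eR.symm q).1.2))
    (fun p => by
      have hp := Finset.mem_sigma.1 (eL.symm p).2
      exact hL _ hp.1 _ hp.2)
    (fun q => by
      have hq := Finset.mem_sigma.1 (eR.symm q).2
      exact hR _ hq.1 _ hq.2)
    (fun p q hpq => by
      have hp := Finset.mem_sigma.1 (eL.symm p).2
      have hq := Finset.mem_sigma.1 (eR.symm q).2
      have hpq' : (eL.symm p).1.1 = (eR.symm q).1.1 := hpq
      refine hLR _ hp.1 _ hp.2 _ ?_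
      rw [hpq']
      exact hq.2)
  refine ⟨z (), hz, fun i hi => ⟨fun c hc => ?_, fun d hd => ?_⟩⟩
  · have := hzL (eL ⟨⟨i, c⟩, Finset.mem_sigma.2 ⟨hi, hc⟩⟩)
    simpa using this
  · have := hzR (eR ⟨⟨i, d⟩, Finset.mem_sigma.2 ⟨hi, hd⟩⟩)
    simpa using this

private theorem FO_E1 (m n : ℕ) (cA : Fin m → Ix) (cB : Fin n → Ix) :
    FO fun (X : Type) [Lg.Structure X] (_ : Empty → X) => E1 X m n cA cB := by
  refine FO_all (Bool ⊕ (Fin m ⊕ Fin n)) (P := fun X _ (y : Empty ⊕ (Bool ⊕ (Fin m ⊕ Fin n)) → X) =>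
    (∀ p, InC (cA p) (fun b => y (.inr (.inl b))) (y (.inr (.inr (.inl p))))) →
    (∀ q, InC (cB q) (fun b => y (.inr (.inl b))) (y (.inr (.inr (.inr q))))) →
    (∀ p q, cA p = cB q →
      Alg.lt (cA p) (y (.inr (.inr (.inl p)))) (y (.inr (.inr (.inr q))))) →
    ∃ z : Unit → X, (∀ b, Alg.s b (z ()) = y (.inr (.inl b))) ∧
      (∀ p, Alg.lt (cA p) (y (.inr (.inr (.inl p)))) (z ())) ∧
      ∀ q, Alg.lt (cB q) (z ()) (y (.inr (.inr (.inr q))))) ?_
  refine FO_imp (FO_fin fun p => FO_inC (cA p) (fun b => Sum.inr (Sum.inl b))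
    (Sum.inr (Sum.inr (Sum.inl p)))) ?_
  refine FO_imp (FO_fin fun q => FO_inC (cB q) (fun b => Sum.inr (Sum.inl b))
    (Sum.inr (Sum.inr (Sum.inr q)))) ?_
  refine FO_imp (FO_fin fun p => FO_fin fun q => FO_imp (FO_const _) (FO_lt (cA p) _ _)) ?_
  refine FO_ex Unit (P := fun X _ (y : (Empty ⊕ (Bool ⊕ (Fin m ⊕ Fin n))) ⊕ Unit → X) =>
    (∀ b, Alg.s b (y (.inr ())) = y (.inl (.inr (.inl b)))) ∧
      (∀ p, Alg.lt (cA p) (y (.inl (.inr (.inr (.inl p))))) (y (.inr ()))) ∧
      ∀ q, Alg.lt (cB q) (y (.inr ())) (y (.inl (.inr (.inr (.inr q)))))) ?_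
  refine FO_and (FO_fin fun b => FO_eq [b] [] (Sum.inr ()) (Sum.inl (Sum.inr (Sum.inl b)))) ?_
  exact FO_and (FO_fin fun p => FO_lt (cA p) _ _) (FO_fin fun q => FO_lt (cB q) _ _)

/-- The conditions can be written as sentences. -/
theorem AX_main {M U : Type} [Lg.Structure M] [Lg.Structure U] (hG : Good M) (hE : Ext M)
    (h : Lg.ElementarilyEquivalent M U) : Good U ∧ Ext U := by
  refine ⟨⟨?_, ?_, ?_, ?_, ?_⟩, Ext_of_E1 fun m n cA cB =>
    transfer (FO_E1 m n cA cB) h (E1_of_Ext hE m n cA cB)⟩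
  · intro w x hw
    have hfo : FO fun (X : Type) [Lg.Structure X] (_ : Empty → X) =>
        ∀ y : Unit → X, ¬ ev w (y ()) = ev [] (y ()) :=
      FO_all Unit (P := fun X _ (y : Empty ⊕ Unit → X) => ¬ ev w (y (.inr ())) = ev [] (y (.inr ())))
        (FO_not (FO_eq w [] (Sum.inr ()) (Sum.inr ())))
    exact transfer hfo h (fun y => hG.acyc w (y ()) hw) (fun _ => x)
  · intro i x y hxy
    have hfo : FO fun (X : Type) [Lg.Structure X] (_ : Empty → X) =>
        ∀ z : Bool → X, Alg.lt i (z false) (z true) → Cmp i (z false) (z true) :=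
      FO_all Bool (P := fun X _ (z : Empty ⊕ Bool → X) => Alg.lt i (z (.inr false)) (z (.inr true)) →
        Cmp i (z (.inr false)) (z (.inr true))) (FO_imp (FO_lt i _ _) (FO_cmp i _ _))
    exact transfer hfo h (fun z => hG.cmp i _ _) (fun b => bif b then y else x) hxy
  · intro i x
    have hfo : FO fun (X : Type) [Lg.Structure X] (_ : Empty → X) =>
        ∀ y : Unit → X, ¬ Alg.lt i (y ()) (y ()) :=
      FO_all Unit (P := fun X _ (y : Empty ⊕ Unit → X) => ¬ Alg.lt i (y (.inr ())) (y (.inr ())))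
        (FO_not (FO_lt i (Sum.inr ()) (Sum.inr ())))
    exact transfer hfo h (fun y => hG.irr i (y ())) (fun _ => x)
  · intro i x y z hxy hyz
    have hfo : FO fun (X : Type) [Lg.Structure X] (_ : Empty → X) =>
        ∀ v : Fin 3 → X, Alg.lt i (v 0) (v 1) → Alg.lt i (v 1) (v 2) → Alg.lt i (v 0) (v 2) :=
      FO_all (Fin 3) (P := fun X _ (v : Empty ⊕ Fin 3 → X) => Alg.lt i (v (.inr 0)) (v (.inr 1)) →
        Alg.lt i (v (.inr 1)) (v (.inr 2)) → Alg.lt i (v (.inr 0)) (v (.inr 2)))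
        (FO_imp (FO_lt i _ _) (FO_imp (FO_lt i _ _) (FO_lt i _ _)))
    exact transfer hfo h (fun v => hG.tr i _ _ _) ![x, y, z] hxy hyz
  · intro i x y hxy
    have hfo : FO fun (X : Type) [Lg.Structure X] (_ : Empty → X) =>
        ∀ z : Bool → X, Cmp i (z false) (z true) →
          Alg.lt i (z false) (z true) ∨ ev [] (z false) = ev [] (z true) ∨
            Alg.lt i (z true) (z false) :=
      FO_all Bool (P := fun X _ (z : Empty ⊕ Bool → X) => Cmp i (z (.inr false)) (z (.inr true)) →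
          Alg.lt i (z (.inr false)) (z (.inr true)) ∨
            ev [] (z (.inr false)) = ev [] (z (.inr true)) ∨
            Alg.lt i (z (.inr true)) (z (.inr false)))
        (FO_imp (FO_cmp i _ _) (FO_or (FO_lt i _ _) (FO_or (FO_eq [] [] _ _) (FO_lt i _ _))))
    exact transfer hfo h (fun z => hG.tot i _ _) (fun b => bif b then y else x) hxy

end Pool.Agent.Lib_helper23.TF
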