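import Pool.Agent.Lib_helper23.TF.Defs

/-! MP_bc6371_lc, block CB: closures (helper31). Uses no other block. -/

set_option autoImplicit false

namespace Pool.Agent.Lib_helper23.TF

open Cardinal Pool.Agent.Lib_helper23.SD

section
variable {X : Type} [Alg X]

theorem ev_append (u v : List Bool) (x : X) : ev (u ++ v) x = ev v (ev u x) := by
  induction u generalizing x with
  | nil => rfl
  | cons b u ih => exact ih _

theorem ev_mem {A : Set X} (hA : Closed A) {x : X} (hx : x ∈ A) (w : List Bool) : ev w x ∈ A := by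
  induction w generalizing x with
  | nil => exact hx
  | cons b w ih => exact ih (hA b x hx)

theorem closed_cl (S : Set X) : Closed (cl S) := by
  rintro b _ ⟨x, hx, w, rfl⟩
  exact ⟨x, hx, w ++ [b], by rw [ev_append]; rfl⟩

theorem subset_cl (S : Set X) : S ⊆ cl S := fun x hx => ⟨x, hx, [], rfl⟩

theorem cl_min {S A : Set X} (hA : Closed A) (h : S ⊆ A) : cl S ⊆ A := by
  rintro _ ⟨x, hx, w, rfl⟩
  exact ev_mem hA (h hx) w

theorem closed_union {A B : Set X} (hA : Closed A) (hB : Closed B) : Closed (A ∪ B) := by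
  rintro b x (hx | hx)
  · exact Or.inl (hA b x hx)
  · exact Or.inr (hB b x hx)

theorem mem_cl_range {ι : Type} {x : ι → X} {z : X} :
    z ∈ cl (Set.range x) ↔ ∃ t : ι × List Bool, z = val x t := by
  constructor
  · rintro ⟨_, ⟨i, rfl⟩, w, rfl⟩
    exact ⟨(i, w), rfl⟩
  · rintro ⟨t, rfl⟩
    exact ⟨x t.1, ⟨t.1, rfl⟩, t.2, rfl⟩

theorem mem_cl_one {x z : X} : z ∈ cl {x} ↔ ∃ w, z = ev w x := by
  constructor
  · rintro ⟨_, rfl, w, rfl⟩
    exact ⟨w, rfl⟩
  · rintro ⟨w, rfl⟩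
    exact ⟨x, rfl, w, rfl⟩

theorem card_cl {κ : Cardinal.{0}} (hκ : ℵ₀ < κ) {S : Set X} (hS : #S < κ) : #(cl S) < κ := by
  have h1 : cl S = Set.range (fun p : S × List Bool => ev p.2 (p.1 : X)) := by
    ext z
    constructor
    · rintro ⟨x, hx, w, rfl⟩
      exact ⟨(⟨x, hx⟩, w), rfl⟩
    · rintro ⟨⟨⟨x, hx⟩, w⟩, rfl⟩
      exact ⟨x, hx, w, rfl⟩
  rw [h1]
  refine lt_of_le_of_lt mk_range_le ?_
  rw [mk_prod, lift_id, lift_id]
  refine mul_lt_of_lt hκ.le hS ?_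
  have : #(List Bool) ≤ ℵ₀ := mk_le_aleph0
  exact lt_of_le_of_lt this hκ

/-- embeddings and words -/
theorem emb_ev {Y : Type} [Alg Y] {g : X → Y} {S : Set X} (h : IsEmb g S) (hS : Closed S)
    {z : X} (hz : z ∈ S) (w : List Bool) : g (ev w z) = ev w (g z) := by
  induction w generalizing z with
  | nil => rfl
  | cons b w ih =>
    show g (ev w (Alg.s b z)) = ev w (Alg.s b (g z))
    rw [ih (hS b z hz), h.s b z hz]

private theorem emb_eq {Y : Type} [Alg Y] {g : X → Y} {S : Set X} (h : IsEmb g S) {x y : X}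
    (hx : x ∈ S) (hy : y ∈ S) : g x = g y ↔ x = y :=
  ⟨fun e => h.inj hx hy e, fun e => by rw [e]⟩

theorem emb_inN {Y : Type} [Alg Y] {g : X → Y} {S : Set X} (h : IsEmb g S) (hS : Closed S)
    {z : X} (hz : z ∈ S) (u v : List Bool) : InN u v (g z) ↔ InN u v z := by
  unfold InN
  rw [← emb_ev h hS hz, ← emb_ev h hS hz, ← h.s _ z hz, ← h.s _ z hz,
    emb_eq h (hS _ z hz) (hS _ z hz), emb_eq h (ev_mem hS hz _) (ev_mem hS hz _)]

theorem emb_cmp {Y : Type} [Alg Y] {g : X → Y} {S : Set X} (h : IsEmb g S) (hS : Closed S)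
    {z z' : X} (hz : z ∈ S) (hz' : z' ∈ S) (i : Ix) : Cmp i (g z) (g z') ↔ Cmp i z z' := by
  cases i with
  | fib b =>
    show Alg.s b (g z) = Alg.s b (g z') ↔ Alg.s b z = Alg.s b z'
    rw [← h.s _ z hz, ← h.s _ z' hz', emb_eq h (hS _ z hz) (hS _ z' hz')]
  | co u v =>
    show InN u v (g z) ∧ InN u v (g z') ↔ InN u v z ∧ InN u v z'
    rw [emb_inN h hS hz, emb_inN h hS hz']

/-- the inverse embedding -/
theorem emb_inv {Y : Type} [Alg Y] [Nonempty X] {g : X → Y} {S : Set X} (h : IsEmb g S)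
    (hS : Closed S) :
    Closed (g '' S) ∧ IsEmb (Function.invFunOn g S) (g '' S) ∧
      (∀ z ∈ S, Function.invFunOn g S (g z) = z) ∧
      ∀ y ∈ g '' S, Function.invFunOn g S y ∈ S ∧ g (Function.invFunOn g S y) = y := by
  have h1 : ∀ y ∈ g '' S, Function.invFunOn g S y ∈ S ∧ g (Function.invFunOn g S y) = y :=
    fun y hy => ⟨Function.invFunOn_mem hy, Function.invFunOn_eq hy⟩
  have h2 : ∀ z ∈ S, Function.invFunOn g S (g z) = z := fun z hz =>
    h.inj (h1 _ ⟨z, hz, rfl⟩).1 hz (h1 _ ⟨z, hz, rfl⟩).2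
  refine ⟨?_, ⟨?_, ?_, ?_⟩, h2, h1⟩
  · rintro b _ ⟨z, hz, rfl⟩
    exact ⟨Alg.s b z, hS b z hz, h.s b z hz⟩
  · intro y hy y' hy' e
    rw [← (h1 y hy).2, ← (h1 y' hy').2, e]
  · rintro b _ ⟨z, hz, rfl⟩
    rw [← h.s b z hz, h2 z hz, h2 _ (hS b z hz)]
  · rintro i _ ⟨z, hz, rfl⟩ _ ⟨z', hz', rfl⟩
    rw [h2 z hz, h2 z' hz', h.lt i z hz z' hz']

theorem cmp_symm {i : Ix} {x y : X} (h : Cmp i x y) : Cmp i y x := by
  cases i with
  | fib b => exact Eq.symm h
  | co u v => exact ⟨h.2, h.1⟩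

theorem cmp_trans {i : Ix} {x y z : X} (h : Cmp i x y) (h' : Cmp i y z) : Cmp i x z := by
  cases i with
  | fib b => exact Eq.trans h h'
  | co u v => exact ⟨h.1, h'.2⟩

theorem inC_iff {a : Bool → X} {y : X} (hy : ∀ b, Alg.s b y = a b) (i : Ix) (c : X) :
    InC i a c ↔ Cmp i y c := by
  cases i with
  | fib b =>
    show Alg.s b c = a b ↔ Alg.s b y = Alg.s b c
    rw [hy b]
    exact eq_comm
  | co u v =>
    show (a false = a true ∨ ev u (a false) = ev v (a true)) ∧ InN u v c ↔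
      (Alg.s false y = Alg.s true y ∨ ev u (Alg.s false y) = ev v (Alg.s true y)) ∧ InN u v c
    rw [hy false, hy true]

end

end Pool.Agent.Lib_helper23.TF
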