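import Pool.Agent.Lib_helper23.TF.Defs

/-!
# MP_bc6371_lc, block DE: definability of the basic relations
-/

set_option autoImplicit false

namespace Pool.Agent.Lib_helper23.TF

open Cardinal Pool.Agent.Lib_helper23.SD Pool.Agent.Lib_helper23.TF

private def sF (b : Bool) : Lg.Functions 1 := Fn.s b

private def ltR (i : Ix) : Lg.Relations 2 := Rl.lt i

private theorem funMap_sF {U : Type} [Lg.Structure U] (b : Bool) (x : U) :
    FirstOrder.Language.Structure.funMap (sF b) ![x] = Alg.s b x := rfl

private theorem relMap_ltR {U : Type} [Lg.Structure U] (i : Ix) (x y : U) :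
    FirstOrder.Language.Structure.RelMap (ltR i) ![x, y] = Alg.lt i x y := rfl

private def tm {β : Type} : List Bool → Lg.Term β → Lg.Term β
  | [], τ => τ
  | b :: w, τ => tm w (FirstOrder.Language.Term.func (sF b) ![τ])

private theorem tm_realize {U : Type} [Lg.Structure U] {β : Type} (v : β → U) :
    ∀ (w : List Bool) (τ : Lg.Term β), (tm w τ).realize v = ev w (τ.realize v)
  | [], τ => rfl
  | b :: w, τ => by
    show (tm w _).realize v = ev w (Alg.s b (τ.realize v))
    rw [tm_realize v w]
    congr 1
    rw [FirstOrder.Language.Term.realize_func, ← funMap_sF]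
    congr 1
    funext i
    have hi : i = 0 := Subsingleton.elim _ _
    subst hi
    rfl

private theorem ev_app {X : Type} [Alg X] : ∀ (u v : List Bool) (x : X),
    ev (u ++ v) x = ev v (ev u x)
  | [], _, _ => rfl
  | b :: u, v, x => ev_app u v (Alg.s b x)

private theorem def_eq {U : Type} [Lg.Structure U] {α : Type} (A : Set U)
    (τ τ' : Lg.Term (A ⊕ α)) :
    A.Definable Lg {x : α → U | τ.realize (Sum.elim (fun a : A => (a : U)) x) =
      τ'.realize (Sum.elim (fun a : A => (a : U)) x)} := by
  rw [Set.definable_iff_exists_formula_sum]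
  refine ⟨τ.equal τ', ?_⟩
  ext x
  show _ ↔ (τ.equal τ').Realize _
  rw [FirstOrder.Language.Formula.realize_equal]
  rfl

private theorem def_rel {U : Type} [Lg.Structure U] {α : Type} (A : Set U) (i : Ix)
    (τ τ' : Lg.Term (A ⊕ α)) :
    A.Definable Lg {x : α → U | Alg.lt i (τ.realize (Sum.elim (fun a : A => (a : U)) x))
      (τ'.realize (Sum.elim (fun a : A => (a : U)) x))} := by
  rw [Set.definable_iff_exists_formula_sum]
  refine ⟨FirstOrder.Language.Relations.formula₂ (ltR i) τ τ', ?_⟩
  ext x
  show _ ↔ (FirstOrder.Language.Relations.formula₂ (ltR i) τ τ').Realize _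
  rw [FirstOrder.Language.Formula.realize_rel₂, relMap_ltR]
  rfl

private def vt {U : Type} [Lg.Structure U] {α : Type} (A : Set U) (t : α × List Bool) :
    Lg.Term (A ⊕ α) := tm t.2 (FirstOrder.Language.Term.var (Sum.inr t.1))

private theorem vt_realize {U : Type} [Lg.Structure U] {α : Type} (A : Set U)
    (t : α × List Bool) (x : α → U) :
    (vt A t).realize (Sum.elim (fun a : A => (a : U)) x) = val x t := by
  rw [vt, tm_realize]
  rfl

private def ct {U : Type} [Lg.Structure U] {α : Type} {A : Set U} {c : U} (hc : c ∈ A)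
    (w : List Bool) : Lg.Term (A ⊕ α) := tm w (FirstOrder.Language.Term.var (Sum.inl ⟨c, hc⟩))

private theorem ct_realize {U : Type} [Lg.Structure U] {α : Type} {A : Set U} {c : U}
    (hc : c ∈ A) (w : List Bool) (x : α → U) :
    (ct (α := α) hc w).realize (Sum.elim (fun a : A => (a : U)) x) = ev w c := by
  rw [ct, tm_realize]
  rfl

section
variable {U : Type} [Lg.Structure U]

/-- `fun x => ev w (x j)` is the realisation of a term -/
theorem DE_eq {α : Type} (A : Set U) (t t' : α × List Bool) :
    A.Definable Lg {x : α → U | val x t = val x t'} := by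
  have h := def_eq A (vt A t) (vt A t')
  simp only [vt_realize] at h
  exact h

theorem DE_eqc {α : Type} {A : Set U} {c : U} (hc : c ∈ A) (t : α × List Bool) :
    A.Definable Lg {x : α → U | val x t = c} := by
  have h := def_eq A (vt A t) (ct hc [])
  simp only [vt_realize, ct_realize] at h
  exact h

theorem DE_lt {α : Type} (A : Set U) (i : Ix) (t t' : α × List Bool) :
    A.Definable Lg {x : α → U | Alg.lt i (val x t) (val x t')} := by
  have h := def_rel A i (vt A t) (vt A t')
  simp only [vt_realize] at h
  exact h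

theorem DE_ltc {α : Type} {A : Set U} {c : U} (hc : c ∈ A) (i : Ix) (t : α × List Bool) :
    A.Definable Lg {x : α → U | Alg.lt i (val x t) c} := by
  have h := def_rel A i (vt A t) (ct hc [])
  simp only [vt_realize, ct_realize] at h
  exact h

theorem DE_clt {α : Type} {A : Set U} {c : U} (hc : c ∈ A) (i : Ix) (t : α × List Bool) :
    A.Definable Lg {x : α → U | Alg.lt i c (val x t)} := by
  have h := def_rel A i (ct hc []) (vt A t)
  simp only [vt_realize, ct_realize] at h
  exact h

private theorem val_app {α : Type} (x : α → U) (t : α × List Bool) (w : List Bool) :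
    val x (t.1, t.2 ++ w) = ev w (val x t) := ev_app t.2 w (x t.1)

theorem DE_inN {α : Type} (A : Set U) (u v : List Bool) (t : α × List Bool) :
    A.Definable Lg {x : α → U | InN u v (val x t)} := by
  have h1 := DE_eq A (t.1, t.2 ++ [false]) (t.1, t.2 ++ [true])
  have h2 := DE_eq A (t.1, t.2 ++ (false :: u)) (t.1, t.2 ++ (true :: v))
  simp only [val_app] at h1 h2
  exact h1.union h2

theorem DE_cmp {α : Type} {A : Set U} {c : U} (hc : c ∈ A) (i : Ix) (t : α × List Bool) :
    A.Definable Lg {x : α → U | Cmp i c (val x t)} := by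
  cases i with
  | fib b =>
    have h := def_eq A (ct hc [b]) (vt A (t.1, t.2 ++ [b]))
    simp only [vt_realize, ct_realize, val_app] at h
    exact h
  | co u v =>
    by_cases hN : InN u v c
    · have h := DE_inN A u v t
      have he : {x : α → U | Cmp (Ix.co u v) c (val x t)} = {x : α → U | InN u v (val x t)} := by
        ext x
        exact ⟨fun hx => hx.2, fun hx => ⟨hN, hx⟩⟩
      rw [he]
      exact h
    · have he : {x : α → U | Cmp (Ix.co u v) c (val x t)} = ∅ := by
        ext x
        exact ⟨fun hx => (hN hx.1).elim, fun hx => hx.elim⟩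
      rw [he]
      exact Set.definable_empty

/-- consequences for tuples of the same type -/
theorem DE_same {α : Type} {A : Set U} {x y : α → U} (h : SameTp Lg A x y) :
    (∀ t t', val x t = val x t' ↔ val y t = val y t') ∧
    (∀ t, ∀ c ∈ A, val x t = c ↔ val y t = c) ∧
    (∀ i t t', Alg.lt i (val x t) (val x t') ↔ Alg.lt i (val y t) (val y t')) ∧
    (∀ i t, ∀ c ∈ A, Alg.lt i c (val x t) ↔ Alg.lt i c (val y t)) ∧
    (∀ i t, ∀ c ∈ A, Alg.lt i (val x t) c ↔ Alg.lt i (val y t) c) ∧
    (∀ i t, ∀ c ∈ A, Cmp i c (val x t) ↔ Cmp i c (val y t)) ∧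
    (∀ u v t, InN u v (val x t) ↔ InN u v (val y t)) ∧
    (∀ t, val x t ∈ A ↔ val y t ∈ A) ∧ (∀ t, Free A (val x t) ↔ Free A (val y t)) := by
  have h1 : ∀ t t', val x t = val x t' ↔ val y t = val y t' := fun t t' => h _ (DE_eq A t t')
  have h2 : ∀ t, ∀ c ∈ A, val x t = c ↔ val y t = c := fun t c hc => h _ (DE_eqc hc t)
  have h3 : ∀ t, val x t ∈ A ↔ val y t ∈ A := by
    intro t
    constructor
    · intro hx
      have := (h2 t _ hx).1 rfl
      rw [this]
      exact hx
    · intro hy
      have := (h2 t _ hy).2 rfl
      rw [this]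
      exact hy
  refine ⟨h1, h2, fun i t t' => h _ (DE_lt A i t t'), fun i t c hc => h _ (DE_clt hc i t),
    fun i t c hc => h _ (DE_ltc hc i t), fun i t c hc => h _ (DE_cmp hc i t),
    fun u v t => h _ (DE_inN A u v t), h3, ?_⟩
  intro t
  unfold Free
  constructor
  · rintro ⟨hi, hA⟩
    refine ⟨fun w w' he => ?_, fun w hw => ?_⟩
    · have he' : val y (t.1, t.2 ++ w) = val y (t.1, t.2 ++ w') := by
        rw [val_app, val_app]; exact he
      have := (h1 _ _).2 he'
      rw [val_app, val_app] at this
      exact hi this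
    · rw [← val_app] at hw
      have := (h3 _).2 hw
      rw [val_app] at this
      exact hA w this
  · rintro ⟨hi, hA⟩
    refine ⟨fun w w' he => ?_, fun w hw => ?_⟩
    · have he' : val x (t.1, t.2 ++ w) = val x (t.1, t.2 ++ w') := by
        rw [val_app, val_app]; exact he
      have := (h1 _ _).1 he'
      rw [val_app, val_app] at this
      exact hi this
    · rw [← val_app] at hw
      have := (h3 _).1 hw
      rw [val_app] at this
      exact hA w this

end

end Pool.Agent.Lib_helper23.TF
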