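import Pool.Agent.Lib_helper23.TF.Defs
import Pool.Agent.Lib_helper23.TF.CB

/-!
# MP_bc6371_lc, BLOCK FR1: free elements and free families
-/

set_option autoImplicit false

namespace Pool.Agent.Lib_helper23.TF

open Cardinal Pool.Agent.Lib_helper23.SD

variable {X : Type} [Alg X]

private theorem ev_append' (u v : List Bool) (x : X) : ev (u ++ v) x = ev v (ev u x) := by
  induction u generalizing x with
  | nil => rfl
  | cons b u ih => exact ih (Alg.s b x)

private theorem ev_snoc (w : List Bool) (b : Bool) (x : X) :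
    Alg.s b (ev w x) = ev (w ++ [b]) x := by
  rw [ev_append']; rfl

private theorem mem_cl_one' {x z : X} : z ∈ cl {x} ↔ ∃ w, z = ev w x := by
  constructor
  · rintro ⟨y, hy, w, rfl⟩
    rw [Set.mem_singleton_iff] at hy
    exact ⟨w, by rw [hy]⟩
  · rintro ⟨w, rfl⟩
    exact ⟨x, rfl, w, rfl⟩

/-- closed subsets of the closure -/
theorem free_ev {A : Set X} {x : X} (h : Free A x) (w : List Bool) : Free A (ev w x) := by
  refine ⟨?_, ?_⟩
  · intro u v huv
    have h' : ev u (ev w x) = ev v (ev w x) := huv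
    rw [← ev_append', ← ev_append'] at h'
    have := h.1 h'
    exact List.append_cancel_left this
  · intro v
    rw [← ev_append']
    exact h.2 _

theorem free_mono {A B : Set X} {x : X} (h : Free B x) (hAB : A ⊆ B) : Free A x :=
  ⟨h.1, fun w hw => h.2 w (hAB hw)⟩

/-- no coincidences -/
theorem free_inN {A : Set X} {x : X} (h : Free A x) (u v : List Bool) : ¬ InN u v x := by
  rintro (h1 | h1)
  · have h2 : ([false] : List Bool) = [true] := h.1 h1
    simp at h2
  · have h2 : (false :: u : List Bool) = true :: v := h.1 h1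
    simp at h2

/-- In a free family the element `ev w (f k)` determines `k` and `w`. -/
theorem fam_inj {ι : Type} {A : Set X} {K : Set ι} {f : ι → X} (h : FreeFam A K f) {k k' : ι}
    (hk : k ∈ K) (hk' : k' ∈ K) {w w' : List Bool} (he : ev w (f k) = ev w' (f k')) :
    k = k' ∧ w = w' := by
  have hkk : k = k' := by
    by_contra hne
    have hd := h.2 k hk k' hk' hne
    rw [Set.disjoint_left] at hd
    exact hd (mem_cl_one'.2 ⟨w, rfl⟩) (mem_cl_one'.2 ⟨w', he⟩)
  subst hkk
  exact ⟨rfl, (h.1 k hk).1 he⟩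

/-- distinct elements of the closure of a free family, and elements of `A`, are not comparable -/
theorem fam_cmp (hX : Good X) {ι : Type} {A : Set X} (hA : Closed A) {K : Set ι} {f : ι → X}
    (h : FreeFam A K f) {i : Ix} {k : ι} (hk : k ∈ K) {w : List Bool} {z : X}
    (hz : z ∈ A ∨ ∃ k' ∈ K, ∃ w', z = ev w' (f k')) (hc : Cmp i (ev w (f k)) z) :
    z = ev w (f k) := by
  cases i with
  | fib b =>
    have hc' : Alg.s b (ev w (f k)) = Alg.s b z := hc
    rcases hz with hz | ⟨k', hk', w', rfl⟩
    · exfalso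
      apply (h.1 k hk).2 (w ++ [b])
      rw [← ev_snoc, hc']
      exact hA b z hz
    · rw [ev_snoc, ev_snoc] at hc'
      obtain ⟨rfl, hw⟩ := fam_inj h hk hk' hc'
      rw [List.append_cancel_right hw]
  | co u v =>
    have hc' : InN u v (ev w (f k)) := hc.1
    exact absurd hc' (free_inN (free_ev (h.1 k hk) w) u v)

/-- the halves of a free family are free families with disjoint closures -/
theorem fam_half {ι : Type} {A : Set X} {K : Set ι} {f : ι → X} (h : FreeFam A K f) (b : Bool) :
    FreeFam A K (fun k => Alg.s b (f k)) ∧ ∀ k ∈ K, ∀ k' ∈ K,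
      Disjoint (cl {Alg.s false (f k)}) (cl {Alg.s true (f k')}) := by
  refine ⟨⟨?_, ?_⟩, ?_⟩
  · intro k hk
    exact free_ev (h.1 k hk) [b]
  · intro k hk k' hk' hne
    rw [Set.disjoint_left]
    intro z hz hz'
    obtain ⟨w, hw⟩ := mem_cl_one'.1 hz
    obtain ⟨w', hw'⟩ := mem_cl_one'.1 hz'
    exact hne (fam_inj h hk hk' (w := b :: w) (w' := b :: w') (hw.symm.trans hw')).1
  · intro k hk k' hk'
    rw [Set.disjoint_left]
    intro z hz hz'
    obtain ⟨w, hw⟩ := mem_cl_one'.1 hz
    obtain ⟨w', hw'⟩ := mem_cl_one'.1 hz'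
    have h2 := (fam_inj h hk hk' (w := false :: w) (w' := true :: w') (hw.symm.trans hw')).2
    simp at h2

end Pool.Agent.Lib_helper23.TF
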