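import Pool.Agent.Lib_helper23.TF.Defs

/-!
# MP_bc6371_lc, block EX: the extension rule with a finite set to be avoided
-/

set_option autoImplicit false

namespace Pool.Agent.Lib_helper23.TF

open Cardinal Pool.Agent.Lib_helper23.SD

section
variable {X : Type} [Alg X]

/-- Use the index `fib false` (insert it in `I`): `R' = R ∪ {e ∈ E : s false e = a false, all of `L`
are below `e`}`, `L' = L ∪ {e ∈ E in the class, not above all of L}`. -/
theorem EX_main (hG : Good X) (hE : Ext X) (a : Bool → X) (I : Finset Ix) (L R : Ix → Finset X)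
    (hL : ∀ i ∈ I, ∀ c ∈ L i, InC i a c) (hR : ∀ i ∈ I, ∀ c ∈ R i, InC i a c)
    (hLR : ∀ i ∈ I, ∀ c ∈ L i, ∀ d ∈ R i, Alg.lt i c d) (E : Finset X) :
    ∃ y : X, (∀ b, Alg.s b y = a b) ∧ y ∉ E ∧
      ∀ i ∈ I, (∀ c ∈ L i, Alg.lt i c y) ∧ ∀ d ∈ R i, Alg.lt i y d := by
  classical
  obtain ⟨i₀, hi₀⟩ : ∃ i : Ix, i = Ix.fib false := ⟨_, rfl⟩
  obtain ⟨L₀, R₀, hL₀, hR₀, hLR₀, h₀⟩ : ∃ L₀ R₀ : Finset X, (∀ c ∈ L₀, InC i₀ a c) ∧
      (∀ c ∈ R₀, InC i₀ a c) ∧ (∀ c ∈ L₀, ∀ d ∈ R₀, Alg.lt i₀ c d) ∧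
      (i₀ ∈ I → L i₀ = L₀ ∧ R i₀ = R₀) := by
    by_cases h : i₀ ∈ I
    · exact ⟨L i₀, R i₀, hL i₀ h, hR i₀ h, hLR i₀ h, fun _ => ⟨rfl, rfl⟩⟩
    · exact ⟨∅, ∅, fun c hc => absurd hc (Finset.notMem_empty c),
        fun c hc => absurd hc (Finset.notMem_empty c),
        fun c hc => absurd hc (Finset.notMem_empty c), fun hh => absurd hh h⟩
  obtain ⟨E₁, hE₁⟩ : ∃ E₁ : Finset X, ∀ e, e ∈ E₁ ↔ e ∈ E ∧ InC i₀ a e ∧
      ¬ ∀ l ∈ L₀, Alg.lt i₀ l e :=
    ⟨E.filter (fun e => InC i₀ a e ∧ ¬ ∀ l ∈ L₀, Alg.lt i₀ l e), fun e => Finset.mem_filter⟩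
  obtain ⟨E₂, hE₂⟩ : ∃ E₂ : Finset X, ∀ e, e ∈ E₂ ↔ e ∈ E ∧ InC i₀ a e ∧
      ∀ l ∈ L₀, Alg.lt i₀ l e :=
    ⟨E.filter (fun e => InC i₀ a e ∧ ∀ l ∈ L₀, Alg.lt i₀ l e), fun e => Finset.mem_filter⟩
  have hcmp : ∀ c d : X, InC i₀ a c → InC i₀ a d → Cmp i₀ c d := by
    intro c d hc hd
    rw [hi₀] at hc hd ⊢
    exact hc.trans hd.symm
  -- an element of `E₁` is below everything which is above all of `L₀`
  have hlow : ∀ c ∈ E₁, ∀ d : X, (∀ l ∈ L₀, Alg.lt i₀ l d) → Alg.lt i₀ c d := by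
    intro c hc d hd
    obtain ⟨_, hcC, hcn⟩ := (hE₁ c).1 hc
    push Not at hcn
    obtain ⟨l, hl, hlc⟩ := hcn
    rcases hG.tot i₀ l c (hcmp l c (hL₀ l hl) hcC) with h | h | h
    · exact absurd h hlc
    · rw [← h]; exact hd l hl
    · exact hG.tr i₀ c l d h (hd l hl)
  have hLU : ∀ i ∈ insert i₀ I, ∀ c ∈ Function.update L i₀ (L₀ ∪ E₁) i, InC i a c := by
    intro i hi c hc
    by_cases h : i = i₀
    · subst h
      rw [Function.update_self] at hc
      rcases Finset.mem_union.mp hc with h | h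
      · exact hL₀ c h
      · exact ((hE₁ c).1 h).2.1
    · rw [Function.update_of_ne h] at hc
      exact hL i (Finset.mem_of_mem_insert_of_ne hi h) c hc
  have hRU : ∀ i ∈ insert i₀ I, ∀ c ∈ Function.update R i₀ (R₀ ∪ E₂) i, InC i a c := by
    intro i hi c hc
    by_cases h : i = i₀
    · subst h
      rw [Function.update_self] at hc
      rcases Finset.mem_union.mp hc with h | h
      · exact hR₀ c h
      · exact ((hE₂ c).1 h).2.1
    · rw [Function.update_of_ne h] at hc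
      exact hR i (Finset.mem_of_mem_insert_of_ne hi h) c hc
  have hLRU : ∀ i ∈ insert i₀ I, ∀ c ∈ Function.update L i₀ (L₀ ∪ E₁) i,
      ∀ d ∈ Function.update R i₀ (R₀ ∪ E₂) i, Alg.lt i c d := by
    intro i hi c hc d hd
    by_cases h : i = i₀
    · subst h
      rw [Function.update_self] at hc hd
      rcases Finset.mem_union.mp hc with hc | hc
      · rcases Finset.mem_union.mp hd with hd | hd
        · exact hLR₀ c hc d hd
        · exact ((hE₂ d).1 hd).2.2 c hc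
      · rcases Finset.mem_union.mp hd with hd | hd
        · exact hlow c hc d (fun l hl => hLR₀ l hl d hd)
        · exact hlow c hc d ((hE₂ d).1 hd).2.2
    · rw [Function.update_of_ne h] at hc hd
      exact hLR i (Finset.mem_of_mem_insert_of_ne hi h) c hc d hd
  obtain ⟨y, hy1, hy2⟩ := hE a (insert i₀ I) _ _ hLU hRU hLRU
  refine ⟨y, hy1, ?_, ?_⟩
  · intro hyE
    have hyC : InC i₀ a y := by
      rw [hi₀]
      exact hy1 false
    have h2 := hy2 i₀ (Finset.mem_insert_self i₀ I)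
    rw [Function.update_self, Function.update_self] at h2
    by_cases h : ∀ l ∈ L₀, Alg.lt i₀ l y
    · exact hG.irr i₀ y (h2.2 y (Finset.mem_union_right _ ((hE₂ y).2 ⟨hyE, hyC, h⟩)))
    · exact hG.irr i₀ y (h2.1 y (Finset.mem_union_right _ ((hE₁ y).2 ⟨hyE, hyC, h⟩)))
  · intro i hi
    have h2 := hy2 i (Finset.mem_insert_of_mem hi)
    by_cases h : i = i₀
    · subst h
      rw [Function.update_self, Function.update_self] at h2
      rw [(h₀ hi).1, (h₀ hi).2]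
      exact ⟨fun c hc => h2.1 c (Finset.mem_union_left _ hc),
        fun d hd => h2.2 d (Finset.mem_union_left _ hd)⟩
    · rw [Function.update_of_ne h, Function.update_of_ne h] at h2
      exact h2

end

end Pool.Agent.Lib_helper23.TF
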