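import Pool.Agent.Lib_helper23.TF.Defs
import Pool.Agent.Lib_helper23.TF.CB
import Pool.Agent.Lib_helper23.TF.EX

/-!
# MP_bc6371_lc, block FI: insertion of finitely many elements
-/

set_option autoImplicit false

namespace Pool.Agent.Lib_helper23.TF

open Cardinal Pool.Agent.Lib_helper23.SD

section
variable {X : Type} [Alg X]

private theorem FI_path {N : Type} [Alg N] {V : Set N} {e : N → X}
    (he : ∀ v ∈ V, ∀ b, Alg.s b v ∈ V → e (Alg.s b v) = Alg.s b (e v)) (w : List Bool) :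
    ∀ v : N, (∀ p, p <+: w → ev p v ∈ V) → e (ev w v) = ev w (e v) := by
  induction w with
  | nil => intro v _; rfl
  | cons b w ih =>
    intro v hp
    have h0 : v ∈ V := hp [] (by simp)
    have h1 : Alg.s b v ∈ V := hp [b] (by simp)
    show e (ev w (Alg.s b v)) = ev w (Alg.s b (e v))
    rw [← he v h0 b h1]
    refine ih (Alg.s b v) fun p hpw => ?_
    have := hp (b :: p) (by simpa using hpw)
    exact this

private theorem FI_inN {N : Type} [Alg N] {V : Set N} {e : N → X}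
    (he : ∀ v ∈ V, ∀ b, Alg.s b v ∈ V → e (Alg.s b v) = Alg.s b (e v)) {u u' : List Bool} {v : N}
    (hw : Wit V (Ix.co u u') v) (h : InN u u' v) : InN u u' (e v) := by
  obtain ⟨h1, h2⟩ := hw
  have h0 : v ∈ V := h1 [] (by simp)
  have hf : Alg.s false v ∈ V := h1 [false] (by simp)
  have ht : Alg.s true v ∈ V := h2 [true] (by simp)
  rcases h with h | h
  · left
    rw [← he v h0 false hf, ← he v h0 true ht, h]
  · right
    rw [← FI_path he _ v h1, ← FI_path he _ v h2, h]

theorem FI_main (hG : Good X) (hE : Ext X) {N : Type} [Alg N] (hN : Good N) {C : Set N}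
    (hC : Closed C) {h : N → X} (hh : IsEmb h C) (V : Finset N) (I : Finset Ix) (E : Finset X) :
    ∃ e : N → X, (∀ v ∈ V, v ∈ C → e v = h v) ∧ Set.InjOn e V ∧ (∀ v ∈ V, v ∉ C → e v ∉ E) ∧
      (∀ v ∈ V, ∀ b, Alg.s b v ∈ V → e (Alg.s b v) = Alg.s b (e v)) ∧
      ∀ i ∈ I, ∀ v ∈ V, ∀ v' ∈ V, Wit (V : Set N) i v → Wit (V : Set N) i v' → Cmp i v v' →
        (Alg.lt i (e v) (e v') ↔ Alg.lt i v v') := by
  classical
  obtain ⟨n, hn⟩ : ∃ n, (V.filter (fun v => v ∉ C)).card = n := ⟨_, rfl⟩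
  induction n generalizing V with
  | zero =>
    have hV : ∀ v ∈ V, v ∈ C := by
      intro v hv
      by_contra hvC
      have : v ∈ V.filter (fun v => v ∉ C) := Finset.mem_filter.2 ⟨hv, hvC⟩
      rw [Finset.card_eq_zero] at hn
      rw [hn] at this
      exact absurd this (Finset.notMem_empty _)
    refine ⟨h, fun _ _ _ => rfl, hh.inj.mono hV, fun v hv hvC => absurd (hV v hv) hvC,
      fun v hv b _ => hh.s b v (hV v hv), fun i _ v hv v' hv' _ _ _ =>
        hh.lt i v (hV v hv) v' (hV v' hv')⟩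
  | succ n ih =>
    -- choose a top element
    have hne : (V.filter (fun v => v ∉ C)).Nonempty := by
      rw [← Finset.card_pos, hn]
      exact Nat.succ_pos n
    obtain ⟨v₀, hv₀, hmax⟩ := Finset.exists_max_image (V.filter (fun v => v ∉ C))
      (fun v => (V.filter (fun z => ∃ w, w ≠ [] ∧ ev w v = z)).card) hne
    have hv₀V : v₀ ∈ V := (Finset.mem_filter.1 hv₀).1
    have hv₀C : v₀ ∉ C := (Finset.mem_filter.1 hv₀).2
    have happ : ∀ (p q : List Bool) (z : N), ev (p ++ q) z = ev q (ev p z) := fun p q z =>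
      ev_append p q z
    have htop : ∀ v ∈ V, ∀ w, w ≠ [] → ev w v ≠ v₀ := by
      intro v hv w hw hvw
      by_cases hvC : v ∈ C
      · exact hv₀C (hvw ▸ ev_mem hC hvC w)
      · have h1 := hmax v (Finset.mem_filter.2 ⟨hv, hvC⟩)
        have h2 : V.filter (fun z => ∃ w, w ≠ [] ∧ ev w v₀ = z) ⊂
            V.filter (fun z => ∃ w, w ≠ [] ∧ ev w v = z) := by
          rw [Finset.ssubset_iff_of_subset]
          · refine ⟨v₀, Finset.mem_filter.2 ⟨hv₀V, w, hw, hvw⟩, fun hm => ?_⟩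
            obtain ⟨-, w', hw', h'⟩ := Finset.mem_filter.1 hm
            exact hN.acyc w' v₀ hw' h'
          · intro z hz
            obtain ⟨hzV, w', hw', rfl⟩ := Finset.mem_filter.1 hz
            refine Finset.mem_filter.2 ⟨hzV, w ++ w', by simp [hw], ?_⟩
            rw [happ, hvw]
        exact absurd h1 (not_le.2 (Finset.card_lt_card h2))
    -- the induction hypothesis
    have hcard : ((V.erase v₀).filter (fun v => v ∉ C)).card = n := by
      rw [Finset.filter_erase, Finset.card_erase_of_mem hv₀, hn]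
      rfl
    obtain ⟨e', he1, he2, he3, he4, he5⟩ := ih (V.erase v₀) hcard
    have hmem : ∀ v, v ∈ V.erase v₀ ↔ v ≠ v₀ ∧ v ∈ V := fun v => Finset.mem_erase
    -- witnesses
    have hwit : ∀ i, ∀ v ∈ V, v ≠ v₀ → Wit (V : Set N) i v →
        Wit ((V.erase v₀ : Finset N) : Set N) i v := by
      intro i v hv hne' hw
      have hpre : ∀ p, ev p v ∈ V → ev p v ∈ V.erase v₀ := by
        intro p hp
        refine (hmem _).2 ⟨?_, hp⟩
        by_cases hp0 : p = []
        · subst hp0; exact hne'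
        · exact htop v hv p hp0
      cases i with
      | fib b => exact hpre [b] hw
      | co u u' => exact ⟨fun p hp => hpre p (hw.1 p hp), fun p hp => hpre p (hw.2 p hp)⟩
    have hs0 : ∀ v ∈ V, ∀ b, Alg.s b v ≠ v₀ := fun v hv b => htop v hv [b] (by simp)
    -- the children
    obtain ⟨a, ha⟩ : ∃ a : Bool → X, ∀ b, a b = e' (Alg.s b v₀) := ⟨fun b => e' (Alg.s b v₀),
      fun b => rfl⟩
    -- the cuts
    obtain ⟨Lo, hLo⟩ : ∃ Lo : Ix → Finset X, ∀ i c, c ∈ Lo i ↔ ∃ v ∈ V, Alg.lt i v v₀ ∧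
        Wit (V : Set N) i v ∧ Wit (V : Set N) i v₀ ∧ e' v = c :=
      ⟨fun i => (V.filter (fun v => Alg.lt i v v₀ ∧ Wit (V : Set N) i v ∧
        Wit (V : Set N) i v₀)).image e', fun i c => by
          simp only [Finset.mem_image, Finset.mem_filter]
          constructor
          · rintro ⟨v, ⟨hv, h1, h2, h3⟩, h4⟩
            exact ⟨v, hv, h1, h2, h3, h4⟩
          · rintro ⟨v, hv, h1, h2, h3, h4⟩
            exact ⟨v, ⟨hv, h1, h2, h3⟩, h4⟩⟩
    obtain ⟨Hi, hHi⟩ : ∃ Hi : Ix → Finset X, ∀ i c, c ∈ Hi i ↔ ∃ v ∈ V, Alg.lt i v₀ v ∧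
        Wit (V : Set N) i v ∧ Wit (V : Set N) i v₀ ∧ e' v = c :=
      ⟨fun i => (V.filter (fun v => Alg.lt i v₀ v ∧ Wit (V : Set N) i v ∧
        Wit (V : Set N) i v₀)).image e', fun i c => by
          simp only [Finset.mem_image, Finset.mem_filter]
          constructor
          · rintro ⟨v, ⟨hv, h1, h2, h3⟩, h4⟩
            exact ⟨v, hv, h1, h2, h3, h4⟩
          · rintro ⟨v, hv, h1, h2, h3, h4⟩
            exact ⟨v, ⟨hv, h1, h2, h3⟩, h4⟩⟩
    -- the class
    have hcls : ∀ i, ∀ v ∈ V, v ≠ v₀ → Cmp i v v₀ → Wit (V : Set N) i v → Wit (V : Set N) i v₀ →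
        InC i a (e' v) := by
      intro i v hv hne' hc hw hw₀
      have hw' := hwit i v hv hne' hw
      cases i with
      | fib b =>
        show Alg.s b (e' v) = a b
        have h1 : Alg.s b v ∈ V.erase v₀ := hw'
        rw [← he4 v ((hmem v).2 ⟨hne', hv⟩) b h1, ha]
        exact congrArg e' hc
      | co u u' =>
        refine ⟨?_, FI_inN (V := ((V.erase v₀ : Finset N) : Set N)) he4 hw' hc.1⟩
        have hpw : ∀ (b : Bool) (p w : List Bool), (∀ p, p <+: (b :: w) → ev p v₀ ∈ (V : Set N)) →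
            p <+: w → ev p (Alg.s b v₀) ∈ ((V.erase v₀ : Finset N) : Set N) := by
          intro b p w hall hp
          have h1 : ev (b :: p) v₀ ∈ V := hall (b :: p) (by simpa using hp)
          exact (hmem _).2 ⟨htop v₀ hv₀V (b :: p) (by simp), h1⟩
        rcases hc.2 with h' | h'
        · left
          rw [ha, ha, h']
        · right
          rw [ha, ha, ← FI_path (V := ((V.erase v₀ : Finset N) : Set N)) he4 u _
            (fun p hp => hpw false p u hw₀.1 hp),
            ← FI_path (V := ((V.erase v₀ : Finset N) : Set N)) he4 u' _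
            (fun p hp => hpw true p u' hw₀.2 hp)]
          exact congrArg e' h'
    have hirr : ∀ i, ∀ v, Alg.lt i v v₀ → v ≠ v₀ := by
      rintro i v hlt rfl
      exact hN.irr i v hlt
    have hirr' : ∀ i, ∀ v, Alg.lt i v₀ v → v ≠ v₀ := by
      rintro i v hlt rfl
      exact hN.irr i v hlt
    have hsymm : ∀ i (x y : N), Cmp i x y → Cmp i y x := fun i x y hc => cmp_symm hc
    obtain ⟨y, hy1, hy2, hy3⟩ := EX_main hG hE a I Lo Hi
      (by
        intro i _ c hc
        obtain ⟨v, hv, h1, h2, h3, rfl⟩ := (hLo i c).1 hc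
        exact hcls i v hv (hirr i v h1) (hN.cmp i v v₀ h1) h2 h3)
      (by
        intro i _ c hc
        obtain ⟨v, hv, h1, h2, h3, rfl⟩ := (hHi i c).1 hc
        exact hcls i v hv (hirr' i v h1) (hsymm i _ _ (hN.cmp i v₀ v h1)) h2 h3)
      (by
        intro i hi c hc d hd
        obtain ⟨v, hv, h1, h2, h3, rfl⟩ := (hLo i c).1 hc
        obtain ⟨v', hv', h1', h2', h3', rfl⟩ := (hHi i d).1 hd
        have hlt := hN.tr i v v₀ v' h1 h1'
        exact (he5 i hi v ((hmem v).2 ⟨hirr i v h1, hv⟩) v' ((hmem v').2 ⟨hirr' i v' h1', hv'⟩)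
          (hwit i v hv (hirr i v h1) h2) (hwit i v' hv' (hirr' i v' h1') h2')
          (hN.cmp i v v' hlt)).2 hlt)
      (E ∪ (V.erase v₀).image e')
    rw [Finset.mem_union, not_or] at hy2
    obtain ⟨e, hedef⟩ : ∃ e : N → X, e = Function.update e' v₀ y := ⟨_, rfl⟩
    have hev₀ : e v₀ = y := by rw [hedef]; exact Function.update_self _ _ _
    have hev : ∀ v, v ≠ v₀ → e v = e' v := fun v hv => by
      rw [hedef]; exact Function.update_of_ne hv _ _
    refine ⟨e, ?_, ?_, ?_, ?_, ?_⟩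
    · intro v hv hvC
      have hne' : v ≠ v₀ := by rintro rfl; exact hv₀C hvC
      rw [hev v hne']
      exact he1 v ((hmem v).2 ⟨hne', hv⟩) hvC
    · intro v hv v' hv' heq
      by_cases h1 : v = v₀ <;> by_cases h2 : v' = v₀
      · rw [h1, h2]
      · exfalso
        rw [h1, hev₀, hev v' h2] at heq
        exact hy2.2 (Finset.mem_image.2 ⟨v', (hmem v').2 ⟨h2, hv'⟩, heq.symm⟩)
      · exfalso
        rw [h2, hev₀, hev v h1] at heq
        exact hy2.2 (Finset.mem_image.2 ⟨v, (hmem v).2 ⟨h1, hv⟩, heq⟩)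
      · rw [hev v h1, hev v' h2] at heq
        exact he2 ((hmem v).2 ⟨h1, hv⟩) ((hmem v').2 ⟨h2, hv'⟩) heq
    · intro v hv hvC
      by_cases h1 : v = v₀
      · rw [h1, hev₀]; exact hy2.1
      · rw [hev v h1]
        exact he3 v ((hmem v).2 ⟨h1, hv⟩) hvC
    · intro v hv b hb
      rw [hev _ (hs0 v hv b)]
      by_cases h1 : v = v₀
      · rw [h1, hev₀, hy1, ha]
      · rw [hev v h1]
        exact he4 v ((hmem v).2 ⟨h1, hv⟩) b ((hmem _).2 ⟨hs0 v hv b, hb⟩)
    · intro i hi v hv v' hv' hw hw' hc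
      by_cases h1 : v = v₀ <;> by_cases h2 : v' = v₀
      · rw [h1, h2]
        exact ⟨fun hh' => absurd hh' (hG.irr i _), fun hh' => absurd hh' (hN.irr i _)⟩
      · subst h1
        rw [hev₀, hev v' h2]
        rcases hN.tot i v v' hc with h3 | h3 | h3
        · have h4 : Alg.lt i y (e' v') := (hy3 i hi).2 _ ((hHi i _).2 ⟨v', hv', h3, hw', hw, rfl⟩)
          exact ⟨fun _ => h3, fun _ => h4⟩
        · exact absurd h3.symm h2
        · have h4 : Alg.lt i (e' v') y := (hy3 i hi).1 _ ((hLo i _).2 ⟨v', hv', h3, hw', hw, rfl⟩)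
          exact ⟨fun h5 => absurd (hG.tr i _ _ _ h4 h5) (hG.irr i _),
            fun h5 => absurd (hN.tr i _ _ _ h3 h5) (hN.irr i _)⟩
      · subst h2
        rw [hev₀, hev v h1]
        rcases hN.tot i v v' hc with h3 | h3 | h3
        · have h4 : Alg.lt i (e' v) y := (hy3 i hi).1 _ ((hLo i _).2 ⟨v, hv, h3, hw, hw', rfl⟩)
          exact ⟨fun _ => h3, fun _ => h4⟩
        · exact absurd h3 h1
        · have h4 : Alg.lt i y (e' v) := (hy3 i hi).2 _ ((hHi i _).2 ⟨v, hv, h3, hw, hw', rfl⟩)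
          exact ⟨fun h5 => absurd (hG.tr i _ _ _ h4 h5) (hG.irr i _),
            fun h5 => absurd (hN.tr i _ _ _ h3 h5) (hN.irr i _)⟩
      · rw [hev v h1, hev v' h2]
        exact he5 i hi v ((hmem v).2 ⟨h1, hv⟩) v' ((hmem v').2 ⟨h2, hv'⟩)
          (hwit i v hv h1 hw) (hwit i v' hv' h2 hw') hc

end

end Pool.Agent.Lib_helper23.TF
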