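import Pool.Agent.Lib_helper23.TF.Defs
import Pool.Agent.Lib_helper23.TF.CB
import Pool.Agent.Lib_helper23.TF.FI
import Pool.Agent.Lib_helper23.TF.DE

/-!
# MP_bc6371_lc, block EM: embedding of abstract structures (helper41)
-/

set_option autoImplicit false

namespace Pool.Agent.Lib_helper23.TF

open Cardinal Pool.Agent.Lib_helper23.SD

section Fin
variable {U : Type} [Alg U] {N : Type} [Alg N]

/-- what is used of a finite embedding -/
private structure PE (C : Set N) (h : N → U) (V : Finset N) (I : Finset Ix) (E : Finset U)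
    (e : N → U) : Prop where
  hC : ∀ v ∈ V, v ∈ C → e v = h v
  inj : Set.InjOn e V
  av : ∀ v ∈ V, v ∉ C → e v ∉ E
  s : ∀ v ∈ V, ∀ b, Alg.s b v ∈ V → e (Alg.s b v) = Alg.s b (e v)
  lt : ∀ i ∈ I, ∀ v ∈ V, ∀ v' ∈ V, Wit (V : Set N) i v → Wit (V : Set N) i v' → Cmp i v v' →
        (Alg.lt i (e v) (e v') ↔ Alg.lt i v v')

private theorem PE.path {C : Set N} {h : N → U} {V : Finset N} {I : Finset Ix} {E : Finset U}
    {e : N → U} (H : PE C h V I E e) (w : List Bool) :
    ∀ z : N, (∀ p, p <+: w → ev p z ∈ V) → e (ev w z) = ev w (e z) := by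
  induction w with
  | nil => intro z _; rfl
  | cons b w ih =>
    intro z hz
    have h0 : z ∈ V := hz [] (List.nil_prefix)
    have h1 : Alg.s b z ∈ V := hz [b] (by simp)
    have h2 := ih (Alg.s b z) (fun p hp => hz (b :: p) (by simpa using hp))
    calc e (ev (b :: w) z) = e (ev w (Alg.s b z)) := rfl
      _ = ev w (e (Alg.s b z)) := h2
      _ = ev w (Alg.s b (e z)) := by rw [H.s z h0 b h1]
      _ = ev (b :: w) (e z) := rfl

private theorem PE.inN {C : Set N} {h : N → U} {V : Finset N} {I : Finset Ix} {E : Finset U}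
    {e : N → U} (H : PE C h V I E e) {u u' : List Bool} {v : N} (hv : v ∈ V)
    (hw : Wit (V : Set N) (.co u u') v) : InN u u' (e v) ↔ InN u u' v := by
  obtain ⟨h1, h2⟩ := hw
  have ha : Alg.s false v ∈ V := h1 [false] (by simp)
  have hb : Alg.s true v ∈ V := h2 [true] (by simp)
  have e1 : ev (false :: u) (e v) = e (ev (false :: u) v) := (H.path _ v h1).symm
  have e2 : ev (true :: u') (e v) = e (ev (true :: u') v) := (H.path _ v h2).symm
  unfold InN
  rw [← H.s v hv false ha, ← H.s v hv true hb, e1, e2]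
  constructor
  · rintro (h3 | h3)
    · exact Or.inl (H.inj ha hb h3)
    · exact Or.inr (H.inj (h1 _ List.prefix_rfl) (h2 _ List.prefix_rfl) h3)
  · rintro (h3 | h3)
    · exact Or.inl (by rw [h3])
    · exact Or.inr (by rw [h3])

private theorem PE.cmp {C : Set N} {h : N → U} {V : Finset N} {I : Finset Ix} {E : Finset U}
    {e : N → U} (H : PE C h V I E e) {i : Ix} {v v' : N} (hv : v ∈ V) (hv' : v' ∈ V)
    (hw : Wit (V : Set N) i v) (hw' : Wit (V : Set N) i v') :
    Cmp i (e v) (e v') ↔ Cmp i v v' := by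
  cases i with
  | fib b =>
    have ha : Alg.s b v ∈ V := hw
    have hb : Alg.s b v' ∈ V := hw'
    show Alg.s b (e v) = Alg.s b (e v') ↔ Alg.s b v = Alg.s b v'
    rw [← H.s v hv b ha, ← H.s v' hv' b hb]
    exact ⟨fun h3 => H.inj ha hb h3, fun h3 => by rw [h3]⟩
  | co u u' =>
    show (InN u u' (e v) ∧ InN u u' (e v')) ↔ (InN u u' v ∧ InN u u' v')
    rw [H.inN hv hw, H.inN hv' hw']

private theorem PE.ltt (hG : Good U) (hN : Good N) {C : Set N} {h : N → U} {V : Finset N}
    {I : Finset Ix} {E : Finset U}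
    {e : N → U} (H : PE C h V I E e) {i : Ix} (hi : i ∈ I) {v v' : N} (hv : v ∈ V) (hv' : v' ∈ V)
    (hw : Wit (V : Set N) i v) (hw' : Wit (V : Set N) i v') :
    Alg.lt i (e v) (e v') ↔ Alg.lt i v v' := by
  by_cases hc : Cmp i v v'
  · exact H.lt i hi v hv v' hv' hw hw' hc
  · constructor
    · intro h3
      exact absurd ((H.cmp hv hv' hw hw').1 (hG.cmp _ _ _ h3)) hc
    · intro h3
      exact absurd (hN.cmp _ _ _ h3) hc

open Classical in
/-- the path from `z` along `w` -/
private noncomputable def pth (z : N) (w : List Bool) : Finset N :=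
  (w.inits.map (fun p => ev p z)).toFinset

private theorem mem_pth {z : N} {w p : List Bool} (hp : p <+: w) : ev p z ∈ pth z w := by
  classical
  unfold pth
  rw [List.mem_toFinset, List.mem_map]
  exact ⟨p, (List.mem_inits _ _).2 hp, rfl⟩

open Classical in
/-- the paths needed for the index `i` -/
private noncomputable def ipth : Ix → N → Finset N
  | .fib b, v => {Alg.s b v}
  | .co u u', v => pth v (false :: u) ∪ pth v (true :: u')

private theorem wit_ipth {V : Finset N} {i : Ix} {v : N} (h : ipth i v ⊆ V) :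
    Wit (V : Set N) i v := by
  classical
  cases i with
  | fib b => exact h (by simp [ipth])
  | co u u' =>
    exact ⟨fun p hp => h (Finset.mem_union_left _ (mem_pth hp)),
      fun p hp => h (Finset.mem_union_right _ (mem_pth hp))⟩

end Fin

section
variable {U : Type} [Lg.Structure U] {κ : Cardinal.{0}}

/-- the conditions -/
private inductive Cnd {N : Type} (C : Set N) (E : Set U) (α : Type) : Type
  | eqc (t : α × List Bool) (c : C) : Cnd C E α
  | nee (t : α × List Bool) (e : E) : Cnd C E α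
  | eq (t t' : α × List Bool) : Cnd C E α
  | lt (i : Ix) (t t' : α × List Bool) : Cnd C E α
  | ltc (i : Ix) (t : α × List Bool) (c : C) : Cnd C E α
  | clt (i : Ix) (c : C) (t : α × List Bool) : Cnd C E α

/-- the sets -/
private def cset {N : Type} [Alg N] {C : Set N} {E : Set U} {α : Type} (h : N → U) (x : α → N) :
    Cnd C E α → Set (α → U)
  | .eqc t c => {y | val y t = h c ↔ val x t = c}
  | .nee t e => {y | val y t = e → val x t ∈ C}
  | .eq t t' => {y | val y t = val y t' ↔ val x t = val x t'}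
  | .lt i t t' => {y | Alg.lt i (val y t) (val y t') ↔ Alg.lt i (val x t) (val x t')}
  | .ltc i t c => {y | Alg.lt i (val y t) (h c) ↔ Alg.lt i (val x t) c}
  | .clt i c t => {y | Alg.lt i (h c) (val y t) ↔ Alg.lt i (c : N) (val x t)}

private theorem def_iff {A : Set U} {α : Type} (Q : (α → U) → Prop) (P : Prop)
    (hQ : A.Definable Lg {y : α → U | Q y}) : A.Definable Lg {y : α → U | Q y ↔ P} := by
  by_cases hP : P
  · simpa [hP] using hQ
  · have : {y : α → U | Q y ↔ P} = {y : α → U | Q y}ᶜ := by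
      ext y; simp [hP]
    rw [this]; exact hQ.compl

private theorem cset_def {N : Type} [Alg N] {C : Set N} {E : Set U} {α : Type} (h : N → U)
    (x : α → N) (c : Cnd C E α) : (h '' C ∪ E : Set U).Definable Lg (cset h x c) := by
  cases c with
  | eqc t c =>
    exact def_iff (A := (h '' C ∪ E : Set U)) (fun y : α → U => val y t = h c) (val x t = c)
      (DE_eqc (A := (h '' C ∪ E : Set U)) (c := h c) (Or.inl ⟨c, c.2, rfl⟩) t)
  | nee t e =>
    by_cases hP : val x t ∈ C
    · have : cset h x (Cnd.nee t e : Cnd C E α) = Set.univ := by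
        ext y; simp [cset, hP]
      rw [this]; exact Set.definable_univ
    · have : cset h x (Cnd.nee t e : Cnd C E α) = {y : α → U | val y t = e}ᶜ := by
        ext y; simp [cset, hP]
      have h2 : (h '' C ∪ E : Set U).Definable Lg {y : α → U | val y t = (e : U)} :=
        DE_eqc (A := (h '' C ∪ E : Set U)) (c := (e : U)) (Or.inr e.2) t
      rw [this]; exact h2.compl
  | eq t t' =>
    exact def_iff (A := (h '' C ∪ E : Set U)) (fun y : α → U => val y t = val y t')
      (val x t = val x t') (DE_eq _ t t')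
  | lt i t t' =>
    exact def_iff (A := (h '' C ∪ E : Set U)) (fun y : α → U => Alg.lt i (val y t) (val y t'))
      (Alg.lt i (val x t) (val x t')) (DE_lt _ i t t')
  | ltc i t c =>
    exact def_iff (A := (h '' C ∪ E : Set U)) (fun y : α → U => Alg.lt i (val y t) (h c))
      (Alg.lt i (val x t) c) (DE_ltc (A := (h '' C ∪ E : Set U)) (c := h c) (Or.inl ⟨c, c.2, rfl⟩) i t)
  | clt i c t =>
    exact def_iff (A := (h '' C ∪ E : Set U)) (fun y : α → U => Alg.lt i (h c) (val y t))
      (Alg.lt i (c : N) (val x t)) (DE_clt (A := (h '' C ∪ E : Set U)) (c := h c) (Or.inl ⟨c, c.2, rfl⟩) i t)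

open Classical in
/-- the finite data needed for one condition -/
private noncomputable def cV {N : Type} [Alg N] {C : Set N} {E : Set U} {α : Type} (x : α → N) :
    Cnd C E α → Finset N
  | .eqc t c => pth (x t.1) t.2 ∪ {(c : N)}
  | .nee t _ => pth (x t.1) t.2
  | .eq t t' => pth (x t.1) t.2 ∪ pth (x t'.1) t'.2
  | .lt i t t' => (pth (x t.1) t.2 ∪ pth (x t'.1) t'.2) ∪ (ipth i (val x t) ∪ ipth i (val x t'))
  | .ltc i t c => (pth (x t.1) t.2 ∪ {(c : N)}) ∪ (ipth i (val x t) ∪ ipth i (c : N))
  | .clt i c t => (pth (x t.1) t.2 ∪ {(c : N)}) ∪ (ipth i (val x t) ∪ ipth i (c : N))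

private def cI {N : Type} {C : Set N} {E : Set U} {α : Type} : Cnd C E α → Finset Ix
  | .eqc _ _ => ∅
  | .nee _ _ => ∅
  | .eq _ _ => ∅
  | .lt i _ _ => {i}
  | .ltc i _ _ => {i}
  | .clt i _ _ => {i}

private def cE {N : Type} {C : Set N} {E : Set U} {α : Type} : Cnd C E α → Finset U
  | .nee _ e => {(e : U)}
  | _ => ∅

private theorem one (hG : Good U) {N : Type} [Alg N] (hN : Good N) {C : Set N} {h : N → U}
    {α : Type} (x : α → N) {E : Set U} {V : Finset N} {I : Finset Ix} {E' : Finset U} {e : N → U}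
    (H : PE C h V I E' e) (c : Cnd C E α) (hV : cV x c ⊆ V) (hI : cI c ⊆ I) (hE' : cE c ⊆ E') :
    (fun j => e (x j)) ∈ cset h x c := by
  classical
  have key : ∀ t : α × List Bool, pth (x t.1) t.2 ⊆ V →
      val (fun j => e (x j)) t = e (val x t) ∧ val x t ∈ V := by
    intro t ht
    have h1 : ∀ p, p <+: t.2 → ev p (x t.1) ∈ V := fun p hp => ht (mem_pth hp)
    exact ⟨(H.path t.2 (x t.1) h1).symm, h1 _ List.prefix_rfl⟩
  cases c with
  | eqc t c =>
    obtain ⟨k1, k2⟩ := key t (fun z hz => hV (Finset.mem_union_left _ hz))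
    have hc : (c : N) ∈ V := hV (Finset.mem_union_right _ (by simp))
    show val (fun j => e (x j)) t = h c ↔ val x t = c
    rw [k1, ← H.hC c hc c.2]
    exact ⟨fun h3 => H.inj k2 hc h3, fun h3 => by rw [h3]⟩
  | nee t e0 =>
    obtain ⟨k1, k2⟩ := key t hV
    show val (fun j => e (x j)) t = e0 → val x t ∈ C
    intro h3
    by_contra h4
    rw [k1] at h3
    exact H.av _ k2 h4 (by rw [h3]; exact hE' (by simp [cE]))
  | eq t t' =>
    obtain ⟨k1, k2⟩ := key t (fun z hz => hV (Finset.mem_union_left _ hz))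
    obtain ⟨k1', k2'⟩ := key t' (fun z hz => hV (Finset.mem_union_right _ hz))
    show val (fun j => e (x j)) t = val (fun j => e (x j)) t' ↔ val x t = val x t'
    rw [k1, k1']
    exact ⟨fun h3 => H.inj k2 k2' h3, fun h3 => by rw [h3]⟩
  | lt i t t' =>
    obtain ⟨k1, k2⟩ := key t (fun z hz => hV (Finset.mem_union_left _ (Finset.mem_union_left _ hz)))
    obtain ⟨k1', k2'⟩ := key t' (fun z hz => hV (Finset.mem_union_left _
      (Finset.mem_union_right _ hz)))
    show Alg.lt i (val (fun j => e (x j)) t) (val (fun j => e (x j)) t') ↔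
      Alg.lt i (val x t) (val x t')
    rw [k1, k1']
    exact H.ltt hG hN (hI (by simp [cI])) k2 k2'
      (wit_ipth fun z hz => hV (Finset.mem_union_right _ (Finset.mem_union_left _ hz)))
      (wit_ipth fun z hz => hV (Finset.mem_union_right _ (Finset.mem_union_right _ hz)))
  | ltc i t c =>
    obtain ⟨k1, k2⟩ := key t (fun z hz => hV (Finset.mem_union_left _ (Finset.mem_union_left _ hz)))
    have hc : (c : N) ∈ V := hV (Finset.mem_union_left _ (Finset.mem_union_right _ (by simp)))
    show Alg.lt i (val (fun j => e (x j)) t) (h c) ↔ Alg.lt i (val x t) c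
    rw [k1, ← H.hC c hc c.2]
    exact H.ltt hG hN (hI (by simp [cI])) k2 hc
      (wit_ipth fun z hz => hV (Finset.mem_union_right _ (Finset.mem_union_left _ hz)))
      (wit_ipth fun z hz => hV (Finset.mem_union_right _ (Finset.mem_union_right _ hz)))
  | clt i c t =>
    obtain ⟨k1, k2⟩ := key t (fun z hz => hV (Finset.mem_union_left _ (Finset.mem_union_left _ hz)))
    have hc : (c : N) ∈ V := hV (Finset.mem_union_left _ (Finset.mem_union_right _ (by simp)))
    show Alg.lt i (h c) (val (fun j => e (x j)) t) ↔ Alg.lt i (c : N) (val x t)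
    rw [k1, ← H.hC c hc c.2]
    exact H.ltt hG hN (hI (by simp [cI])) hc k2
      (wit_ipth fun z hz => hV (Finset.mem_union_right _ (Finset.mem_union_right _ hz)))
      (wit_ipth fun z hz => hV (Finset.mem_union_right _ (Finset.mem_union_left _ hz)))

/-- Saturation in the variables `α`: the family of all conditions `val y t = h c`, `val y t ≠ h c`,
`val y t = val y t'`, `val y t ≠ val y t'`, `val y t ≠ e` (`e ∈ E ∪ h '' C`, `val x t ∉ C`), `lt` and not `lt`
between `val y t`, `val y t'`, `h c`, which hold for `x`, over the small set `h '' C ∪ E`. Finitely many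
conditions: `FI_main` with `V` = all iterated images of length at most `n` of the `x j` and of the
elements of `C` which occur, `I` the indices which occur, `n` large. -/
theorem EM_main (hκ : ℵ₀ < κ) (hs : Saturated Lg κ U) (hG : Good U) (hE : Ext U) {N : Type} [Alg N]
    (hN : Good N) {C : Set N} (hC : Closed C) (hCκ : #C < κ) {h : N → U} (hh : IsEmb h C)
    {α : Type} [Finite α] (x : α → N) {E : Set U} (hEκ : #E < κ) :
    ∃ g : N → U, (∀ c ∈ C, g c = h c) ∧ IsEmb g (C ∪ cl (Set.range x)) ∧
      ∀ z ∈ cl (Set.range x), z ∉ C → g z ∉ E := by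
  classical
  have hsm : #(h '' C ∪ E : Set U) < κ :=
    SM_union hκ (lt_of_le_of_lt Cardinal.mk_image_le hCκ) hEκ
  obtain ⟨y, hy⟩ := hs (h '' C ∪ E) hsm α (Set.range (cset h x : Cnd C E α → Set (α → U)))
    (by rintro _ ⟨c, rfl⟩; exact cset_def h x c) (by
      intro 𝓖 h𝓖 hfin
      have hch : ∀ D : 𝓖, ∃ c : Cnd C E α, cset h x c = D := fun D => h𝓖 D.2
      choose f hf using hch
      have : Finite 𝓖 := hfin.to_subtype
      have : Fintype 𝓖 := Fintype.ofFinite 𝓖
      let J : Finset 𝓖 := Finset.univ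
      let V : Finset N := J.biUnion fun D => cV x (f D)
      let I : Finset Ix := J.biUnion fun D => cI (f D)
      let E' : Finset U := J.biUnion fun D => cE (f D)
      obtain ⟨e, e1, e2, e3, e4, e5⟩ := FI_main hG hE hN hC hh V I E'
      have H : PE C h V I E' e := ⟨e1, e2, e3, e4, e5⟩
      refine ⟨fun j => e (x j), ?_⟩
      rw [Set.mem_sInter]
      intro D hD
      have h1 := one (E := E) hG hN x H (f ⟨D, hD⟩)
        (fun z hz => Finset.mem_biUnion.2 ⟨⟨D, hD⟩, Finset.mem_univ _, hz⟩)
        (fun z hz => Finset.mem_biUnion.2 ⟨⟨D, hD⟩, Finset.mem_univ _, hz⟩)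
        (fun z hz => Finset.mem_biUnion.2 ⟨⟨D, hD⟩, Finset.mem_univ _, hz⟩)
      rw [hf ⟨D, hD⟩] at h1
      exact h1)
  have hy' : ∀ c : Cnd C E α, y ∈ cset h x c := fun c => hy _ ⟨c, rfl⟩
  have y1 : ∀ (t : α × List Bool) (c : C), val y t = h c ↔ val x t = c := fun t c => hy' (.eqc t c)
  have y2 : ∀ (t : α × List Bool) (e : E), val y t = e → val x t ∈ C := fun t e => hy' (.nee t e)
  have y3 : ∀ t t' : α × List Bool, val y t = val y t' ↔ val x t = val x t' :=
    fun t t' => hy' (.eq t t')
  have y4 : ∀ (i : Ix) (t t' : α × List Bool), Alg.lt i (val y t) (val y t') ↔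
      Alg.lt i (val x t) (val x t') := fun i t t' => hy' (.lt i t t')
  have y5 : ∀ (i : Ix) (t : α × List Bool) (c : C), Alg.lt i (val y t) (h c) ↔
      Alg.lt i (val x t) c := fun i t c => hy' (.ltc i t c)
  have y6 : ∀ (i : Ix) (c : C) (t : α × List Bool), Alg.lt i (h c) (val y t) ↔
      Alg.lt i (c : N) (val x t) := fun i c t => hy' (.clt i c t)
  let g : N → U := fun z => if z ∈ C then h z else
    if ht : ∃ t : α × List Bool, val x t = z then val y ht.choose else h z
  have gC : ∀ c ∈ C, g c = h c := fun c hc => if_pos hc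
  have gx : ∀ t : α × List Bool, g (val x t) = val y t := by
    intro t
    by_cases hc : val x t ∈ C
    · rw [gC _ hc]
      exact ((y1 t ⟨_, hc⟩).2 rfl).symm
    · have ht : ∃ t' : α × List Bool, val x t' = val x t := ⟨t, rfl⟩
      have : g (val x t) = val y ht.choose := by
        show (if val x t ∈ C then h (val x t) else
          if ht : ∃ t' : α × List Bool, val x t' = val x t then val y ht.choose else
            h (val x t)) = _
        rw [if_neg hc, dif_pos ht]
      rw [this]
      exact (y3 _ _).2 ht.choose_spec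
  have hcl : ∀ z ∈ cl (Set.range x), ∃ t : α × List Bool, z = val x t := fun z hz =>
    mem_cl_range.1 hz
  refine ⟨g, gC, ⟨?_, ?_, ?_⟩, ?_⟩
  · rintro z (hz | hz) z' (hz' | hz') he
    · rw [gC z hz, gC z' hz'] at he
      exact hh.inj hz hz' he
    · obtain ⟨t, rfl⟩ := hcl z' hz'
      rw [gC z hz, gx] at he
      exact ((y1 t ⟨z, hz⟩).1 he.symm).symm
    · obtain ⟨t, rfl⟩ := hcl z hz
      rw [gC z' hz', gx] at he
      exact (y1 t ⟨z', hz'⟩).1 he
    · obtain ⟨t, rfl⟩ := hcl z hz
      obtain ⟨t', rfl⟩ := hcl z' hz'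
      rw [gx, gx] at he
      exact (y3 t t').1 he
  · rintro b z (hz | hz)
    · rw [gC _ (hC b z hz), gC z hz]
      exact hh.s b z hz
    · obtain ⟨t, rfl⟩ := hcl z hz
      have h1 : ∀ {X : Type} [Alg X] (q : α → X), Alg.s b (val q t) = val q (t.1, t.2 ++ [b]) := by
        intro X _ q
        show Alg.s b (ev t.2 (q t.1)) = ev (t.2 ++ [b]) (q t.1)
        rw [ev_append]
        rfl
      rw [h1 x, gx, gx, h1 y]
  · rintro i z (hz | hz) z' (hz' | hz')
    · rw [gC z hz, gC z' hz']
      exact hh.lt i z hz z' hz'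
    · obtain ⟨t, rfl⟩ := hcl z' hz'
      rw [gC z hz, gx]
      exact y6 i ⟨z, hz⟩ t
    · obtain ⟨t, rfl⟩ := hcl z hz
      rw [gC z' hz', gx]
      exact y5 i t ⟨z', hz'⟩
    · obtain ⟨t, rfl⟩ := hcl z hz
      obtain ⟨t', rfl⟩ := hcl z' hz'
      rw [gx, gx]
      exact y4 i t t'
  · intro z hz hzC hzE
    obtain ⟨t, rfl⟩ := hcl z hz
    rw [gx] at hzE
    exact hzC (y2 t ⟨_, hzE⟩ rfl)

end

end Pool.Agent.Lib_helper23.TF
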