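import Pool.Agent.Lib_helper23.TF.Defs
import Pool.Agent.Lib_helper23.TF.CB
import Pool.Agent.Lib_helper23.TF.EM

/-!
# MP_bc6371_lc, block FX: free elements exist
-/

set_option autoImplicit false

namespace Pool.Agent.Lib_helper23.TF

open Cardinal Pool.Agent.Lib_helper23.SD Pool.Agent.Lib_helper23.TF

section
variable {U : Type} [Lg.Structure U] {κ : Cardinal.{0}}

/-- the sum of `U` and the free structure on one generator -/
private def NN (U : Type) : Type := U ⊕ List Bool

private instance algNN : Alg (NN U) where
  s b := Sum.elim (fun x => Sum.inl (Alg.s b x)) (fun w => Sum.inr (w ++ [b]))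
  lt i x y := match x, y with
    | Sum.inl x, Sum.inl y => Alg.lt i x y
    | _, _ => False

private def il (x : U) : NN U := Sum.inl x
private def ir (w : List Bool) : NN U := Sum.inr w

private theorem ev_il (w : List Bool) (x : U) : ev w (il x) = il (ev w x) := by
  induction w generalizing x with
  | nil => rfl
  | cons b w ih => exact ih (Alg.s b x)

private theorem ev_ir (w v : List Bool) : ev w (ir v : NN U) = ir (v ++ w) := by
  induction w generalizing v with
  | nil => rw [List.append_nil]; rfl
  | cons b w ih =>
    have := ih (v ++ [b])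
    rw [List.append_assoc] at this
    exact this

private theorem il_inj {x y : U} (h : il x = il y) : x = y := Sum.inl_injective h
private theorem ir_inj {x y : List Bool} (h : (ir x : NN U) = ir y) : x = y := Sum.inr_injective h
private theorem il_ne_ir {x : U} {w : List Bool} (h : il x = ir w) : False := by
  unfold il ir at h
  cases h

private theorem inN_il (u v : List Bool) (x : U) : InN u v (il x) ↔ InN u v x := by
  unfold InN
  rw [ev_il, ev_il]
  exact or_congr ⟨fun h => il_inj h, fun h => congrArg il h⟩
    ⟨fun h => il_inj h, fun h => congrArg il h⟩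

private theorem inN_ir (u v w : List Bool) : ¬ InN u v (ir w : NN U) := by
  rintro (h | h)
  · have h1 := ir_inj (U := U) (x := w ++ [false]) (y := w ++ [true]) h
    have h2 := List.append_cancel_left h1
    simp at h2
  · rw [ev_ir, ev_ir] at h
    have h2 := List.append_cancel_left (ir_inj h)
    simp at h2

private theorem goodNN (hG : Good U) : Good (NN U) := by
  refine ⟨?_, ?_, ?_, ?_, ?_⟩
  · rintro w (x | v) hw h
    · change ev w (il x) = il x at h
      rw [ev_il] at h
      exact hG.acyc w x hw (il_inj h)
    · change ev w (ir v : NN U) = ir v at h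
      rw [ev_ir] at h
      have h1 := ir_inj h
      have h2 := congrArg List.length h1
      rw [List.length_append] at h2
      exact hw (List.eq_nil_of_length_eq_zero (by omega))
  · rintro i (x | v) (y | v') h
    · have h' : Alg.lt i x y := h
      have h1 := hG.cmp i x y h'
      cases i with
      | fib b => exact congrArg il h1
      | co u v => exact ⟨(inN_il u v x).2 h1.1, (inN_il u v y).2 h1.2⟩
    · exact h.elim
    · exact h.elim
    · exact h.elim
  · rintro i (x | v) h
    · exact hG.irr i x h
    · exact h
  · rintro i (x | v) (y | v') (z | v'') h h'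
    · exact hG.tr i x y z h h'
    all_goals first | exact h.elim | exact h'.elim
  · rintro i (x | v) (y | v') h
    · have h1 : Cmp i x y := by
        cases i with
        | fib b => exact il_inj h
        | co u v => exact ⟨(inN_il u v x).1 h.1, (inN_il u v y).1 h.2⟩
      rcases hG.tot i x y h1 with h2 | h2 | h2
      · exact Or.inl h2
      · exact Or.inr (Or.inl (congrArg il h2))
      · exact Or.inr (Or.inr h2)
    · cases i with
      | fib b => exact (il_ne_ir h).elim
      | co u v => exact (inN_ir u v v' h.2).elim
    · cases i with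
      | fib b => exact (il_ne_ir h.symm).elim
      | co u v' => exact (inN_ir u v' v h.1).elim
    · cases i with
      | fib b =>
        have h1 := ir_inj (U := U) (x := v ++ [b]) (y := v' ++ [b]) h
        exact Or.inr (Or.inl (congrArg ir (List.append_cancel_right h1)))
      | co u v'' => exact (inN_ir u v'' v h.1).elim

theorem FX_main [Nonempty U] (hκ : ℵ₀ < κ) (hs : Saturated Lg κ U) (hG : Good U) (hE : Ext U)
    {A : Set U} (hA : Closed A) (hAκ : #A < κ) : ∃ x : U, Free A x := by
  classical
  let h : NN U → U := Sum.elim id (fun _ => Classical.arbitrary U)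
  have hil : ∀ x, h (il x) = x := fun x => rfl
  have hC : Closed (il '' A : Set (NN U)) := by
    rintro b _ ⟨x, hx, rfl⟩
    exact ⟨Alg.s b x, hA b x hx, rfl⟩
  have hCκ : #(il '' A : Set (NN U)) < κ := lt_of_le_of_lt mk_image_le hAκ
  have hh : IsEmb h (il '' A : Set (NN U)) := by
    refine ⟨?_, ?_, ?_⟩
    · rintro _ ⟨x, -, rfl⟩ _ ⟨y, -, rfl⟩ hxy
      exact congrArg il hxy
    · rintro b _ ⟨x, -, rfl⟩
      rfl
    · rintro i _ ⟨x, -, rfl⟩ _ ⟨y, -, rfl⟩
      exact Iff.rfl
  obtain ⟨g, hg1, hg2, hg3⟩ := EM_main hκ hs hG hE (goodNN hG) hC hCκ hh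
    (fun _ : Unit => (ir [] : NN U)) (E := A) hAκ
  have hcl : Closed (il '' A ∪ cl (Set.range (fun _ : Unit => (ir [] : NN U)))) :=
    closed_union hC (closed_cl _)
  have hmem : (ir [] : NN U) ∈ il '' A ∪ cl (Set.range (fun _ : Unit => (ir [] : NN U))) :=
    Or.inr (subset_cl _ ⟨(), rfl⟩)
  have hev : ∀ w, ev w (g (ir [])) = g (ir w) := by
    intro w
    rw [← emb_ev hg2 hcl hmem w, ev_ir]
    rfl
  have hw : ∀ w, (ir w : NN U) ∈ cl (Set.range (fun _ : Unit => (ir [] : NN U))) := fun w =>
    ⟨ir [], ⟨(), rfl⟩, w, by rw [ev_ir]; rfl⟩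
  refine ⟨g (ir []), ?_, ?_⟩
  · intro w w' hww
    have h1 : ev w (g (ir [])) = ev w' (g (ir [])) := hww
    rw [hev, hev] at h1
    exact ir_inj (hg2.inj (Or.inr (hw w)) (Or.inr (hw w')) h1)
  · intro w
    rw [hev]
    refine hg3 _ (hw w) ?_
    rintro ⟨x, -, hx⟩
    exact il_ne_ir hx

end

end Pool.Agent.Lib_helper23.TF
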