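import Pool.Agent.Lib_helper23.TF.Defs
import Pool.Agent.Lib_helper23.TF.CB
import Pool.Agent.Lib_helper23.TF.EM

/-!
# MP_bc6371_lc, project TF, block QE: quantifier elimination by back-and-forth
-/

set_option autoImplicit false

namespace Pool.Agent.Lib_helper23.TF

open Cardinal Pool.Agent.Lib_helper23.SD Pool.Agent.Lib_helper23.TF FirstOrder

section
variable {U : Type} [Lg.Structure U] {κ : Cardinal.{0}}

/-- terms: values stay in the closed set and commute with the embedding -/
private theorem term_real {S : Set U} (hS : Closed S) {g : U → U} (hg : IsEmb g S) {γ : Type}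
    (v : γ → U) (hv : ∀ c, v c ∈ S) (t : Lg.Term γ) :
    t.realize v ∈ S ∧ g (t.realize v) = t.realize (g ∘ v) := by
  induction t with
  | var c => exact ⟨hv c, rfl⟩
  | @func l f ts ih =>
    cases f with
    | s b =>
      have e1 : (Language.Term.func (L := Lg) (Fn.s b) ts).realize v =
          Alg.s b ((ts 0).realize v) := by
        have : (fun i => (ts i).realize v) = ![(ts 0).realize v] := by
          funext i
          rw [Subsingleton.elim i 0]
          rfl
        show Language.Structure.funMap (L := Lg) (n := 1) (Fn.s b) (fun i => (ts i).realize v) = _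
        rw [this]
        rfl
      have e2 : (Language.Term.func (L := Lg) (Fn.s b) ts).realize (g ∘ v) =
          Alg.s b ((ts 0).realize (g ∘ v)) := by
        have : (fun i => (ts i).realize (g ∘ v)) = ![(ts 0).realize (g ∘ v)] := by
          funext i
          rw [Subsingleton.elim i 0]
          rfl
        show Language.Structure.funMap (L := Lg) (n := 1) (Fn.s b)
          (fun i => (ts i).realize (g ∘ v)) = _
        rw [this]
        rfl
      obtain ⟨h1, h2⟩ := ih 0
      refine ⟨?_, ?_⟩
      · erw [e1]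
        exact hS b _ h1
      · erw [e1, e2, hg.s b _ h1, h2]

private theorem card_step (hκ : ℵ₀ < κ) {S : Set U} (hSκ : #S < κ) {γ : Type} [Finite γ]
    (x : γ → U) : #(S ∪ cl (Set.range x) : Set U) < κ := by
  have h1 : #(Set.range x) < κ := by
    refine lt_of_le_of_lt ?_ hκ
    exact (Set.finite_range x).lt_aleph0.le
  have h2 := card_cl hκ h1
  exact SM_union hκ hSκ h2

private theorem bf (hκ : ℵ₀ < κ) (hs : Saturated Lg κ U) (hG : Good U) (hE : Ext U)
    {γ : Type} {n : ℕ} (φ : Lg.BoundedFormula γ n) :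
    ∀ (S : Set U) (g : U → U) (v : γ → U) (xs : Fin n → U), Closed S → #S < κ → IsEmb g S →
      (∀ c, v c ∈ S) → (∀ j, xs j ∈ S) →
      (φ.Realize v xs ↔ φ.Realize (g ∘ v) (g ∘ xs)) := by
  induction φ with
  | falsum => intro S g v xs _ _ _ _ _; exact Iff.rfl
  | @equal m t₁ t₂ =>
    intro S g v xs hS hSκ hg hv hxs
    have hw : ∀ c, Sum.elim v xs c ∈ S := by
      rintro (c | j)
      · exact hv c
      · exact hxs j
    have hc : g ∘ Sum.elim v xs = Sum.elim (g ∘ v) (g ∘ xs) := Sum.comp_elim _ _ _
    obtain ⟨a1, b1⟩ := term_real hS hg (Sum.elim v xs) hw t₁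
    obtain ⟨a2, b2⟩ := term_real hS hg (Sum.elim v xs) hw t₂
    rw [hc] at b1 b2
    show t₁.realize (Sum.elim v xs) = t₂.realize (Sum.elim v xs) ↔
      t₁.realize (Sum.elim (g ∘ v) (g ∘ xs)) = t₂.realize (Sum.elim (g ∘ v) (g ∘ xs))
    rw [← b1, ← b2]
    exact ⟨fun h => by rw [h], fun h => hg.inj a1 a2 h⟩
  | @rel m l R ts =>
    intro S g v xs hS hSκ hg hv hxs
    have hw : ∀ c, Sum.elim v xs c ∈ S := by
      rintro (c | j)
      · exact hv c
      · exact hxs j
    have hc : g ∘ Sum.elim v xs = Sum.elim (g ∘ v) (g ∘ xs) := Sum.comp_elim _ _ _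
    cases R with
    | lt i =>
      have e : ∀ w : γ ⊕ Fin m → U, (fun i => (ts i).realize w) =
          ![(ts 0).realize w, (ts 1).realize w] := by
        intro w
        funext i
        fin_cases i <;> rfl
      obtain ⟨a1, b1⟩ := term_real hS hg (Sum.elim v xs) hw (ts 0)
      obtain ⟨a2, b2⟩ := term_real hS hg (Sum.elim v xs) hw (ts 1)
      rw [hc] at b1 b2
      show Language.Structure.RelMap (L := Lg) (n := 2) (Rl.lt i)
          (fun i => (ts i).realize (Sum.elim v xs)) ↔
        Language.Structure.RelMap (L := Lg) (n := 2) (Rl.lt i)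
          (fun i => (ts i).realize (Sum.elim (g ∘ v) (g ∘ xs)))
      rw [e, e, ← b1, ← b2]
      exact (hg.lt i _ a1 _ a2).symm
  | @imp m f₁ f₂ ih₁ ih₂ =>
    intro S g v xs hS hSκ hg hv hxs
    rw [Language.BoundedFormula.realize_imp, Language.BoundedFormula.realize_imp,
      ih₁ S g v xs hS hSκ hg hv hxs, ih₂ S g v xs hS hSκ hg hv hxs]
  | @all m f ih =>
    intro S g v xs hS hSκ hg hv hxs
    rw [Language.BoundedFormula.realize_all, Language.BoundedFormula.realize_all]
    constructor
    · intro h b
      have : Nonempty U := ⟨b⟩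
      obtain ⟨hC, hh, hl, -⟩ := emb_inv hg hS
      have hCκ : #(g '' S) < κ := lt_of_le_of_lt Cardinal.mk_image_le hSκ
      obtain ⟨h', h1, h2, -⟩ := EM_main hκ hs hG hE hG hC hCκ hh (fun _ : Unit => b)
        (E := (∅ : Set U)) (by simpa using (aleph0_pos.trans hκ))
      have hS' : Closed (g '' S ∪ cl (Set.range fun _ : Unit => b)) :=
        closed_union hC (closed_cl _)
      have hb : b ∈ cl (Set.range fun _ : Unit => b) := subset_cl _ ⟨(), rfl⟩
      have key := ih (g '' S ∪ cl (Set.range fun _ : Unit => b)) h' (g ∘ v)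
        (Fin.snoc (g ∘ xs) b : Fin (m + 1) → U) hS' (card_step hκ hCκ _) h2
        (fun c => Or.inl ⟨v c, hv c, rfl⟩)
        (fun j => by
          refine Fin.lastCases ?_ (fun j => ?_) j
          · rw [Fin.snoc_last]; exact Or.inr hb
          · rw [Fin.snoc_castSucc]; exact Or.inl ⟨xs j, hxs j, rfl⟩)
      rw [key]
      have e1 : h' ∘ g ∘ v = v := by
        funext c
        show h' (g (v c)) = v c
        rw [h1 _ ⟨v c, hv c, rfl⟩, hl _ (hv c)]
      have e2 : h' ∘ (Fin.snoc (g ∘ xs) b : Fin (m + 1) → U) = Fin.snoc xs (h' b) := by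
        funext j
        refine Fin.lastCases ?_ (fun j => ?_) j
        · simp
        · show h' ((Fin.snoc (g ∘ xs) b : Fin (m + 1) → U) j.castSucc) = _
          rw [Fin.snoc_castSucc, Fin.snoc_castSucc]
          show h' (g (xs j)) = xs j
          rw [h1 _ ⟨xs j, hxs j, rfl⟩, hl _ (hxs j)]
      rw [e1, e2]
      exact h (h' b)
    · intro h a
      obtain ⟨g', h1, h2, -⟩ := EM_main hκ hs hG hE hG hS hSκ hg (fun _ : Unit => a)
        (E := (∅ : Set U)) (by simpa using (aleph0_pos.trans hκ))
      have hS' : Closed (S ∪ cl (Set.range fun _ : Unit => a)) :=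
        closed_union hS (closed_cl _)
      have ha : a ∈ cl (Set.range fun _ : Unit => a) := subset_cl _ ⟨(), rfl⟩
      have key := ih (S ∪ cl (Set.range fun _ : Unit => a)) g' v
        (Fin.snoc xs a : Fin (m + 1) → U) hS' (card_step hκ hSκ _) h2
        (fun c => Or.inl (hv c))
        (fun j => by
          refine Fin.lastCases ?_ (fun j => ?_) j
          · rw [Fin.snoc_last]; exact Or.inr ha
          · rw [Fin.snoc_castSucc]; exact Or.inl (hxs j))
      rw [key]
      have e1 : g' ∘ v = g ∘ v := by
        funext c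
        exact h1 _ (hv c)
      have e2 : g' ∘ (Fin.snoc xs a : Fin (m + 1) → U) = Fin.snoc (g ∘ xs) (g' a) := by
        funext j
        refine Fin.lastCases ?_ (fun j => ?_) j
        · simp
        · show g' ((Fin.snoc xs a : Fin (m + 1) → U) j.castSucc) = _
          rw [Fin.snoc_castSucc, Fin.snoc_castSucc]
          exact h1 _ (hxs j)
      rw [e1, e2]
      exact h (g' a)

/-- Back-and-forth: for every formula `φ`, small closed `S`, `IsEmb g S` (`g : U → U`) and values in `S`,
`φ` holds for the values iff it holds for the images. For the quantifier: `EM_main` (with `N = U`) gives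
forth; back: `emb_inv` and `EM_main` for the inverse. Parameters:
`Set.definable_iff_exists_formula_sum`. -/
theorem QE_main (hκ : ℵ₀ < κ) (hs : Saturated Lg κ U) (hG : Good U) (hE : Ext U) {A : Set U}
    (hA : Closed A) (hAκ : #A < κ) {α : Type} [Finite α] {x y : α → U} {g : U → U}
    (hg : IsEmb g (A ∪ cl (Set.range x))) (hgA : ∀ a ∈ A, g a = a) (hgx : ∀ j, g (x j) = y j) :
    SameTp Lg A x y := by
  intro D hD
  obtain ⟨φ, rfl⟩ := Set.definable_iff_exists_formula_sum.1 hD
  have hv : ∀ c, Sum.elim (fun a : A => (a : U)) x c ∈ A ∪ cl (Set.range x) := by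
    rintro (c | j)
    · exact Or.inl c.2
    · exact Or.inr (subset_cl _ ⟨j, rfl⟩)
  have key := bf hκ hs hG hE φ (A ∪ cl (Set.range x)) g (Sum.elim (fun a : A => (a : U)) x)
    (default : Fin 0 → U) (closed_union hA (closed_cl _)) (card_step hκ hAκ x) hg hv
    (fun j => j.elim0)
  have e1 : g ∘ Sum.elim (fun a : A => (a : U)) x = Sum.elim (fun a : A => (a : U)) y := by
    funext c
    rcases c with c | j
    · exact hgA _ c.2
    · exact hgx j
  have e2 : g ∘ (default : Fin 0 → U) = default := Subsingleton.elim _ _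
  rw [e1, e2] at key
  exact key

end

end Pool.Agent.Lib_helper23.TF
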