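import Pool.Agent.Lib_helper23.TF.Defs
import Pool.Agent.Lib_helper23.TF.CB
import Pool.Agent.Lib_helper23.TF.DE
import Pool.Agent.Lib_helper23.TF.EM
import Pool.Agent.Lib_helper23.TF.QE

/-!
# MP_bc6371_lc, block NW: terms equal to an element of `U`
-/

set_option autoImplicit false

namespace Pool.Agent.Lib_helper23.TF

open Cardinal Pool.Agent.Lib_helper23.SD Pool.Agent.Lib_helper23.TF

section
variable {U : Type} [Lg.Structure U] {κ : Cardinal.{0}}

theorem NW_main (hκ : ℵ₀ < κ) (hs : Saturated Lg κ U) (hG : Good U) (hE : Ext U) {A : Set U}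
    (hA : Closed A) (hAκ : #A < κ) {α : Type} [Finite α] (p : Typ Lg (Set.univ : Set U) α)
    (hp : InvOver Lg A p.sets) {t : α × List Bool} {c : U}
    (h : {y : α → U | val y t = c} ∈ p.sets) : c ∈ A := by
  by_contra hc
  obtain ⟨g, hg1, hg2, hg3⟩ := EM_main hκ hs hG hE hG hA hAκ (h := fun z => z)
    ⟨fun x _ y _ h => h, fun _ _ _ => rfl, fun _ _ _ _ _ => Iff.rfl⟩ (fun _ : Unit => c)
    (E := {c}) (SM_countable hκ (Set.countable_singleton c))
  have hcc : g c ≠ c := hg3 c (subset_cl _ ⟨(), rfl⟩) hc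
  have hsame : SameTp Lg A (fun _ : Unit => c) (fun _ : Unit => g c) :=
    QE_main hκ hs hG hE hA hAκ hg2 hg1 (fun _ => rfl)
  have hR : (∅ : Set U).Definable Lg {z : α ⊕ Unit → U |
      val z (Sum.inl t.1, t.2) = val z (Sum.inr (), [])} := DE_eq _ _ _
  have hinv := (hp Unit _ hR _ _ hsame).1 h
  have hne : ({y : α → U | val y t = c} ∩ {x : α → U | Sum.elim x (fun _ : Unit => g c) ∈
      {z : α ⊕ Unit → U | val z (Sum.inl t.1, t.2) = val z (Sum.inr (), [])}}).Nonempty := by
    by_contra hc'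
    rw [Set.not_nonempty_iff_eq_empty] at hc'
    exact p.nempty (hc' ▸ p.inter _ h _ hinv)
  obtain ⟨y, hy1, hy2⟩ := hne
  have hy1' : val y t = c := hy1
  have hy2' : val y t = g c := hy2
  exact hcc (hy2'.symm.trans hy1')

end

end Pool.Agent.Lib_helper23.TF
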