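import Pool.Agent.Lib_helper23.TF.Defs
import Pool.Agent.Lib_helper23.TF.EX
import Pool.Agent.Lib_helper23.TF.DE

/-!
# MP_bc6371_lc, block SE: the strong extension property
-/

set_option autoImplicit false

namespace Pool.Agent.Lib_helper23.TF

open Cardinal Pool.Agent.Lib_helper23.SD Pool.Agent.Lib_helper23.TF

section
variable {U : Type} [Lg.Structure U] {κ : Cardinal.{0}}

/-- the conditions -/
private abbrev Q (U : Type) : Type := Bool ⊕ (U ⊕ ((Ix × U) ⊕ (Ix × U)))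

private def Dq (a : Bool → U) : Q U → Set (Unit → U)
  | Sum.inl b => {x | val x ((), [b]) = a b}
  | Sum.inr (Sum.inl e) => {x | val x ((), []) = e}ᶜ
  | Sum.inr (Sum.inr (Sum.inl q)) => {x | Alg.lt q.1 q.2 (val x ((), []))}
  | Sum.inr (Sum.inr (Sum.inr q)) => {x | Alg.lt q.1 (val x ((), [])) q.2}

private def Ok (L R : Ix → Set U) (E : Set U) : Q U → Prop
  | Sum.inl _ => True
  | Sum.inr (Sum.inl e) => e ∈ E
  | Sum.inr (Sum.inr (Sum.inl q)) => q.2 ∈ L q.1
  | Sum.inr (Sum.inr (Sum.inr q)) => q.2 ∈ R q.1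

private def ix : Q U → Ix
  | Sum.inl _ => Ix.fib false
  | Sum.inr (Sum.inl _) => Ix.fib false
  | Sum.inr (Sum.inr (Sum.inl q)) => q.1
  | Sum.inr (Sum.inr (Sum.inr q)) => q.1

/-- saturation (in one variable) and `EX_main` -/
theorem SE_main (hκ : ℵ₀ < κ) (hs : Saturated Lg κ U) (hG : Good U) (hE : Ext U) (a : Bool → U)
    (L R : Ix → Set U) (hLκ : #(⋃ i, L i : Set U) < κ) (hRκ : #(⋃ i, R i : Set U) < κ)
    (hL : ∀ i, ∀ c ∈ L i, InC i a c) (hR : ∀ i, ∀ c ∈ R i, InC i a c)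
    (hLR : ∀ i, ∀ c ∈ L i, ∀ d ∈ R i, Alg.lt i c d) (E : Set U) (hEκ : #E < κ) :
    ∃ y : U, (∀ b, Alg.s b y = a b) ∧ y ∉ E ∧
      ∀ i, (∀ c ∈ L i, Alg.lt i c y) ∧ ∀ d ∈ R i, Alg.lt i y d := by
  classical
  let A₀ : Set U := (((⋃ i, L i) ∪ ⋃ i, R i) ∪ E) ∪ Set.range a
  have hA₀ : #A₀ < κ := SM_union hκ (SM_union hκ (SM_union hκ hLκ hRκ) hEκ)
    (SM_countable hκ (Set.finite_range a).countable)
  have key : (⋂₀ {D | ∃ q : Q U, Ok L R E q ∧ Dq a q = D}).Nonempty := by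
    refine hs A₀ hA₀ Unit _ ?_ ?_
    · rintro D ⟨q, hq, rfl⟩
      rcases q with b | e | q | q
      · have h : a b ∈ A₀ := Or.inr ⟨b, rfl⟩
        exact DE_eqc h _
      · have h : e ∈ A₀ := Or.inl (Or.inr hq)
        exact (DE_eqc h _).compl
      · have h : q.2 ∈ A₀ := Or.inl (Or.inl (Or.inl (Set.mem_iUnion.2 ⟨q.1, hq⟩)))
        exact DE_clt h _ _
      · have h : q.2 ∈ A₀ := Or.inl (Or.inl (Or.inr (Set.mem_iUnion.2 ⟨q.1, hq⟩)))
        exact DE_ltc h _ _
    · intro 𝓖 h𝓖 hfin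
      choose! f hf using (fun D (hD : D ∈ 𝓖) => h𝓖 hD)
      let F : Finset (Q U) := hfin.toFinset.image f
      have hF : ∀ q ∈ F, Ok L R E q := by
        intro q hq
        obtain ⟨D, hD, rfl⟩ := Finset.mem_image.1 hq
        exact (hf D (hfin.mem_toFinset.1 hD)).1
      let I : Finset Ix := F.image ix
      let L' : Ix → Finset U := fun i =>
        F.preimage (fun c : U => (Sum.inr (Sum.inr (Sum.inl (i, c))) : Q U)) (by
          intro c _ c' _ h
          simpa using h)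
      let R' : Ix → Finset U := fun i =>
        F.preimage (fun c : U => (Sum.inr (Sum.inr (Sum.inr (i, c))) : Q U)) (by
          intro c _ c' _ h
          simpa using h)
      let E' : Finset U := F.preimage (fun c : U => (Sum.inr (Sum.inl c) : Q U)) (by
          intro c _ c' _ h
          simpa using h)
      have hL' : ∀ i, ∀ c ∈ L' i, c ∈ L i := fun i c hc => hF _ (Finset.mem_preimage.1 hc)
      have hR' : ∀ i, ∀ c ∈ R' i, c ∈ R i := fun i c hc => hF _ (Finset.mem_preimage.1 hc)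
      obtain ⟨y, hy1, hy2, hy3⟩ := EX_main hG hE a I L' R' (fun i _ c hc => hL i c (hL' i c hc))
        (fun i _ c hc => hR i c (hR' i c hc))
        (fun i _ c hc d hd => hLR i c (hL' i c hc) d (hR' i d hd)) E'
      refine ⟨fun _ => y, ?_⟩
      intro D hD
      have hDF : f D ∈ F := Finset.mem_image.2 ⟨D, hfin.mem_toFinset.2 hD, rfl⟩
      rw [← (hf D hD).2]
      rcases hfD : f D with b | e | q | q
      · exact hy1 b
      · rw [hfD] at hDF
        intro he
        have he' : y = e := he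
        apply hy2
        rw [he']
        exact Finset.mem_preimage.2 hDF
      · rw [hfD] at hDF
        exact (hy3 q.1 (Finset.mem_image.2 ⟨_, hDF, rfl⟩)).1 q.2 (Finset.mem_preimage.2 hDF)
      · rw [hfD] at hDF
        exact (hy3 q.1 (Finset.mem_image.2 ⟨_, hDF, rfl⟩)).2 q.2 (Finset.mem_preimage.2 hDF)
  obtain ⟨x, hx⟩ := key
  refine ⟨x (), fun b => hx _ ⟨Sum.inl b, trivial, rfl⟩, ?_, fun i => ⟨fun c hc => ?_,
    fun d hd => ?_⟩⟩
  · intro he
    exact hx _ ⟨Sum.inr (Sum.inl (x ())), he, rfl⟩ rfl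
  · exact hx _ ⟨Sum.inr (Sum.inr (Sum.inl (i, c))), hc, rfl⟩
  · exact hx _ ⟨Sum.inr (Sum.inr (Sum.inr (i, d))), hd, rfl⟩

end

end Pool.Agent.Lib_helper23.TF
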