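import Pool.Agent.Lib_helper23.TF.Defs
import Pool.Agent.Lib_helper23.TF.CB
import Pool.Agent.Lib_helper23.TF.FR1
import Pool.Agent.Lib_helper23.TF.DE
import Pool.Agent.Lib_helper23.TF.SE
import Pool.Agent.Lib_helper23.TF.QE
import Pool.Agent.Lib_helper23.TF.FX
import Pool.Agent.Lib_helper23.TF.NW

/-!
# MP_bc6371_lc, block DI: cuts of anchored terms
-/

set_option autoImplicit false

namespace Pool.Agent.Lib_helper23.TF

open Cardinal Pool.Agent.Lib_helper23.SD Pool.Agent.Lib_helper23.TF

section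
variable {U : Type} [Lg.Structure U] {κ : Cardinal.{0}}

private theorem pne {α : Type} (p : Typ Lg (Set.univ : Set U) α) {D : Set (α → U)}
    (h : D ∈ p.sets) : D.Nonempty := by
  by_contra hc
  rw [Set.not_nonempty_iff_eq_empty] at hc
  exact p.nempty (hc ▸ h)

private theorem inC_cmp {i : Ix} {a : Bool → U} {l z : U} (hl : InC i a l) (h : Cmp i l z) :
    InC i a z := by
  cases i with
  | fib b =>
    have h' : Alg.s b l = Alg.s b z := h
    have hl' : Alg.s b l = a b := hl
    exact h'.symm.trans hl'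
  | co u v => exact ⟨hl.1, h.2⟩

private theorem inC_cmp' {i : Ix} {a : Bool → U} {l z : U} (hl : InC i a l) (hz : InC i a z) :
    Cmp i l z := by
  cases i with
  | fib b =>
    have hz' : Alg.s b z = a b := hz
    have hl' : Alg.s b l = a b := hl
    exact hl'.trans hz'.symm
  | co u v => exact ⟨hl.2, hz.2⟩

private theorem tri {α : Type} (hG : Good U) (p : Typ Lg (Set.univ : Set U) α)
    {t : α × List Bool} (hn : New p t) {i : Ix} {c : U}
    (hc : {y : α → U | Cmp i c (val y t)} ∈ p.sets) :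
    {y : α → U | Alg.lt i c (val y t)} ∈ p.sets ∨ {y : α → U | Alg.lt i (val y t) c} ∈ p.sets := by
  rcases p.ultra _ (DE_clt (Set.mem_univ c) i t) with h | h
  · exact Or.inl h
  rcases p.ultra _ (DE_ltc (Set.mem_univ c) i t) with h' | h'
  · exact Or.inr h'
  have h'' := (p.ultra _ (DE_eqc (Set.mem_univ c) t)).resolve_left (hn c)
  obtain ⟨y, ⟨h1, h2⟩, h3, h4⟩ := pne p (p.inter _ (p.inter _ h _ h') _ (p.inter _ h'' _ hc))
  rcases hG.tot i c (val y t) h4 with h5 | h5 | h5
  · exact absurd h5 h1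
  · exact absurd h5.symm h3
  · exact absurd h5 h2

private theorem child {A : Set U} (hG : Good U) (hA : Closed A) {a : Bool → U} {g : U}
    (hg : Free A g) (hag : ∀ b, a b ∈ A ∨ a b = g) (hb : ∃ b, a b = g) {x : U}
    (hx : ∀ b, Alg.s b x = a b) : x ∉ A ∧ x ∉ cl {g} ∧ ∀ j, ∀ z ∈ cl {g}, ¬ Cmp j x z := by
  obtain ⟨b, hb⟩ := hb
  refine ⟨fun h => ?_, fun h => ?_, ?_⟩
  · apply hg.2 []
    have h1 := hA b x h
    rw [hx, hb] at h1
    exact h1
  · rw [mem_cl_one] at h
    obtain ⟨w, rfl⟩ := h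
    have h1 := hx b
    rw [hb] at h1
    apply hG.acyc (w ++ [b]) g (by simp)
    rw [ev_append]
    exact h1
  · intro j z hz hc
    rw [mem_cl_one] at hz
    obtain ⟨w, rfl⟩ := hz
    cases j with
    | fib b' =>
      have h1 : Alg.s b' x = Alg.s b' (ev w g) := hc
      have h2 : Alg.s b' (ev w g) = ev (w ++ [b']) g := by
        rw [ev_append]
        rfl
      rw [hx, h2] at h1
      rcases hag b' with h3 | h3
      · exact hg.2 (w ++ [b']) (h1 ▸ h3)
      · exact hG.acyc (w ++ [b']) g (by simp) (h1.symm.trans h3)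
    | co u v => exact free_inN (free_ev hg w) u v hc.2

/-- two elements with the same children and the same relations with `A` have the same type -/
private theorem same {A : Set U} (hκ : ℵ₀ < κ) (hs : Saturated Lg κ U) (hG : Good U) (hE : Ext U)
    (hA : Closed A) (hAκ : #A < κ) {a : Bool → U} {g : U}
    (hg : Free A g) (hag : ∀ b, a b ∈ A ∨ a b = g) (hb : ∃ b, a b = g) {x x' : U}
    (hx : ∀ b, Alg.s b x = a b) (hx' : ∀ b, Alg.s b x' = a b)
    (h : ∀ j, ∀ z ∈ A, (Alg.lt j x z ↔ Alg.lt j x' z) ∧ (Alg.lt j z x ↔ Alg.lt j z x')) :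
    SameTp Lg A (fun _ : Unit => x) (fun _ : Unit => x') := by
  classical
  obtain ⟨h1, h2, h3⟩ := child hG hA hg hag hb hx
  obtain ⟨h1', h2', h3'⟩ := child hG hA hg hag hb hx'
  have hag' : ∀ b, a b ∈ A ∪ cl {g} := by
    intro b
    rcases hag b with h4 | h4
    · exact Or.inl h4
    · right
      rw [h4]
      exact subset_cl _ rfl
  have hcl : Closed (A ∪ cl {g}) := closed_union hA (closed_cl _)
  have hS : ∀ z ∈ A ∪ cl (Set.range fun _ : Unit => x), z = x ∨ z ∈ A ∪ cl {g} := by
    rintro z (hz | hz)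
    · exact Or.inr (Or.inl hz)
    · obtain ⟨t, rfl⟩ := mem_cl_range.1 hz
      obtain ⟨j, w⟩ := t
      cases w with
      | nil => exact Or.inl rfl
      | cons b w =>
        right
        have h5 : val (fun _ : Unit => x) (j, b :: w) = ev w (a b) := by
          rw [← hx b]
          rfl
        rw [h5]
        exact ev_mem hcl (hag' b) w
  have hne : ∀ z ∈ A ∪ cl {g}, z ≠ x := by
    rintro z hz rfl
    rcases hz with hz | hz
    · exact h1 hz
    · exact h2 hz
  have hne' : ∀ z ∈ A ∪ cl {g}, z ≠ x' := by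
    rintro z hz rfl
    rcases hz with hz | hz
    · exact h1' hz
    · exact h2' hz
  have hrel : ∀ j, ∀ z ∈ A ∪ cl {g},
      (Alg.lt j x' z ↔ Alg.lt j x z) ∧ (Alg.lt j z x' ↔ Alg.lt j z x) := by
    rintro j z (hz | hz)
    · exact ⟨(h j z hz).1.symm, (h j z hz).2.symm⟩
    · exact ⟨⟨fun h5 => absurd (hG.cmp _ _ _ h5) (h3' j z hz),
        fun h5 => absurd (hG.cmp _ _ _ h5) (h3 j z hz)⟩,
        ⟨fun h5 => absurd (cmp_symm (hG.cmp _ _ _ h5)) (h3' j z hz),
        fun h5 => absurd (cmp_symm (hG.cmp _ _ _ h5)) (h3 j z hz)⟩⟩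
  let G : U → U := fun z => if z = x then x' else z
  have hGx : G x = x' := if_pos rfl
  have hGn : ∀ z ∈ A ∪ cl {g}, G z = z := fun z hz => if_neg (hne z hz)
  refine QE_main hκ hs hG hE hA hAκ (x := fun _ : Unit => x) (y := fun _ : Unit => x') (g := G)
    ⟨?_, ?_, ?_⟩ (fun z hz => hGn z (Or.inl hz)) (fun _ => hGx)
  · intro z hz z' hz' he
    rcases hS z hz with rfl | h5 <;> rcases hS z' hz' with rfl | h6
    · rfl
    · rw [hGx, hGn z' h6] at he
      exact absurd he.symm (hne' z' h6)
    · rw [hGx, hGn z h5] at he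
      exact absurd he (hne' z h5)
    · rw [hGn z h5, hGn z' h6] at he
      exact he
  · intro b z hz
    rcases hS z hz with rfl | h5
    · rw [hGx, hx, hx', hGn _ (hag' b)]
    · rw [hGn z h5, hGn _ (hcl b z h5)]
  · intro j z hz z' hz'
    rcases hS z hz with rfl | h5 <;> rcases hS z' hz' with rfl | h6
    · rw [hGx]
      exact ⟨fun h => absurd h (hG.irr _ _), fun h => absurd h (hG.irr _ _)⟩
    · rw [hGx, hGn z' h6]
      exact (hrel j z' h6).1
    · rw [hGx, hGn z h5]
      exact (hrel j z h5).2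
    · rw [hGn z h5, hGn z' h6]

theorem DI_main (hκ : ℵ₀ < κ) (hs : Saturated Lg κ U) (hG : Good U) (hE : Ext U) {A : Set U}
    (hA : Closed A) (hAκ : #A < κ) {α : Type} [Finite α] (p : Typ Lg (Set.univ : Set U) α)
    (hp : InvOver Lg A p.sets) {t : α × List Bool} (hn : New p t) (i : Ix) :
    LType p A i t ∨ RType p A i t := by
  classical
  by_contra hcon
  rw [not_or] at hcon
  obtain ⟨hcL, hcR⟩ := hcon
  unfold LType at hcL
  unfold RType at hcR
  push Not at hcL hcR
  obtain ⟨l, hl, hl'⟩ := hcL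
  obtain ⟨r, hr, hr'⟩ := hcR
  have hlA : ∀ z ∈ A, {y : α → U | Alg.lt i z (val y t)} ∈ p.sets → Alg.lt i z l := by
    intro z hz hzp
    obtain ⟨y, hy1, hy2⟩ := pne p (p.inter _ hl _ hzp)
    have h1 := hG.cmp _ _ _ hy1
    have h2 := hG.cmp _ _ _ hy2
    obtain ⟨h3, h4⟩ := hl' z hz hzp
    rcases hG.tot i z l (cmp_trans h2 (cmp_symm h1)) with h | h | h
    · exact h
    · exact absurd h.symm h3
    · exact absurd h h4
  have hrA : ∀ z ∈ A, {y : α → U | Alg.lt i (val y t) z} ∈ p.sets → Alg.lt i r z := by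
    intro z hz hzp
    obtain ⟨y, hy1, hy2⟩ := pne p (p.inter _ hr _ hzp)
    have h1 := hG.cmp _ _ _ hy1
    have h2 := hG.cmp _ _ _ hy2
    obtain ⟨h3, h4⟩ := hr' z hz hzp
    rcases hG.tot i r z (cmp_trans (cmp_symm h1) h2) with h | h | h
    · exact h
    · exact absurd h h3
    · exact absurd h h4
  have hlr : Alg.lt i l r := by
    obtain ⟨y, hy1, hy2⟩ := pne p (p.inter _ hl _ hr)
    exact hG.tr _ _ _ _ hy1 hy2
  obtain ⟨y₀, hy₀⟩ := pne p hl
  have hly₀ : Cmp i l (val y₀ t) := hG.cmp _ _ _ hy₀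
  have : Nonempty U := ⟨l⟩
  obtain ⟨g, hg⟩ := FX_main hκ hs hG hE hA hAκ
  have ha : ∃ a : Bool → U, (∀ b, a b ∈ A ∨ a b = g) ∧ (∃ b, a b = g) ∧ InC i a l := by
    cases i with
    | fib b =>
      refine ⟨fun b' => if b' = b then Alg.s b l else g, ?_, ⟨!b, ?_⟩, ?_⟩
      · intro b'
        by_cases hb' : b' = b
        · left
          beta_reduce
          rw [if_pos hb']
          refine NW_main hκ hs hG hE hA hAκ p hp (t := (t.1, t.2 ++ [b])) ?_
          refine p.mono _ hl _ (DE_eqc (Set.mem_univ _) _) ?_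
          intro y hy
          have h1 : Alg.s b l = Alg.s b (val y t) := hG.cmp _ _ _ hy
          show ev (t.2 ++ [b]) (y t.1) = Alg.s b l
          rw [ev_append, h1]
          rfl
        · right
          beta_reduce
          rw [if_neg hb']
      · beta_reduce
        rw [if_neg]
        cases b <;> simp
      · show Alg.s b l = if b = b then Alg.s b l else g
        rw [if_pos rfl]
    | co u v => exact ⟨fun _ => g, fun _ => Or.inr rfl, ⟨true, rfl⟩, Or.inl rfl, hly₀.1⟩
  obtain ⟨a, ha1, ha2, ha3⟩ := ha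
  have har : InC i a r := inC_cmp ha3 (hG.cmp _ _ _ hlr)
  -- the two elements
  have hcard1 : ∀ L : Ix → Set U, (∀ j, L j ⊆ A ∪ {l, r}) → #(⋃ j, L j : Set U) < κ := by
    intro L hL
    have h1 : #(A ∪ {l, r} : Set U) < κ :=
      SM_union hκ hAκ (SM_countable hκ (Set.toFinite _).countable)
    exact lt_of_le_of_lt (mk_le_mk_of_subset (Set.iUnion_subset hL)) h1
  obtain ⟨x, hx1, -, hx2⟩ := SE_main hκ hs hG hE a
    (fun j => if j = i then {z | z ∈ A ∧ {y : α → U | Alg.lt i z (val y t)} ∈ p.sets}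
      else {z | z ∈ A ∧ InC j a z})
    (fun j => if j = i then {l} else ∅)
    (hcard1 _ (by
      intro j z hz
      left
      by_cases hj : j = i
      · beta_reduce at hz
        rw [if_pos hj] at hz
        exact hz.1
      · beta_reduce at hz
        rw [if_neg hj] at hz
        exact hz.1))
    (hcard1 _ (by
      intro j z hz
      right
      by_cases hj : j = i
      · beta_reduce at hz
        rw [if_pos hj] at hz
        exact Or.inl hz
      · beta_reduce at hz
        rw [if_neg hj] at hz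
        exact absurd hz (by simp)))
    (by
      intro j z hz
      by_cases hj : j = i
      · subst hj
        rw [if_pos rfl] at hz
        exact inC_cmp ha3 (cmp_symm (hG.cmp _ _ _ (hlA z hz.1 hz.2)))
      · beta_reduce at hz
        rw [if_neg hj] at hz
        exact hz.2)
    (by
      intro j z hz
      by_cases hj : j = i
      · subst hj
        rw [if_pos rfl] at hz
        rw [Set.mem_singleton_iff.1 hz]
        exact ha3
      · beta_reduce at hz
        rw [if_neg hj] at hz
        exact absurd hz (by simp))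
    (by
      intro j z hz d hd
      by_cases hj : j = i
      · subst hj
        rw [if_pos rfl] at hz hd
        rw [Set.mem_singleton_iff.1 hd]
        exact hlA z hz.1 hz.2
      · beta_reduce at hd
        rw [if_neg hj] at hd
        exact absurd hd (by simp))
    ∅ (SM_countable hκ Set.countable_empty)
  obtain ⟨x', hx1', -, hx2'⟩ := SE_main hκ hs hG hE a
    (fun j => if j = i then {r} else {z | z ∈ A ∧ InC j a z})
    (fun j => if j = i then {z | z ∈ A ∧ {y : α → U | Alg.lt i (val y t) z} ∈ p.sets} else ∅)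
    (hcard1 _ (by
      intro j z hz
      by_cases hj : j = i
      · beta_reduce at hz
        rw [if_pos hj] at hz
        exact Or.inr (Or.inr hz)
      · beta_reduce at hz
        rw [if_neg hj] at hz
        exact Or.inl hz.1))
    (hcard1 _ (by
      intro j z hz
      left
      by_cases hj : j = i
      · beta_reduce at hz
        rw [if_pos hj] at hz
        exact hz.1
      · beta_reduce at hz
        rw [if_neg hj] at hz
        exact absurd hz (by simp)))
    (by
      intro j z hz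
      by_cases hj : j = i
      · subst hj
        rw [if_pos rfl] at hz
        rw [Set.mem_singleton_iff.1 hz]
        exact har
      · beta_reduce at hz
        rw [if_neg hj] at hz
        exact hz.2)
    (by
      intro j z hz
      by_cases hj : j = i
      · subst hj
        rw [if_pos rfl] at hz
        exact inC_cmp har (hG.cmp _ _ _ (hrA z hz.1 hz.2))
      · beta_reduce at hz
        rw [if_neg hj] at hz
        exact absurd hz (by simp))
    (by
      intro j z hz d hd
      by_cases hj : j = i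
      · subst hj
        rw [if_pos rfl] at hz hd
        rw [Set.mem_singleton_iff.1 hz]
        exact hrA d hd.1 hd.2
      · beta_reduce at hd
        rw [if_neg hj] at hd
        exact absurd hd (by simp))
    ∅ (SM_countable hκ Set.countable_empty)
  have hxl : Alg.lt i x l := (hx2 i).2 l (by rw [if_pos rfl]; rfl)
  have hrx' : Alg.lt i r x' := (hx2' i).1 r (by rw [if_pos rfl]; rfl)
  have key : ∀ j, ∀ z ∈ A, (Alg.lt j x z ↔ Alg.lt j x' z) ∧ (Alg.lt j z x ↔ Alg.lt j z x') := by
    intro j z hz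
    have asym : ∀ u v : U, Alg.lt j u v → ¬ Alg.lt j v u := fun u v h h' =>
      hG.irr _ _ (hG.tr _ _ _ _ h h')
    by_cases hc : InC j a z
    · by_cases hj : j = i
      · subst hj
        have hzt : {y : α → U | Cmp j z (val y t)} ∈ p.sets := by
          refine p.mono _ hl _ (DE_cmp (Set.mem_univ _) _ _) ?_
          intro y hy
          exact cmp_trans (inC_cmp' hc ha3) (hG.cmp _ _ _ hy)
        rcases tri hG p hn hzt with h | h
        · have h1 : Alg.lt j z x := (hx2 j).1 z (by rw [if_pos rfl]; exact ⟨hz, h⟩)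
          have h2 : Alg.lt j z x' :=
            hG.tr _ _ _ _ (hlA z hz h) (hG.tr _ _ _ _ hlr hrx')
          exact ⟨⟨fun h3 => absurd h3 (asym _ _ h1), fun h3 => absurd h3 (asym _ _ h2)⟩,
            ⟨fun _ => h2, fun _ => h1⟩⟩
        · have h2 : Alg.lt j x' z := (hx2' j).2 z (by rw [if_pos rfl]; exact ⟨hz, h⟩)
          have h1 : Alg.lt j x z :=
            hG.tr _ _ _ _ hxl (hG.tr _ _ _ _ hlr (hrA z hz h))
          exact ⟨⟨fun _ => h2, fun _ => h1⟩,
            ⟨fun h3 => absurd h3 (asym _ _ h1), fun h3 => absurd h3 (asym _ _ h2)⟩⟩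
      · have h1 : Alg.lt j z x := (hx2 j).1 z (by rw [if_neg hj]; exact ⟨hz, hc⟩)
        have h2 : Alg.lt j z x' := (hx2' j).1 z (by rw [if_neg hj]; exact ⟨hz, hc⟩)
        exact ⟨⟨fun h3 => absurd h3 (asym _ _ h1), fun h3 => absurd h3 (asym _ _ h2)⟩,
          ⟨fun _ => h2, fun _ => h1⟩⟩
    · have h1 : ¬ Cmp j x z := fun h => hc ((inC_iff hx1 j z).2 h)
      have h2 : ¬ Cmp j x' z := fun h => hc ((inC_iff hx1' j z).2 h)
      exact ⟨⟨fun h => absurd (hG.cmp _ _ _ h) h1, fun h => absurd (hG.cmp _ _ _ h) h2⟩,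
        ⟨fun h => absurd (cmp_symm (hG.cmp _ _ _ h)) h1,
          fun h => absurd (cmp_symm (hG.cmp _ _ _ h)) h2⟩⟩
  have hsame := same hκ hs hG hE hA hAκ hg ha1 ha2 hx1 hx1' key
  have hR : (∅ : Set U).Definable Lg {z : α ⊕ Unit → U |
      Alg.lt i (val z (Sum.inr (), [])) (val z (Sum.inl t.1, t.2))} := DE_lt _ i _ _
  have hinv := hp Unit _ hR _ _ hsame
  have h1 : {y : α → U | Alg.lt i x (val y t)} ∈ p.sets := by
    refine p.mono _ hl _ (DE_clt (Set.mem_univ _) _ _) ?_
    intro y hy
    exact hG.tr _ _ _ _ hxl hy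
  have h2 : {y : α → U | Alg.lt i x' (val y t)} ∈ p.sets := hinv.1 h1
  obtain ⟨y, hy1, hy2⟩ := pne p (p.inter _ h2 _ hr)
  exact hG.irr _ _ (hG.tr _ _ _ _ hy1 (hG.tr _ _ _ _ hy2 hrx'))

end

end Pool.Agent.Lib_helper23.TF
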