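import Pool.Agent.Lib_helper23.TF.Defs

/-!
# MP_bc6371_lc, block DM: a criterion for domination (any language)
-/

set_option autoImplicit false

namespace Pool.Agent.Lib_helper23.TF

open Cardinal Pool.Agent.Lib_helper23.SD Pool.Agent.Lib_helper23.TF

/-- the type of a tuple -/
private def tp (L : FirstOrder.Language.{0, 0}) {U : Type} [L.Structure U] (A : Set U) {γ : Type}
    (z : γ → U) : Typ L A γ where
  sets := {D | A.Definable L D ∧ z ∈ D}
  dfn := fun D hD => hD.1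
  inter := fun D hD D' hD' => ⟨hD.1.inter hD'.1, hD.2, hD'.2⟩
  mono := fun D hD D' hD' hs => ⟨hD', hs hD.2⟩
  nempty := fun h => h.2
  ultra := by
    intro D hD
    by_cases h : z ∈ D
    · exact Or.inl ⟨hD, h⟩
    · exact Or.inr ⟨hD.compl, h⟩

theorem DM_main {L : FirstOrder.Language.{0, 0}} {U : Type} [L.Structure U] {κ : Cardinal.{0}}
    (hκ : ℵ₀ < κ) (hs : Saturated L κ U) {α β : Type} [Finite α] [Finite β]
    (p : Typ L (Set.univ : Set U) α) (q : Typ L (Set.univ : Set U) β) {A : Set U} (hA : #A < κ)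
    (hp : InvOver L A p.sets) (hq : InvOver L A q.sets) {x : α → U} {y : β → U}
    (hx : Real L p.sets A x) (hy : Real L q.sets A y)
    (h : ∀ D ∈ q.sets, ∃ A' : Set U, A ⊆ A' ∧ #A' < κ ∧ A'.Definable L D ∧
      ∀ (x' : α → U) (y' : β → U), Real L p.sets A' x' →
        SameTp L A (Sum.elim x' y') (Sum.elim x y) → y' ∈ D) :
    Dominates L κ p.sets q.sets := by
  refine ⟨A, hA, hp, hq, tp L A (Sum.elim x y), ?_, ?_, ?_⟩
  · intro D hD hAD
    exact ⟨hAD.preimage_comp Sum.inl, hx D hD hAD⟩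
  · intro D hD hAD
    exact ⟨hAD.preimage_comp Sum.inr, hy D hD hAD⟩
  · intro D hD
    by_contra hcon
    push Not at hcon
    obtain ⟨A', hAA', hA', hDA', hmain⟩ := h D hD
    let P : Set (Set (α ⊕ β → U)) :=
      {W | ∃ E ∈ p.sets, A'.Definable L E ∧ W = {z | z ∘ Sum.inl ∈ E}}
    let Q : Set (Set (α ⊕ β → U)) := (tp L A (Sum.elim x y)).sets
    let 𝓕 : Set (Set (α ⊕ β → U)) := P ∪ Q ∪ {{z | z ∘ Sum.inr ∈ Dᶜ}}
    have hdef : ∀ W ∈ 𝓕, A'.Definable L W := by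
      rintro W ((⟨E, _, hE, rfl⟩ | hW) | hW)
      · exact hE.preimage_comp Sum.inl
      · exact hW.1.mono hAA'
      · rw [Set.mem_singleton_iff] at hW
        subst hW
        exact hDA'.compl.preimage_comp Sum.inr
    have hfin : ∀ 𝓖 : Set (Set (α ⊕ β → U)), 𝓖 ⊆ 𝓕 → 𝓖.Finite →
        ∃ E ∈ p.sets, ∃ R ∈ Q, ∀ z : α ⊕ β → U, z ∘ Sum.inl ∈ E → z ∈ R → z ∘ Sum.inr ∈ Dᶜ →
          z ∈ ⋂₀ 𝓖 := by
      intro 𝓖 hsub hG
      revert hsub
      refine Set.Finite.induction_on (motive := fun 𝓖 _ => 𝓖 ⊆ 𝓕 →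
        ∃ E ∈ p.sets, ∃ R ∈ Q, ∀ z : α ⊕ β → U, z ∘ Sum.inl ∈ E → z ∈ R → z ∘ Sum.inr ∈ Dᶜ →
          z ∈ ⋂₀ 𝓖) 𝓖 hG ?_ ?_
      · intro _
        refine ⟨Set.univ, IN_univ p, Set.univ, IN_univ _, ?_⟩
        intro z _ _ _
        simp
      · intro W 𝓖 _ _ ih hsub
        obtain ⟨E, hE, R, hR, hER⟩ := ih ((Set.subset_insert _ _).trans hsub)
        rcases hsub (Set.mem_insert _ _) with (⟨E', hE', _, rfl⟩ | hW) | hW
        · refine ⟨E ∩ E', p.inter _ hE _ hE', R, hR, ?_⟩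
          intro z h1 h2 h3
          rw [Set.sInter_insert]
          exact ⟨h1.2, hER z h1.1 h2 h3⟩
        · refine ⟨E, hE, R ∩ W, (tp L A (Sum.elim x y)).inter _ hR _ hW, ?_⟩
          intro z h1 h2 h3
          rw [Set.sInter_insert]
          exact ⟨h2.2, hER z h1 h2.1 h3⟩
        · rw [Set.mem_singleton_iff] at hW
          subst hW
          refine ⟨E, hE, R, hR, ?_⟩
          intro z h1 h2 h3
          rw [Set.sInter_insert]
          exact ⟨h3, hER z h1 h2 h3⟩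
    obtain ⟨z, hz⟩ := hs A' hA' (α ⊕ β) 𝓕 hdef (by
      intro 𝓖 hsub hG
      obtain ⟨E, hE, R, hR, hER⟩ := hfin 𝓖 hsub hG
      obtain ⟨x', y', hx', hxy', hy'⟩ := hcon E hE R hR
      exact ⟨Sum.elim x' y', hER _ (by simpa using hx') hxy' (by simpa using hy')⟩)
    have hzD : z ∘ Sum.inr ∈ Dᶜ := hz _ (Or.inr rfl)
    apply hzD
    have hel : Sum.elim (z ∘ Sum.inl) (z ∘ Sum.inr) = z := Sum.elim_comp_inl_inr z
    refine hmain (z ∘ Sum.inl) (z ∘ Sum.inr) ?_ ?_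
    · intro E hE hE'
      exact hz _ (Or.inl (Or.inl ⟨E, hE, hE', rfl⟩))
    · rw [hel]
      intro R hR
      constructor
      · intro h1
        by_contra h2
        exact (hz _ (Or.inl (Or.inr ⟨hR.compl, h2⟩)) : z ∈ Rᶜ) h1
      · intro h1
        exact hz _ (Or.inl (Or.inr ⟨hR, h1⟩))

end Pool.Agent.Lib_helper23.TF
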