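import Mathlib
import Pool.Agent.Lib_helper23.SD.TT

/-!
# MP_bc6371_lc, a non-distal theory all of whose invariant types are idempotent: definitions

Two unary functions `s false`, `s true` and countably many binary relations `lt i`. The relation
`lt i` is a linear order on each class of `Cmp i`: the fibres of `s b` for `i = fib b`; the single
class `InN u v` for `i = co u v`.
-/

set_option autoImplicit false

namespace Pool.Agent.Lib_helper23.TF

open Cardinal Pool.Agent.Lib_helper23.SD

/-- indices of the order relations -/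
inductive Ix : Type
  | fib (b : Bool) : Ix
  | co (u v : List Bool) : Ix

/-- function symbols: two unary ones -/
inductive Fn : ℕ → Type
  | s (b : Bool) : Fn 1

/-- relation symbols: a binary one for every index -/
inductive Rl : ℕ → Type
  | lt (i : Ix) : Rl 2

/-- the language -/
def Lg : FirstOrder.Language.{0, 0} := ⟨Fn, Rl⟩

/-- a set with two functions and binary relations -/
class Alg (X : Type) where
  /-- the two functions -/
  s : Bool → X → X
  /-- the relations -/
  lt : Ix → X → X → Prop

/-- every structure of the language is such a set -/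
instance algOf (U : Type) [Lg.Structure U] : Alg U where
  s b x := FirstOrder.Language.Structure.funMap (L := Lg) (n := 1) (Fn.s b) ![x]
  lt i x y := FirstOrder.Language.Structure.RelMap (L := Lg) (n := 2) (Rl.lt i) ![x, y]

section
variable {X : Type} [Alg X]

/-- `ev w x = x_w`, the iterated image; the first letter is applied first -/
def ev : List Bool → X → X
  | [], x => x
  | b :: w, x => ev w (Alg.s b x)

/-- the set `N_{u,v}` -/
def InN (u v : List Bool) (x : X) : Prop :=
  Alg.s false x = Alg.s true x ∨ ev (false :: u) x = ev (true :: v) x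

/-- comparability for the relation number `i` -/
def Cmp : Ix → X → X → Prop
  | .fib b, x, y => Alg.s b x = Alg.s b y
  | .co u v, x, y => InN u v x ∧ InN u v y

/-- the universal axioms -/
structure Good (X : Type) [Alg X] : Prop where
  acyc : ∀ (w : List Bool) (x : X), w ≠ [] → ev w x ≠ x
  cmp : ∀ (i : Ix) (x y : X), Alg.lt i x y → Cmp i x y
  irr : ∀ (i : Ix) (x : X), ¬ Alg.lt i x x
  tr : ∀ (i : Ix) (x y z : X), Alg.lt i x y → Alg.lt i y z → Alg.lt i x z
  tot : ∀ (i : Ix) (x y : X), Cmp i x y → Alg.lt i x y ∨ x = y ∨ Alg.lt i y x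

/-- `c` is in the class number `i` of the elements `y` with `s b y = a b` -/
def InC : Ix → (Bool → X) → X → Prop
  | .fib b, a, c => Alg.s b c = a b
  | .co u v, a, c => (a false = a true ∨ ev u (a false) = ev v (a true)) ∧ InN u v c

/-- the extension axioms -/
def Ext (X : Type) [Alg X] : Prop :=
  ∀ (a : Bool → X) (I : Finset Ix) (L R : Ix → Finset X),
    (∀ i ∈ I, ∀ c ∈ L i, InC i a c) → (∀ i ∈ I, ∀ c ∈ R i, InC i a c) →
    (∀ i ∈ I, ∀ c ∈ L i, ∀ d ∈ R i, Alg.lt i c d) →
    ∃ y : X, (∀ b, Alg.s b y = a b) ∧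
      ∀ i ∈ I, (∀ c ∈ L i, Alg.lt i c y) ∧ ∀ d ∈ R i, Alg.lt i y d

/-- closed under the two functions -/
def Closed (A : Set X) : Prop := ∀ b, ∀ x ∈ A, Alg.s b x ∈ A

/-- the closure -/
def cl (S : Set X) : Set X := {z | ∃ x ∈ S, ∃ w, z = ev w x}

/-- `g` is an embedding of the closed set `S` -/
structure IsEmb {X Y : Type} [Alg X] [Alg Y] (g : X → Y) (S : Set X) : Prop where
  inj : Set.InjOn g S
  s : ∀ b, ∀ z ∈ S, g (Alg.s b z) = Alg.s b (g z)
  lt : ∀ i, ∀ z ∈ S, ∀ z' ∈ S, (Alg.lt i (g z) (g z') ↔ Alg.lt i z z')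

/-- the paths needed to decide the class number `i` of `v` are in `V` -/
def Wit (V : Set X) : Ix → X → Prop
  | .fib b, v => Alg.s b v ∈ V
  | .co u u', v => (∀ p, p <+: (false :: u) → ev p v ∈ V) ∧ ∀ p, p <+: (true :: u') → ev p v ∈ V

/-- `x` is free over `A` -/
def Free (A : Set X) (x : X) : Prop := Function.Injective (fun w => ev w x) ∧ ∀ w, ev w x ∉ A

/-- the value of a term: `t = (j, w)` is the iterated image `w` of the variable `j` -/
def val {α : Type} (x : α → X) (t : α × List Bool) : X := ev t.2 (x t.1)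

/-- a free family indexed by `K` with pairwise disjoint closures -/
def FreeFam {ι : Type} (A : Set X) (K : Set ι) (f : ι → X) : Prop :=
  (∀ k ∈ K, Free A (f k)) ∧ ∀ k ∈ K, ∀ k' ∈ K, k ≠ k' → Disjoint (cl {f k}) (cl {f k'})

end

section
variable {U : Type} [Lg.Structure U] {α : Type} [Finite α]

/-- the term `t` is new for `p`: not equal to an element of `U` -/
def New (p : Typ Lg (Set.univ : Set U) α) (t : α × List Bool) : Prop :=
  ∀ c : U, {y : α → U | val y t = c} ∉ p.sets

/-- the term `t` is comparable with an element of `U` -/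
def Anch (p : Typ Lg (Set.univ : Set U) α) (i : Ix) (t : α × List Bool) : Prop :=
  ∃ c : U, {y : α → U | Cmp i c (val y t)} ∈ p.sets

/-- the lower half of the cut of `t` is generated by elements of `A` -/
def LType (p : Typ Lg (Set.univ : Set U) α) (A : Set U) (i : Ix) (t : α × List Bool) : Prop :=
  ∀ c : U, {y : α → U | Alg.lt i c (val y t)} ∈ p.sets →
    ∃ a ∈ A, {y : α → U | Alg.lt i a (val y t)} ∈ p.sets ∧ (c = a ∨ Alg.lt i c a)

/-- the upper half of the cut of `t` is generated by elements of `A` -/
def RType (p : Typ Lg (Set.univ : Set U) α) (A : Set U) (i : Ix) (t : α × List Bool) : Prop :=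
  ∀ c : U, {y : α → U | Alg.lt i (val y t) c} ∈ p.sets →
    ∃ a ∈ A, {y : α → U | Alg.lt i (val y t) a} ∈ p.sets ∧ (c = a ∨ Alg.lt i a c)

end

end Pool.Agent.Lib_helper23.TF
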