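import Pool.Agent.Lib_helper23.TF.Defs

/-!
# MP_bc6371_lc, TF, block TR: realisations of products (any language)
-/

set_option autoImplicit false

namespace Pool.Agent.Lib_helper23.TF

open Cardinal Pool.Agent.Lib_helper23.SD Pool.Agent.Lib_helper23.TF

private theorem TR_iff {L : FirstOrder.Language.{0, 0}} {U : Type} [L.Structure U]
    {κ : Cardinal.{0}} (hκ : ℵ₀ < κ) (hs : Saturated L κ U) {α β : Type} [Finite α] [Finite β]
    (p : Typ L (Set.univ : Set U) α) (q : Typ L (Set.univ : Set U) β) {B : Set U} (hB : #B < κ)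
    (hp : InvOver L B p.sets) {D : Set (α ⊕ β → U)} (hD : B.Definable L D) {b : β → U}
    (hb : Real L q.sets B b) :
    D ∈ tensor L κ p.sets q.sets ↔ {x | Sum.elim x b ∈ D} ∈ p.sets := by
  constructor
  · rintro ⟨A', hA', hp', hD', b', hb', hm⟩
    obtain ⟨c, hc⟩ := HO_real hκ hs q (SM_union hκ hA' hB)
    have h1 := IN_rel hp' subset_rfl hD' (IN_same q hb' (IN_real hc Set.subset_union_left))
    have h2 := IN_rel hp subset_rfl hD (IN_same q hb (IN_real hc Set.subset_union_right))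
    exact h2.2 (h1.1 hm)
  · intro hm
    exact ⟨B, hB, hp, hD, b, hb, hm⟩

theorem TR_main {L : FirstOrder.Language.{0, 0}} {U : Type} [L.Structure U] {κ : Cardinal.{0}}
    (hκ : ℵ₀ < κ) (hs : Saturated L κ U) {α β : Type} [Finite α] [Finite β]
    (p : Typ L (Set.univ : Set U) α) (q : Typ L (Set.univ : Set U) β) {A B : Set U} (hAB : A ⊆ B)
    (hB : #B < κ) (hp : InvOver L A p.sets) {x : α → U} {y : β → U} (hy : Real L q.sets B y)
    (hx : Real L p.sets (B ∪ Set.range y) x) :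
    Real L (tensor L κ p.sets q.sets) B (Sum.elim x y) := by
  intro D hD hdef
  exact hx _ ((TR_iff hκ hs p q hB (IN_mono hp hAB) hdef hy).1 hD) (DF_fib hdef y)

theorem TR_proj {L : FirstOrder.Language.{0, 0}} {U : Type} [L.Structure U] {κ : Cardinal.{0}}
    (hκ : ℵ₀ < κ) (hs : Saturated L κ U) {α β : Type} [Finite α] [Finite β]
    (p : Typ L (Set.univ : Set U) α) (q : Typ L (Set.univ : Set U) β) {A B : Set U} (hAB : A ⊆ B)
    (hB : #B < κ) (hp : InvOver L A p.sets) {z : α ⊕ β → U}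
    (hz : Real L (tensor L κ p.sets q.sets) B z) :
    Real L p.sets B (z ∘ Sum.inl) ∧ Real L q.sets B (z ∘ Sum.inr) := by
  obtain ⟨c, hc⟩ := HO_real hκ hs q hB
  constructor
  · intro D hD hdef
    have hdef' : B.Definable L {w : α ⊕ β → U | w ∘ Sum.inl ∈ D} := hdef.preimage_comp _
    refine hz {w : α ⊕ β → U | w ∘ Sum.inl ∈ D} ?_ hdef'
    refine (TR_iff hκ hs p q hB (IN_mono hp hAB) hdef' hc).2 ?_
    exact hD
  · intro D hD hdef
    have hdef' : B.Definable L {w : α ⊕ β → U | w ∘ Sum.inr ∈ D} := hdef.preimage_comp _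
    refine hz {w : α ⊕ β → U | w ∘ Sum.inr ∈ D} ?_ hdef'
    refine (TR_iff hκ hs p q hB (IN_mono hp hAB) hdef' hc).2 ?_
    have hcD : c ∈ D := hc D hD hdef
    have h1 : {x : α → U | Sum.elim x c ∈ {w : α ⊕ β → U | w ∘ Sum.inr ∈ D}} = Set.univ := by
      ext x
      simp only [Set.mem_univ, iff_true]
      exact hcD
    rw [h1]
    exact IN_univ p

end Pool.Agent.Lib_helper23.TF
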