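import Pool.Agent.Lib_helper23.TF.Defs
import Pool.Agent.Lib_helper23.TF.CB
import Pool.Agent.Lib_helper23.TF.DE
import Pool.Agent.Lib_helper23.TF.QE
import Pool.Agent.Lib_helper23.TF.TR

/-!
# MP_bc6371_lc, project TF, block FB: all relations are binary
-/

set_option autoImplicit false

namespace Pool.Agent.Lib_helper23.TF

open Cardinal Pool.Agent.Lib_helper23.SD

section
variable {U : Type} [Lg.Structure U] {κ : Cardinal.{0}}

private theorem s_val {X : Type} [Alg X] {β : Type} (x : β → X) (t : β × List Bool) (b : Bool) :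
    Alg.s b (val x t) = val x (t.1, t.2 ++ [b]) := by
  simp only [val, ev_append]
  rfl

theorem FB_main (hκ : ℵ₀ < κ) (hs : Saturated Lg κ U) (hG : Good U) (hE : Ext U) {A : Set U}
    (hA : Closed A) (hAκ : #A < κ) {α : Type} [Finite α] (p : Typ Lg (Set.univ : Set U) α)
    (hp : InvOver Lg A p.sets) {A' : Set U} (hA' : Closed A') (hAA' : A ⊆ A') (hA'κ : #A' < κ)
    {y' y'' : α → U} (hy' : Real Lg p.sets A' y') (hy'' : Real Lg p.sets A' y'')
    (h : Real Lg (tensor Lg κ p.sets p.sets) A (Sum.elim y' y'')) :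
    Real Lg (tensor Lg κ p.sets p.sets) A' (Sum.elim y' y'') := by
  classical
  obtain ⟨T, hT, hTi⟩ := TT_main hκ hs p p hAκ hp hp
  obtain ⟨z, hz⟩ := HO_real hκ hs T hA'κ
  have hzt : Real Lg (tensor Lg κ p.sets p.sets) A' z := hT ▸ hz
  have hTy : Real Lg T.sets A (Sum.elim y' y'') := hT.symm ▸ h
  obtain ⟨hz1, hz2⟩ := TR_proj hκ hs p p hAA' hA'κ hp hzt
  -- same types
  have e0 : SameTp Lg A z (Sum.elim y' y'') := IN_same T (IN_real hz hAA') hTy
  have e1 : SameTp Lg A' (z ∘ Sum.inl) y' := IN_same p hz1 hy'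
  have e2 : SameTp Lg A' (z ∘ Sum.inr) y'' := IN_same p hz2 hy''
  obtain ⟨a1, -, a3, -⟩ := DE_same e0
  obtain ⟨-, b2, -, b4, b5, -⟩ := DE_same e1
  obtain ⟨-, c2, -, c4, c5, -⟩ := DE_same e2
  have f2 : ∀ t : (α ⊕ α) × List Bool, ∀ c ∈ A', val z t = c ↔ val (Sum.elim y' y'') t = c := by
    rintro ⟨j | j, w⟩ c hc
    · exact b2 (j, w) c hc
    · exact c2 (j, w) c hc
  have f4 : ∀ (i : Ix) (t : (α ⊕ α) × List Bool), ∀ c ∈ A',
      Alg.lt i c (val z t) ↔ Alg.lt i c (val (Sum.elim y' y'') t) := by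
    rintro i ⟨j | j, w⟩ c hc
    · exact b4 i (j, w) c hc
    · exact c4 i (j, w) c hc
  have f5 : ∀ (i : Ix) (t : (α ⊕ α) × List Bool), ∀ c ∈ A',
      Alg.lt i (val z t) c ↔ Alg.lt i (val (Sum.elim y' y'') t) c := by
    rintro i ⟨j | j, w⟩ c hc
    · exact b5 i (j, w) c hc
    · exact c5 i (j, w) c hc
  -- the map
  let g : U → U := fun u => if u ∈ A' then u else
    if hu : ∃ t : (α ⊕ α) × List Bool, u = val z t then val (Sum.elim y' y'') hu.choose else u
  have gA : ∀ a ∈ A', g a = a := fun a ha => by simp only [g, if_pos ha]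
  have gt : ∀ t : (α ⊕ α) × List Bool, g (val z t) = val (Sum.elim y' y'') t := by
    intro t
    by_cases ht : val z t ∈ A'
    · rw [gA _ ht]
      exact ((f2 t _ ht).1 rfl).symm
    · have hu : ∃ t' : (α ⊕ α) × List Bool, val z t = val z t' := ⟨t, rfl⟩
      have h1 : g (val z t) = val (Sum.elim y' y'') hu.choose := by
        simp only [g, if_neg ht, dif_pos hu]
      rw [h1]
      exact ((a1 _ _).1 hu.choose_spec).symm
  have hemb : IsEmb g (A' ∪ cl (Set.range z)) := by
    constructor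
    · intro u hu u' hu' he
      rcases hu with hu | hu
      · rcases hu' with hu' | hu'
        · rw [gA _ hu, gA _ hu'] at he
          exact he
        · obtain ⟨t', rfl⟩ := mem_cl_range.1 hu'
          rw [gA _ hu, gt] at he
          exact ((f2 t' u hu).2 he.symm).symm
      · obtain ⟨t, rfl⟩ := mem_cl_range.1 hu
        rcases hu' with hu' | hu'
        · rw [gA _ hu', gt] at he
          exact (f2 t u' hu').2 he
        · obtain ⟨t', rfl⟩ := mem_cl_range.1 hu'
          rw [gt, gt] at he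
          exact (a1 t t').2 he
    · intro b u hu
      rcases hu with hu | hu
      · rw [gA _ hu, gA _ (hA' b u hu)]
      · obtain ⟨t, rfl⟩ := mem_cl_range.1 hu
        rw [s_val, gt, gt, s_val]
    · intro i u hu u' hu'
      rcases hu with hu | hu
      · rcases hu' with hu' | hu'
        · rw [gA _ hu, gA _ hu']
        · obtain ⟨t', rfl⟩ := mem_cl_range.1 hu'
          rw [gA _ hu, gt]
          exact (f4 i t' u hu).symm
      · obtain ⟨t, rfl⟩ := mem_cl_range.1 hu
        rcases hu' with hu' | hu'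
        · rw [gA _ hu', gt]
          exact (f5 i t u' hu').symm
        · obtain ⟨t', rfl⟩ := mem_cl_range.1 hu'
          rw [gt, gt]
          exact (a3 i t t').symm
  have hgx : ∀ j, g (z j) = (Sum.elim y' y'' : α ⊕ α → U) j := fun j => gt (j, [])
  have hsame : SameTp Lg A' z (Sum.elim y' y'') := QE_main hκ hs hG hE hA' hA'κ hemb gA hgx
  intro D hD hDA
  exact (hsame D hDA).1 (hzt D hD hDA)

end

end Pool.Agent.Lib_helper23.TF
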