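import Pool.Agent.Lib_helper23.TF.Defs

/-!
# MP_bc6371_lc, block FR2: free elements and maximal free families
-/

set_option autoImplicit false

namespace Pool.Agent.Lib_helper23.TF

open Cardinal Pool.Agent.Lib_helper23.SD

section
variable {X : Type} [Alg X]

private theorem prim_aux (hX : Good X) (w₁ : List Bool) : ∀ (w₂ : List Bool) (x : X), w₁ ≠ w₂ →
    ev w₁ x = ev w₂ x → ∃ w u v, ev (false :: u) (ev w x) = ev (true :: v) (ev w x) := by
  induction w₁ with
  | nil =>
    intro w₂ x hne he
    exact absurd he.symm (hX.acyc w₂ x (fun h => hne h.symm))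
  | cons b u ih =>
    intro w₂ x hne he
    cases w₂ with
    | nil => exact absurd he (hX.acyc (b :: u) x (List.cons_ne_nil b u))
    | cons b' v =>
      by_cases hb : b = b'
      · subst hb
        have huv : u ≠ v := fun h => hne (by rw [h])
        obtain ⟨w, u', v', h⟩ := ih v (Alg.s b x) huv he
        exact ⟨b :: w, u', v', h⟩
      · cases b with
        | false =>
          cases b' with
          | false => exact absurd rfl hb
          | true => exact ⟨[], u, v, he⟩
        | true =>
          cases b' with
          | false => exact ⟨[], v, u, he.symm⟩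
          | true => exact absurd rfl hb

/-- If the word map of `x` is not injective, a primitive coincidence occurs in the closure
(take the longest common initial part; a proper initial part would be a cycle). -/
theorem prim_of_not_inj (hX : Good X) {x : X} (h : ¬ Function.Injective (fun w => ev w x)) :
    ∃ w u v, ev (false :: u) (ev w x) = ev (true :: v) (ev w x) := by
  unfold Function.Injective at h
  push Not at h
  obtain ⟨w₁, w₂, he, hne⟩ := h
  exact prim_aux hX w₁ w₂ x hne he

/-- Zorn: a maximal family of free terms with disjoint closures. -/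
theorem fam_max {α : Type} (A : Set X) (x : α → X) : ∃ K : Set (α × List Bool),
    FreeFam A K (val x) ∧ ∀ t, Free A (val x t) → ∃ k ∈ K, ∃ w v, ev w (val x t) = ev v (val x k) := by
  obtain ⟨K, hK⟩ := zorn_subset {K : Set (α × List Bool) | FreeFam A K (val x)} (by
    intro c hc hch
    refine ⟨⋃₀ c, ⟨?_, ?_⟩, fun s hs => Set.subset_sUnion_of_mem hs⟩
    · rintro k ⟨s, hs, hk⟩
      exact (hc hs).1 k hk
    · rintro k ⟨s, hs, hk⟩ k' ⟨s', hs', hk'⟩ hne
      rcases hch.total hs hs' with h | h
      · exact (hc hs').2 k (h hk) k' hk' hne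
      · exact (hc hs).2 k hk k' (h hk') hne)
  refine ⟨K, hK.prop, ?_⟩
  intro t ht
  by_contra hcon
  push Not at hcon
  have hdis : ∀ k ∈ K, Disjoint (cl {val x t}) (cl {val x k}) := by
    intro k hk
    rw [Set.disjoint_left]
    rintro z ⟨y, hy, w, hw⟩ ⟨y', hy', v, hv⟩
    rw [Set.mem_singleton_iff] at hy hy'
    subst hy
    subst hy'
    exact hcon k hk w v (hw.symm.trans hv)
  have hins : FreeFam A (insert t K) (val x) := by
    refine ⟨?_, ?_⟩
    · intro k hk
      rcases Set.mem_insert_iff.mp hk with h | h
      · rw [h]; exact ht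
      · exact hK.prop.1 k h
    · intro k hk k' hk' hne
      rcases Set.mem_insert_iff.mp hk with h | h
      · rcases Set.mem_insert_iff.mp hk' with h' | h'
        · exact absurd (h.trans h'.symm) hne
        · rw [h]; exact hdis k' h'
      · rcases Set.mem_insert_iff.mp hk' with h' | h'
        · rw [h']; exact (hdis k h).symm
        · exact hK.prop.2 k h k' h' hne
  have htK : t ∈ K := hK.le_of_ge hins (Set.subset_insert t K) (Set.mem_insert t K)
  exact hcon t htK [] [] rfl

private theorem first_in {A : Set X} (w : List Bool) : ∀ (x : X), x ∉ A → ev w x ∈ A →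
    ∃ w', ev w' x ∉ A ∧ ∃ b, Alg.s b (ev w' x) ∈ A := by
  induction w with
  | nil => intro x hx h; exact absurd h hx
  | cons b w ih =>
    intro x hx h
    by_cases hs : Alg.s b x ∈ A
    · exact ⟨[], hx, b, hs⟩
    · obtain ⟨w', h1, b', h2⟩ := ih (Alg.s b x) hs h
      exact ⟨b :: w', h1, b', h2⟩

/-- If `x` is outside the closed set `A` and not free over `A`, then some descendant `ev w x`
outside `A` has a child in `A` or a coincidence. -/
theorem anch_of_not_free (hX : Good X) {A : Set X} (hA : Closed A) {x : X} (hx : x ∉ A)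
    (h : ¬ Free A x) : ∃ w, ev w x ∉ A ∧ ((∃ b, Alg.s b (ev w x) ∈ A) ∨ ∃ u v, InN u v (ev w x)) := by
  by_cases h1 : ∃ w, ev w x ∈ A
  · obtain ⟨w, hw⟩ := h1
    obtain ⟨w', h2, h3⟩ := first_in w x hx hw
    exact ⟨w', h2, Or.inl h3⟩
  · push Not at h1
    have h2 : ¬ Function.Injective (fun w => ev w x) := fun hi => h ⟨hi, h1⟩
    obtain ⟨w, u, v, he⟩ := prim_of_not_inj hX h2
    exact ⟨w, h1 w, Or.inr ⟨u, v, Or.inr he⟩⟩

end

end Pool.Agent.Lib_helper23.TF
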