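import Pool.Agent.Lib_helper23.TF.Defs
import Pool.Agent.Lib_helper23.TF.CB
import Pool.Agent.Lib_helper23.TF.FR2
import Pool.Agent.Lib_helper23.TF.DE
import Pool.Agent.Lib_helper23.TF.QE
import Pool.Agent.Lib_helper23.TF.NW

/-!
# MP_bc6371_lc, block FS: the configuration forces the type of one tuple
-/

set_option autoImplicit false

namespace Pool.Agent.Lib_helper23.TF

open Cardinal Pool.Agent.Lib_helper23.SD

section
variable {U : Type} [Lg.Structure U] {κ : Cardinal.{0}}

private theorem val_app {X α : Type} [Alg X] (x : α → X) (t : α × List Bool) (w : List Bool) :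
    val x (t.1, t.2 ++ w) = ev w (val x t) := ev_append t.2 w (x t.1)

private theorem s_val {X α : Type} [Alg X] (x : α → X) (t : α × List Bool) (b : Bool) :
    val x (t.1, t.2 ++ [b]) = Alg.s b (val x t) := ev_append t.2 [b] (x t.1)

/-- the cuts are respected -/
private theorem step (hG : Good U) {A : Set U} {α : Type} [Finite α]
    (p : Typ Lg (Set.univ : Set U) α)
    (hd : ∀ i t, New p t → LType p A i t ∨ RType p A i t)
    {A' : Set U} {Y z : α → U}
    (hY : Real Lg p.sets A' Y) (hz : Real Lg p.sets A z)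
    (hL : ∀ i t, New p t → Anch p i t → LType p A i t → Alg.lt i (val z t) (val Y t))
    (hR : ∀ i t, New p t → Anch p i t → RType p A i t → Alg.lt i (val Y t) (val z t))
    {t : α × List Bool} (ht : New p t) {c : U} (hc : c ∈ A') (i : Ix) :
    (Alg.lt i c (val Y t) → Alg.lt i c (val z t)) ∧
      (Alg.lt i (val Y t) c → Alg.lt i (val z t) c) := by
  have hcmp : Cmp i c (val Y t) → Anch p i t := by
    intro h
    exact ⟨c, (IN_iff p hY (DE_cmp hc i t)).1 h⟩
  constructor
  · intro h
    have han := hcmp (hG.cmp i _ _ h)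
    have hp1 : {y : α → U | Alg.lt i c (val y t)} ∈ p.sets := (IN_iff p hY (DE_clt hc i t)).1 h
    rcases hd i t ht with hl | hr
    · obtain ⟨a, ha, hpa, hca⟩ := hl c hp1
      have hza : Alg.lt i a (val z t) := hz _ hpa (DE_clt ha i t)
      rcases hca with rfl | hca
      · exact hza
      · exact hG.tr i _ _ _ hca hza
    · exact hG.tr i _ _ _ h (hR i t ht han hr)
  · intro h
    have han := hcmp (cmp_symm (hG.cmp i _ _ h))
    have hp1 : {y : α → U | Alg.lt i (val y t) c} ∈ p.sets := (IN_iff p hY (DE_ltc hc i t)).1 h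
    rcases hd i t ht with hl | hr
    · exact hG.tr i _ _ _ (hL i t ht han hl) h
    · obtain ⟨a, ha, hpa, hca⟩ := hr c hp1
      have hza : Alg.lt i (val z t) a := hz _ hpa (DE_ltc ha i t)
      rcases hca with rfl | hca
      · exact hza
      · exact hG.tr i _ _ _ hza hca

theorem FS_main (hκ : ℵ₀ < κ) (hs : Saturated Lg κ U) (hG : Good U) (hE : Ext U) {A : Set U}
    (hA : Closed A) (hAκ : #A < κ) {α : Type} [Finite α] (p : Typ Lg (Set.univ : Set U) α)
    (hp : InvOver Lg A p.sets) (hd : ∀ i t, New p t → LType p A i t ∨ RType p A i t)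
    {A' : Set U} (hA' : Closed A') (hAA' : A ⊆ A') (hA'κ : #A' < κ) {Y z : α → U}
    {K : Set (α × List Bool)} (hY : Real Lg p.sets A' Y) (hz : Real Lg p.sets A z)
    (hK : FreeFam A K (val Y))
    (hmax : ∀ t, Free A (val Y t) → ∃ k ∈ K, ∃ w v, ev w (val Y t) = ev v (val Y k))
    (b : Bool) (hk : ∀ k ∈ K, val z k = Alg.s b (val Y k))
    (hL : ∀ i t, New p t → Anch p i t → LType p A i t → Alg.lt i (val z t) (val Y t))
    (hR : ∀ i t, New p t → Anch p i t → RType p A i t → Alg.lt i (val Y t) (val z t)) :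
    Real Lg p.sets A' z := by
  classical
  have hYA : Real Lg p.sets A Y := IN_real hY hAA'
  have hsame : SameTp Lg A Y z := IN_same p hYA hz
  obtain ⟨h_eq, h_eqc, h_lt, -, -, -, h_inN, -, -⟩ := DE_same hsame
  -- values of `Y` in `A'` are in `A`
  have hnw : ∀ t, val Y t ∈ A' → val Y t ∈ A := by
    intro t h
    exact NW_main hκ hs hG hE hA hAκ p hp ((IN_iff p hY (DE_eqc h t)).1 rfl)
  have hnew : ∀ t, val Y t ∉ A' → New p t := by
    intro t h c hc
    have hcA : c ∈ A := NW_main hκ hs hG hE hA hAκ p hp hc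
    have hval : val Y t = c := hYA _ hc (DE_eqc hcA t)
    exact h (hval ▸ hAA' hcA)
  have hnotA : ∀ t, New p t → val Y t ∉ A' := by
    intro t ht h
    exact ht _ ((IN_iff p hY (DE_eqc h t)).1 rfl)
  have hst : ∀ t, New p t → ∀ c ∈ A', ∀ i, (Alg.lt i c (val Y t) → Alg.lt i c (val z t)) ∧
      (Alg.lt i (val Y t) c → Alg.lt i (val z t) c) := fun t ht c hc i =>
    step hG p hd hY hz hL hR ht hc i
  -- (i) new terms have no value in `A'`
  have hi : ∀ t, New p t → val z t ∉ A' := by
    intro t ht hzt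
    by_cases hf : Free A (val Y t)
    · obtain ⟨k, hkK, w, v, hwv⟩ := hmax t hf
      have h1 : val Y (t.1, t.2 ++ w) = val Y (k.1, k.2 ++ v) := by
        rw [val_app, val_app]; exact hwv
      have h2 : val z (t.1, t.2 ++ w) = val z (k.1, k.2 ++ v) := (h_eq _ _).1 h1
      rw [val_app, val_app, hk k hkK] at h2
      have h3 : ev w (val z t) ∈ A' := ev_mem hA' hzt w
      have h4 : val Y (k.1, k.2 ++ (b :: v)) ∈ A' := by
        rw [val_app]
        change ev v (Alg.s b (val Y k)) ∈ A'
        rw [← h2]; exact h3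
      have h5 := hnw _ h4
      rw [val_app] at h5
      exact (hK.1 k hkK).2 (b :: v) h5
    · have hnA : val Y t ∉ A := fun h => hnotA t ht (hAA' h)
      obtain ⟨w, hw, hw'⟩ := anch_of_not_free hG hA hnA hf
      have hwY : val Y (t.1, t.2 ++ w) ∉ A := by rw [val_app]; exact hw
      have htn : New p (t.1, t.2 ++ w) := hnew _ (fun h => hwY (hnw _ h))
      have hcA' : val z (t.1, t.2 ++ w) ∈ A' := by rw [val_app]; exact ev_mem hA' hzt w
      have hcmp : ∃ i, Cmp i (val z (t.1, t.2 ++ w)) (val Y (t.1, t.2 ++ w)) := by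
        rcases hw' with ⟨b0, hb0⟩ | ⟨u, v, huv⟩
        · refine ⟨Ix.fib b0, ?_⟩
          change Alg.s b0 (val z (t.1, t.2 ++ w)) = Alg.s b0 (val Y (t.1, t.2 ++ w))
          rw [← val_app Y t w, ← s_val] at hb0
          rw [← s_val, ← s_val]
          exact (h_eqc _ _ hb0).1 rfl
        · refine ⟨Ix.co u v, ?_⟩
          rw [← val_app Y t w] at huv
          exact ⟨(h_inN u v _).1 huv, huv⟩
      obtain ⟨i, hic⟩ := hcmp
      rcases hG.tot i _ _ hic with h | h | h
      · exact hG.irr i _ ((hst _ htn _ hcA' i).1 h)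
      · exact hnotA _ htn (h ▸ hcA')
      · exact hG.irr i _ ((hst _ htn _ hcA' i).2 h)
  -- (ii) comparability with elements of `A'`
  have hcm : ∀ t, New p t → ∀ c ∈ A', ∀ i, Cmp i c (val z t) → Cmp i c (val Y t) := by
    intro t ht c hc i h
    rcases i with b0 | ⟨u, v⟩
    · change Alg.s b0 c = Alg.s b0 (val z t) at h
      change Alg.s b0 c = Alg.s b0 (val Y t)
      rw [← s_val] at h ⊢
      have h1 : val z (t.1, t.2 ++ [b0]) ∈ A' := h ▸ hA' b0 c hc
      have h2 : ¬ New p (t.1, t.2 ++ [b0]) := fun hn => hi _ hn h1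
      have h3 : val Y (t.1, t.2 ++ [b0]) ∈ A' := by
        by_contra h4
        exact h2 (hnew _ h4)
      have h4 := (h_eqc _ _ (hnw _ h3)).1 rfl
      rw [h, h4]
    · exact ⟨h.1, (h_inN u v t).2 h.2⟩
  have hii : ∀ t, New p t → ∀ c ∈ A', ∀ i, (Alg.lt i c (val z t) ↔ Alg.lt i c (val Y t)) ∧
      (Alg.lt i (val z t) c ↔ Alg.lt i (val Y t) c) := by
    intro t ht c hc i
    have hne : c ≠ val Y t := fun h => hnotA t ht (h ▸ hc)
    refine ⟨⟨fun h => ?_, (hst t ht c hc i).1⟩, ⟨fun h => ?_, (hst t ht c hc i).2⟩⟩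
    · rcases hG.tot i _ _ (hcm t ht c hc i (hG.cmp i _ _ h)) with h' | h' | h'
      · exact h'
      · exact absurd h' hne
      · exact absurd (hG.tr i _ _ _ h ((hst t ht c hc i).2 h')) (hG.irr i _)
    · rcases hG.tot i _ _ (hcm t ht c hc i (cmp_symm (hG.cmp i _ _ h))) with h' | h' | h'
      · exact absurd (hG.tr i _ _ _ h ((hst t ht c hc i).1 h')) (hG.irr i _)
      · exact absurd h' hne
      · exact h'
  -- the map
  let g : U → U := fun u => if u ∈ A' then u else
    if h : ∃ t, u = val Y t then val z h.choose else u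
  have hgA : ∀ a ∈ A', g a = a := fun a ha => by simp only [g, if_pos ha]
  have hgY : ∀ t, g (val Y t) = val z t := by
    intro t
    by_cases h : val Y t ∈ A'
    · rw [hgA _ h]
      exact ((h_eqc t _ (hnw t h)).1 rfl).symm
    · have hex : ∃ t', val Y t = val Y t' := ⟨t, rfl⟩
      have h1 : g (val Y t) = val z hex.choose := by
        simp only [g, if_neg h]
        rw [dif_pos hex]
      rw [h1]
      exact ((h_eq _ _).1 hex.choose_spec).symm
  have hcl : ∀ u ∈ A' ∪ cl (Set.range Y), u ∈ A' ∨ (∃ t, u = val Y t ∧ New p t) := by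
    intro u hu
    by_cases h : u ∈ A'
    · exact Or.inl h
    · rcases hu with hu | hu
      · exact Or.inl hu
      · obtain ⟨t, rfl⟩ := mem_cl_range.1 hu
        exact Or.inr ⟨t, rfl, hnew t h⟩
  have hemb : IsEmb g (A' ∪ cl (Set.range Y)) := by
    refine ⟨?_, ?_, ?_⟩
    · intro u hu u' hu' huu
      rcases hcl u hu with h | ⟨t, rfl, ht⟩ <;> rcases hcl u' hu' with h' | ⟨t', rfl, ht'⟩
      · rwa [hgA _ h, hgA _ h'] at huu
      · rw [hgA _ h, hgY] at huu
        exact absurd (huu ▸ h) (hi t' ht')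
      · rw [hgA _ h', hgY] at huu
        exact absurd (huu.symm ▸ h') (hi t ht)
      · rw [hgY, hgY] at huu
        exact (h_eq _ _).2 huu
    · intro b0 u hu
      rcases hcl u hu with h | ⟨t, rfl, ht⟩
      · rw [hgA _ h, hgA _ (hA' b0 u h)]
      · rw [← s_val, hgY, hgY, s_val]
    · intro i u hu u' hu'
      rcases hcl u hu with h | ⟨t, rfl, ht⟩ <;> rcases hcl u' hu' with h' | ⟨t', rfl, ht'⟩
      · rw [hgA _ h, hgA _ h']
      · rw [hgA _ h, hgY]
        exact (hii t' ht' u h i).1
      · rw [hgA _ h', hgY]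
        exact (hii t ht u' h' i).2
      · rw [hgY, hgY]
        exact (h_lt i t t').symm
  have hfin : SameTp Lg A' Y z := QE_main hκ hs hG hE hA' hA'κ hemb hgA (fun j => hgY (j, []))
  intro D hD hdef
  exact (hfin D hdef).1 (hY D hD hdef)

end

end Pool.Agent.Lib_helper23.TF
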