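import Pool.Agent.Lib_helper23.TF.Defs
import Pool.Agent.Lib_helper23.TF.CB
import Pool.Agent.Lib_helper23.TF.FR1

/-! # MP_bc6371_lc, project TF, block GN (cites CB, FR1) -/

set_option autoImplicit false
set_option linter.style.haveILetI false
set_option linter.unusedSectionVars false

namespace Pool.Agent.Lib_helper23.TF

open Cardinal Pool.Agent.Lib_helper23.SD Pool.Agent.Lib_helper23.TF

section
variable {X : Type} [Alg X] {ι : Type}

/-- the closure of a family -/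
private def DD (K : Set ι) (f : ι → X) : Set X := {z | ∃ k ∈ K, ∃ w, z = ev w (f k)}

open Classical in
/-- the map `ev w (f k) ↦ ev w (g k)`, the identity elsewhere -/
private noncomputable def GG (K : Set ι) (f g : ι → X) (z : X) : X :=
  if h : ∃ p : ι × List Bool, p.1 ∈ K ∧ z = ev p.2 (f p.1) then ev h.choose.2 (g h.choose.1) else z

open Classical in
/-- the position in the class of the glued structure -/
private noncomputable def rk (B : Set X) (K : Set ι) (f g : ι → X) : Ix → X → ℕ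
  | .fib b, x =>
    if x ∈ B then
      if ∃ k ∈ K, ∃ w, Alg.s b x = Alg.s b (ev w (g k)) ∧ ¬ Alg.lt (.fib b) x (ev w (g k))
        then 2 else 0
    else if Alg.s b x ∈ DD K f then
      if ∃ k ∈ K, ∃ w, Alg.s b x = Alg.s b (ev w (f k)) ∧ Alg.lt (.fib b) x (ev w (f k))
        then 1 else 3
    else 0
  | .co _ _, _ => 0

/-- comparability in the glued structure, in terms of `X` -/
private def CC (K : Set ι) (f g : ι → X) : Ix → X → X → Prop
  | .fib b, x, y => GG K f g (Alg.s b x) = GG K f g (Alg.s b y)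
  | .co u v, x, y => InN u v x ∧ InN u v y

/-- the relations of the glued structure, in terms of `X` -/
private def LT (B : Set X) (K : Set ι) (f g : ι → X) (i : Ix) (x y : X) : Prop :=
  CC K f g i x y ∧ (rk B K f g i x < rk B K f g i y ∨
    (rk B K f g i x = rk B K f g i y ∧ Alg.lt i x y))

/-- the hypotheses -/
private structure Ctx (A B S : Set X) (K : Set ι) (f g : ι → X) : Prop where
  hX : Good X
  hA : Closed A
  hB : Closed B
  hS : Closed S
  hAB : A ⊆ B
  hAS : A ⊆ S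
  hSB : ∀ z ∈ S, z ∈ B → z ∈ A
  hf : FreeFam A K f
  hg : FreeFam A K g
  hfS : ∀ k ∈ K, f k ∈ S
  hgB : ∀ k ∈ K, g k ∈ B

namespace Ctx

variable {A B S : Set X} {K : Set ι} {f g : ι → X} (c : Ctx A B S K f g)
include c

private theorem snoc (b : Bool) (w : List Bool) (z : X) : Alg.s b (ev w z) = ev (w ++ [b]) z := by
  rw [ev_append]; rfl

private theorem G_D {k : ι} (hk : k ∈ K) (w : List Bool) :
    GG K f g (ev w (f k)) = ev w (g k) := by
  have h : ∃ p : ι × List Bool, p.1 ∈ K ∧ ev w (f k) = ev p.2 (f p.1) := ⟨(k, w), hk, rfl⟩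
  have h1 : GG K f g (ev w (f k)) = ev h.choose.2 (g h.choose.1) := dif_pos h
  have h2 := fam_inj c.hf hk h.choose_spec.1 h.choose_spec.2
  rw [h1, ← h2.1, ← h2.2]

private theorem G_not {z : X} (hz : z ∉ DD K f) : GG K f g z = z := by
  apply dif_neg
  rintro ⟨p, hp, h⟩
  exact hz ⟨p.1, hp, p.2, h⟩

private theorem D_S {z : X} (hz : z ∈ DD K f) : z ∈ S := by
  obtain ⟨k, hk, w, rfl⟩ := hz
  exact ev_mem c.hS (c.hfS k hk) w

private theorem D_A {z : X} (hz : z ∈ DD K f) : z ∉ A := by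
  obtain ⟨k, hk, w, rfl⟩ := hz
  exact (c.hf.1 k hk).2 w

private theorem D_B {z : X} (hz : z ∈ DD K f) : z ∉ B := fun h =>
  c.D_A hz (c.hSB z (c.D_S hz) h)

private theorem D'_A {z : X} (hz : z ∈ DD K g) : z ∉ A := by
  obtain ⟨k, hk, w, rfl⟩ := hz
  exact (c.hg.1 k hk).2 w

private theorem D'_B {z : X} (hz : z ∈ DD K g) : z ∈ B := by
  obtain ⟨k, hk, w, rfl⟩ := hz
  exact ev_mem c.hB (c.hgB k hk) w

private theorem D_cl {K : Set ι} {f : ι → X} {z : X} (hz : z ∈ DD K f) (b : Bool) :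
    Alg.s b z ∈ DD K f := by
  obtain ⟨k, hk, w, rfl⟩ := hz
  exact ⟨k, hk, w ++ [b], c.snoc b w _⟩

private theorem G_D' {z : X} (hz : z ∈ DD K f) : GG K f g z ∈ DD K g := by
  obtain ⟨k, hk, w, rfl⟩ := hz
  exact ⟨k, hk, w, c.G_D hk w⟩

private theorem G_B {z : X} (hz : z ∈ B) : GG K f g z = z := c.G_not fun h => c.D_B h hz

private theorem G_inj {z z' : X} (hz : z ∈ S) (hz' : z' ∈ S) (h : GG K f g z = GG K f g z') :
    z = z' := by
  by_cases h1 : z ∈ DD K f <;> by_cases h2 : z' ∈ DD K f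
  · obtain ⟨k, hk, w, rfl⟩ := h1
    obtain ⟨k', hk', w', rfl⟩ := h2
    rw [c.G_D hk, c.G_D hk'] at h
    obtain ⟨rfl, rfl⟩ := fam_inj c.hg hk hk' h
    rfl
  · rw [c.G_not h2] at h
    have h3 := c.G_D' h1
    rw [h] at h3
    exact absurd (c.hSB z' hz' (c.D'_B h3)) (c.D'_A h3)
  · rw [c.G_not h1] at h
    have h3 := c.G_D' h2
    rw [← h] at h3
    exact absurd (c.hSB z hz (c.D'_B h3)) (c.D'_A h3)
  · rwa [c.G_not h1, c.G_not h2] at h

private theorem G_s {z : X} (b : Bool) (hz : z ∈ S) :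
    GG K f g (Alg.s b (GG K f g z)) = GG K f g (Alg.s b z) := by
  by_cases h1 : z ∈ DD K f
  · obtain ⟨k, hk, w, rfl⟩ := h1
    rw [c.G_D hk, c.snoc, c.snoc, c.G_D hk]
    exact c.G_B (ev_mem c.hB (c.hgB k hk) _)
  · rw [c.G_not h1]

private theorem G_mem {z : X} (hz : z ∈ S) :
    GG K f g z ∈ B ∨ (GG K f g z ∈ S ∧ GG K f g z ∉ DD K f) := by
  by_cases h1 : z ∈ DD K f
  · exact Or.inl (c.D'_B (c.G_D' h1))
  · rw [c.G_not h1]
    exact Or.inr ⟨hz, h1⟩

private theorem s_mem {x : X} (b : Bool) (hx : x ∈ B ∨ (x ∈ S ∧ x ∉ DD K f)) :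
    GG K f g (Alg.s b x) ∈ B ∨ (GG K f g (Alg.s b x) ∈ S ∧ GG K f g (Alg.s b x) ∉ DD K f) := by
  rcases hx with hx | hx
  · left
    rw [c.G_B (c.hB b x hx)]
    exact c.hB b x hx
  · exact c.G_mem (c.hS b x hx.1)

/-- the glued structure -/
@[instance_reducible]
private noncomputable def alg : Alg {x : X // x ∈ B ∨ (x ∈ S ∧ x ∉ DD K f)} where
  s b x := ⟨GG K f g (Alg.s b x.1), c.s_mem b x.2⟩
  lt i x y := LT B K f g i x.1 y.1

omit c in
/-- ranks of elements of `B` -/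
private theorem rk_B {b : Bool} {x : X} (hx : x ∈ B) :
    (rk B K f g (.fib b) x = 2 ∧
      ∃ k ∈ K, ∃ w, Alg.s b x = Alg.s b (ev w (g k)) ∧ ¬ Alg.lt (.fib b) x (ev w (g k))) ∨
    (rk B K f g (.fib b) x = 0 ∧
      ∀ k ∈ K, ∀ w, Alg.s b x = Alg.s b (ev w (g k)) → Alg.lt (.fib b) x (ev w (g k))) := by
  by_cases h : ∃ k ∈ K, ∃ w, Alg.s b x = Alg.s b (ev w (g k)) ∧
      ¬ Alg.lt (.fib b) x (ev w (g k))
  · left
    refine ⟨?_, h⟩
    simp only [rk, if_pos hx, if_pos h]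
  · right
    refine ⟨?_, ?_⟩
    · simp only [rk, if_pos hx, if_neg h]
    · intro k hk w hw
      by_contra h1
      exact h ⟨k, hk, w, hw, h1⟩

omit c in
private theorem rk_D {b : Bool} {x : X} (hx : x ∉ B) (hD : Alg.s b x ∈ DD K f) :
    (rk B K f g (.fib b) x = 1 ∧
      ∃ k ∈ K, ∃ w, Alg.s b x = Alg.s b (ev w (f k)) ∧ Alg.lt (.fib b) x (ev w (f k))) ∨
    (rk B K f g (.fib b) x = 3 ∧
      ∀ k ∈ K, ∀ w, Alg.s b x = Alg.s b (ev w (f k)) → ¬ Alg.lt (.fib b) x (ev w (f k))) := by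
  by_cases h : ∃ k ∈ K, ∃ w, Alg.s b x = Alg.s b (ev w (f k)) ∧ Alg.lt (.fib b) x (ev w (f k))
  · left
    refine ⟨?_, h⟩
    simp only [rk, if_neg hx, if_pos hD, if_pos h]
  · right
    refine ⟨?_, ?_⟩
    · simp only [rk, if_neg hx, if_pos hD, if_neg h]
    · intro k hk w hw h1
      exact h ⟨k, hk, w, hw, h1⟩

omit c in
private theorem rk_0 {b : Bool} {x : X} (hx : x ∉ B) (hD : Alg.s b x ∉ DD K f) :
    rk B K f g (.fib b) x = 0 := by
  simp only [rk, if_neg hx, if_neg hD]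

private theorem rk_B0 {b : Bool} {x : X} (hx : x ∈ B) (hD : Alg.s b x ∉ DD K g) :
    rk B K f g (.fib b) x = 0 := by
  rcases rk_B (f := f) (g := g) (K := K) (b := b) hx with ⟨-, k, hk, w, hw, -⟩ | h
  · exfalso
    apply hD
    rw [hw, c.snoc]
    exact ⟨k, hk, _, rfl⟩
  · exact h.1

/-- elements of `B`: the order is that of `X` -/
private theorem LT_B {i : Ix} {x y : X} (hx : x ∈ B) (hy : y ∈ B) :
    LT B K f g i x y ↔ Alg.lt i x y := by
  cases i with
  | co u v =>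
    constructor
    · rintro ⟨-, h | h⟩
      · exact absurd h (lt_irrefl 0)
      · exact h.2
    · intro h
      exact ⟨c.hX.cmp _ _ _ h, Or.inr ⟨rfl, h⟩⟩
  | fib b =>
    have hC : CC K f g (.fib b) x y ↔ Alg.s b x = Alg.s b y := by
      show GG K f g (Alg.s b x) = GG K f g (Alg.s b y) ↔ _
      rw [c.G_B (c.hB b x hx), c.G_B (c.hB b y hy)]
    constructor
    · rintro ⟨h1, h2⟩
      rw [hC] at h1
      rcases h2 with h2 | h2
      · rcases rk_B (f := f) (g := g) (K := K) (b := b) hx with h3 | h3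
        · rcases rk_B (f := f) (g := g) (K := K) (b := b) hy with h4 | h4 <;> omega
        · rcases rk_B (f := f) (g := g) (K := K) (b := b) hy with ⟨h4, k, hk, w, hw, hn⟩ | h4
          · have h5 := h3.2 k hk w (h1.trans hw)
            rcases c.hX.tot (.fib b) y (ev w (g k)) hw with h6 | h6 | h6
            · exact absurd h6 hn
            · rw [h6]; exact h5
            · exact c.hX.tr _ _ _ _ h5 h6
          · omega
      · exact h2.2
    · intro h
      have h1 : Alg.s b x = Alg.s b y := c.hX.cmp _ _ _ h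
      refine ⟨hC.2 h1, ?_⟩
      rcases rk_B (f := f) (g := g) (K := K) (b := b) hx with ⟨h3, k, hk, w, hw, hn⟩ | h3
      · rcases rk_B (f := f) (g := g) (K := K) (b := b) hy with h4 | h4
        · exact Or.inr ⟨by omega, h⟩
        · exact absurd (c.hX.tr _ _ _ _ h (h4.2 k hk w (h1.symm.trans hw))) hn
      · rcases rk_B (f := f) (g := g) (K := K) (b := b) hy with h4 | h4
        · exact Or.inl (by omega)
        · exact Or.inr ⟨by omega, h⟩

/-- comparability of elements of `S` -/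
private theorem CC_S {i : Ix} {x y : X} (hx : x ∈ S) (hy : y ∈ S) :
    CC K f g i (GG K f g x) (GG K f g y) ↔ Cmp i x y := by
  have hN : ∀ (u v : List Bool) {z : X}, z ∈ S → (InN u v (GG K f g z) ↔ InN u v z) := by
    intro u v z hz
    by_cases h1 : z ∈ DD K f
    · obtain ⟨k, hk, w, rfl⟩ := h1
      rw [c.G_D hk]
      exact iff_of_false (free_inN (free_ev (c.hg.1 k hk) w) u v)
        (free_inN (free_ev (c.hf.1 k hk) w) u v)
    · rw [c.G_not h1]
  cases i with
  | fib b =>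
    show GG K f g (Alg.s b (GG K f g x)) = GG K f g (Alg.s b (GG K f g y)) ↔ Alg.s b x = Alg.s b y
    rw [c.G_s b hx, c.G_s b hy]
    exact ⟨fun h => c.G_inj (c.hS b x hx) (c.hS b y hy) h, fun h => by rw [h]⟩
  | co u v =>
    show InN u v (GG K f g x) ∧ InN u v (GG K f g y) ↔ InN u v x ∧ InN u v y
    rw [hN u v hx, hN u v hy]

/-- elements of `S`: the order is that of `X` -/
private theorem LT_S {i : Ix} {x y : X} (hx : x ∈ S) (hy : y ∈ S) :
    LT B K f g i (GG K f g x) (GG K f g y) ↔ Alg.lt i x y := by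
  by_cases hC : Cmp i x y
  swap
  · refine iff_of_false (fun h => hC ((c.CC_S hx hy).1 h.1)) fun h => hC (c.hX.cmp _ _ _ h)
  have hC' := (c.CC_S hx hy).2 hC
  have hL : LT B K f g i (GG K f g x) (GG K f g y) ↔
      (rk B K f g i (GG K f g x) < rk B K f g i (GG K f g y) ∨
        (rk B K f g i (GG K f g x) = rk B K f g i (GG K f g y) ∧
          Alg.lt i (GG K f g x) (GG K f g y))) := ⟨fun h => h.2, fun h => ⟨hC', h⟩⟩
  rw [hL]
  cases i with
  | co u v =>
    have hD : ∀ z, InN u v z → z ∉ DD K f := by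
      rintro z hz ⟨k, hk, w, rfl⟩
      exact free_inN (free_ev (c.hf.1 k hk) w) u v hz
    rw [c.G_not (hD x hC.1), c.G_not (hD y hC.2)]
    exact ⟨fun h => h.elim (fun h => absurd h (lt_irrefl 0)) fun h => h.2, fun h => Or.inr ⟨rfl, h⟩⟩
  | fib b =>
    have hC1 : Alg.s b x = Alg.s b y := hC
    by_cases hD : Alg.s b x ∈ DD K f
    · -- the class of an element of `D`
      have key : ∀ z ∈ S, Alg.s b z = Alg.s b x →
          (z ∉ DD K f ∧ GG K f g z = z ∧ z ∉ B ∧
            ((rk B K f g (.fib b) z = 1 ∧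
              ∃ k ∈ K, ∃ w, Alg.s b z = Alg.s b (ev w (f k)) ∧ Alg.lt (.fib b) z (ev w (f k))) ∨
            (rk B K f g (.fib b) z = 3 ∧
              ∀ k ∈ K, ∀ w, Alg.s b z = Alg.s b (ev w (f k)) →
                ¬ Alg.lt (.fib b) z (ev w (f k))))) ∨
          (rk B K f g (.fib b) (GG K f g z) = 2 ∧ ∃ k ∈ K, ∃ w, z = ev w (f k)) := by
        intro z hz hzx
        by_cases h1 : z ∈ DD K f
        · right
          obtain ⟨k, hk, w, rfl⟩ := h1
          refine ⟨?_, k, hk, w, rfl⟩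
          rw [c.G_D hk]
          rcases rk_B (f := f) (g := g) (K := K) (b := b) (ev_mem c.hB (c.hgB k hk) w) with
            h2 | h2
          · exact h2.1
          · exact absurd (h2.2 k hk w rfl) (c.hX.irr _ _)
        · left
          have h2 : z ∉ B := by
            intro h2
            have h3 := c.hSB z hz h2
            have h4 := c.hA b z h3
            rw [hzx] at h4
            exact c.D_A hD h4
          exact ⟨h1, c.G_not h1, h2, rk_D h2 (by rw [hzx]; exact hD)⟩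
      -- uniqueness of `d`
      have huniq : ∀ z z' : X, z ∈ DD K f → z' ∈ DD K f → Alg.s b z = Alg.s b z' → z = z' := by
        rintro z z' ⟨k, hk, w, rfl⟩ ⟨k', hk', w', rfl⟩ h
        exact (fam_cmp c.hX c.hA c.hf hk (i := .fib b) (Or.inr ⟨k', hk', w', rfl⟩) h).symm
      rcases key x hx rfl with ⟨x1, x2, x3, x4⟩ | ⟨x1, kx, hkx, wx, hwx⟩
      · rcases key y hy hC1.symm with ⟨y1, y2, y3, y4⟩ | ⟨y1, ky, hky, wy, hwy⟩
        · rw [x2, y2]
          rcases x4 with ⟨x4, k, hk, w, hw, hlt⟩ | x4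
          · rcases y4 with y4 | y4
            · exact ⟨fun h => h.elim (fun h => by omega) fun h => h.2, fun h =>
                Or.inr ⟨by omega, h⟩⟩
            · refine ⟨fun _ => ?_, fun _ => Or.inl (by omega)⟩
              have h1 := y4.2 k hk w (hC1.symm.trans hw)
              rcases c.hX.tot (.fib b) y (ev w (f k)) (hC1.symm.trans hw) with h2 | h2 | h2
              · exact absurd h2 h1
              · exact absurd ⟨k, hk, w, h2⟩ y1
              · exact c.hX.tr _ _ _ _ hlt h2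
          · rcases y4 with ⟨y4, k, hk, w, hw, hlt⟩ | y4
            · refine ⟨fun h => h.elim (fun h => by omega) fun h => by omega, fun h => ?_⟩
              exact absurd (c.hX.tr _ _ _ _ h hlt) (x4.2 k hk w (hC1.trans hw))
            · exact ⟨fun h => h.elim (fun h => by omega) fun h => h.2, fun h =>
                Or.inr ⟨by omega, h⟩⟩
        · -- `y = d`
          rw [x2, y1]
          rcases x4 with ⟨x4, k, hk, w, hw, hlt⟩ | x4
          · refine ⟨fun _ => ?_, fun _ => Or.inl (by omega)⟩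
            have h1 := huniq y (ev w (f k)) ⟨ky, hky, wy, hwy⟩ ⟨k, hk, w, rfl⟩
              (hC1.symm.trans hw)
            rw [h1]; exact hlt
          · refine ⟨fun h => h.elim (fun h => by omega) fun h => by omega, fun h => ?_⟩
            rw [hwy] at h hC1
            exact absurd h (x4.2 ky hky wy hC1)
      · rcases key y hy hC1.symm with ⟨y1, y2, y3, y4⟩ | ⟨y1, ky, hky, wy, hwy⟩
        · rw [x1, y2]
          rcases y4 with ⟨y4, k, hk, w, hw, hlt⟩ | y4
          · refine ⟨fun h => h.elim (fun h => by omega) fun h => by omega, fun h => ?_⟩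
            have h1 := huniq x (ev w (f k)) ⟨kx, hkx, wx, hwx⟩ ⟨k, hk, w, rfl⟩ (hC1.trans hw)
            rw [← h1] at hlt
            exact absurd (c.hX.tr _ _ _ _ h hlt) (c.hX.irr _ _)
          · refine ⟨fun _ => ?_, fun _ => Or.inl (by omega)⟩
            have h0 : Alg.s b y = Alg.s b (ev wx (f kx)) := by rw [← hwx]; exact hC1.symm
            have h1 := y4.2 kx hkx wx h0
            rcases c.hX.tot (.fib b) y (ev wx (f kx)) h0 with h2 | h2 | h2
            · exact absurd h2 h1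
            · exact absurd ⟨kx, hkx, wx, h2⟩ y1
            · rw [hwx]; exact h2
        · have h1 := huniq x y ⟨kx, hkx, wx, hwx⟩ ⟨ky, hky, wy, hwy⟩ hC1
          rw [h1]
          exact ⟨fun h => h.elim (fun h => absurd h (lt_irrefl _)) fun h =>
            absurd h.2 (c.hX.irr _ _), fun h => absurd h (c.hX.irr _ _)⟩
    · -- all ranks are zero
      have key : ∀ z ∈ S, Alg.s b z = Alg.s b x → GG K f g z = z ∧
          rk B K f g (.fib b) z = 0 := by
        intro z hz hzx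
        have h1 : z ∉ DD K f := fun h => hD (hzx ▸ c.D_cl h b)
        refine ⟨c.G_not h1, ?_⟩
        by_cases h2 : z ∈ B
        · exact c.rk_B0 h2 fun h => c.D'_A h (c.hA b z (c.hSB z hz h2))
        · exact rk_0 h2 (by rw [hzx]; exact hD)
      obtain ⟨x1, x2⟩ := key x hx rfl
      obtain ⟨y1, y2⟩ := key y hy hC1.symm
      rw [x1, y1, x2, y2]
      exact ⟨fun h => h.elim (fun h => absurd h (lt_irrefl 0)) fun h => h.2,
        fun h => Or.inr ⟨rfl, h⟩⟩

/-- an element of `B` and an element of `S` -/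
private theorem mix {i : Ix} {b z : X} (hb : b ∈ B) (hz : z ∈ S) (h : Cmp i b z) :
    CC K f g i b (GG K f g z) ∧ GG K f g z = z ∧ rk B K f g i b = 0 ∧ rk B K f g i z = 0 := by
  cases i with
  | co u v =>
    have hD : z ∉ DD K f := by
      rintro ⟨k, hk, w, rfl⟩
      exact free_inN (free_ev (c.hf.1 k hk) w) u v h.2
    rw [c.G_not hD]
    exact ⟨h, rfl, rfl, rfl⟩
  | fib b₀ =>
    have h0 : Alg.s b₀ b = Alg.s b₀ z := h
    have h1 : Alg.s b₀ z ∈ A := c.hSB _ (c.hS b₀ z hz) (h0 ▸ c.hB b₀ b hb)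
    have hD : z ∉ DD K f := fun h => c.D_A (c.D_cl h b₀) h1
    have h2 : Alg.s b₀ b ∉ DD K g := fun h => c.D'_A h (h0 ▸ h1)
    refine ⟨?_, c.G_not hD, c.rk_B0 hb h2, ?_⟩
    · rw [c.G_not hD]
      show GG K f g (Alg.s b₀ b) = GG K f g (Alg.s b₀ z)
      rw [h0]
    · by_cases h3 : z ∈ B
      · exact c.rk_B0 h3 fun h => c.D'_A h h1
      · exact rk_0 h3 fun h => c.D_A h h1

/-- comparability in `N` is `CC` -/
private theorem cmp_iff {i : Ix} (x y : {x : X // x ∈ B ∨ (x ∈ S ∧ x ∉ DD K f)}) :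
    @Cmp _ c.alg i x y ↔ CC K f g i x.1 y.1 := by
  letI := c.alg
  have hB1 : ∀ (w : List Bool) (x : {x : X // x ∈ B ∨ (x ∈ S ∧ x ∉ DD K f)}), x.1 ∈ B →
      (ev w x).1 = ev w x.1 := by
    intro w
    induction w with
    | nil => intro x _; rfl
    | cons b w ih =>
      intro x hx
      have h1 : (Alg.s b x).1 = Alg.s b x.1 := c.G_B (c.hB b x.1 hx)
      show (ev w (Alg.s b x)).1 = ev w (Alg.s b x.1)
      rw [ih _ (by rw [h1]; exact c.hB b x.1 hx), h1]
  have hS1 : ∀ (w : List Bool) (x : {x : X // x ∈ B ∨ (x ∈ S ∧ x ∉ DD K f)}) (z : X), z ∈ S →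
      x.1 = GG K f g z → (ev w x).1 = GG K f g (ev w z) := by
    intro w
    induction w with
    | nil => intro x z _ h; exact h
    | cons b w ih =>
      intro x z hz hx
      show (ev w (Alg.s b x)).1 = GG K f g (ev w (Alg.s b z))
      refine ih _ _ (c.hS b z hz) ?_
      show GG K f g (Alg.s b x.1) = _
      rw [hx, c.G_s b hz]
  have hN : ∀ (u v : List Bool) (x : {x : X // x ∈ B ∨ (x ∈ S ∧ x ∉ DD K f)}),
      InN u v x ↔ InN u v x.1 := by
    intro u v x
    show (Alg.s false x = Alg.s true x ∨ ev u (Alg.s false x) = ev v (Alg.s true x)) ↔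
      (Alg.s false x.1 = Alg.s true x.1 ∨ ev u (Alg.s false x.1) = ev v (Alg.s true x.1))
    rw [Subtype.ext_iff, Subtype.ext_iff]
    by_cases hx : x.1 ∈ B
    · have h1 : ∀ b, (Alg.s b x).1 = Alg.s b x.1 := fun b => c.G_B (c.hB b x.1 hx)
      rw [hB1 u _ (by rw [h1]; exact c.hB _ x.1 hx), hB1 v _ (by rw [h1]; exact c.hB _ x.1 hx),
        h1, h1]
    · have hx' : x.1 ∈ S ∧ x.1 ∉ DD K f := x.2.resolve_left hx
      have h1 : ∀ b, (Alg.s b x).1 = GG K f g (Alg.s b x.1) := fun b => rfl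
      rw [hS1 u _ _ (c.hS false x.1 hx'.1) (h1 _), hS1 v _ _ (c.hS true x.1 hx'.1) (h1 _), h1, h1]
      have h2 : ∀ z ∈ S, ∀ z' ∈ S, (GG K f g z = GG K f g z' ↔ z = z') := fun z hz z' hz' =>
        ⟨fun h => c.G_inj hz hz' h, fun h => by rw [h]⟩
      rw [h2 _ (c.hS _ _ hx'.1) _ (c.hS _ _ hx'.1),
        h2 _ (ev_mem c.hS (c.hS _ _ hx'.1) u) _ (ev_mem c.hS (c.hS _ _ hx'.1) v)]
  cases i with
  | fib b => exact Subtype.ext_iff
  | co u v =>
    show InN u v x ∧ InN u v y ↔ InN u v x.1 ∧ InN u v y.1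
    rw [hN, hN]

private theorem cmp_of {i : Ix} {x y : X} (hx : x ∈ B ∨ (x ∈ S ∧ x ∉ DD K f))
    (hy : y ∈ B ∨ (y ∈ S ∧ y ∉ DD K f)) (h : CC K f g i x y)
    (hr : rk B K f g i x = rk B K f g i y) : Cmp i x y := by
  cases i with
  | co u v => exact h
  | fib b =>
    have h0 : GG K f g (Alg.s b x) = GG K f g (Alg.s b y) := h
    show Alg.s b x = Alg.s b y
    have aux : ∀ x y : X, x ∈ B → (y ∈ S ∧ y ∉ DD K f) → y ∉ B →
        GG K f g (Alg.s b x) = GG K f g (Alg.s b y) →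
        rk B K f g (.fib b) x = rk B K f g (.fib b) y → Alg.s b x = Alg.s b y := by
      intro x y hx hy hyB h hr
      have h1 : Alg.s b y ∉ DD K f := by
        intro h1
        rcases rk_D (g := g) hyB h1 with h2 | h2 <;>
          rcases rk_B (f := f) (g := g) (K := K) (b := b) hx with h3 | h3 <;> omega
      rwa [c.G_B (c.hB b x hx), c.G_not h1] at h
    by_cases h1 : x ∈ B <;> by_cases h2 : y ∈ B
    · rwa [c.G_B (c.hB b x h1), c.G_B (c.hB b y h2)] at h0
    · exact aux x y h1 (hy.resolve_left h2) h2 h0 hr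
    · exact (aux y x h2 (hx.resolve_left h1) h1 h0.symm hr.symm).symm
    · exact c.G_inj (c.hS b x (hx.resolve_left h1).1) (c.hS b y (hy.resolve_left h2).1) h0

private theorem good : @Good {x : X // x ∈ B ∨ (x ∈ S ∧ x ∉ DD K f)} c.alg := by
  letI := c.alg
  refine ⟨?_, ?_, ?_, ?_, ?_⟩
  · -- acyclic
    have hval : ∀ (w : List Bool) (x : {x : X // x ∈ B ∨ (x ∈ S ∧ x ∉ DD K f)}) (z : X), z ∈ S →
        x.1 = GG K f g z → (ev w x).1 = GG K f g (ev w z) := by
      intro w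
      induction w with
      | nil => intro x z _ h; exact h
      | cons b w ih =>
        intro x z hz hx
        show (ev w (Alg.s b x)).1 = GG K f g (ev w (Alg.s b z))
        refine ih _ _ (c.hS b z hz) ?_
        show GG K f g (Alg.s b x.1) = _
        rw [hx, c.G_s b hz]
    have hvalB : ∀ (w : List Bool) (x : {x : X // x ∈ B ∨ (x ∈ S ∧ x ∉ DD K f)}), x.1 ∈ B →
        (ev w x).1 = ev w x.1 := by
      intro w
      induction w with
      | nil => intro x _; rfl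
      | cons b w ih =>
        intro x hx
        have h1 : (Alg.s b x).1 = Alg.s b x.1 := c.G_B (c.hB b x.1 hx)
        show (ev w (Alg.s b x)).1 = ev w (Alg.s b x.1)
        rw [ih _ (by rw [h1]; exact c.hB b x.1 hx), h1]
    intro w x hw h
    by_cases hx : x.1 ∈ B
    · have h1 := hvalB w x hx
      rw [h] at h1
      exact c.hX.acyc w x.1 hw h1.symm
    · have hx' := x.2.resolve_left hx
      have h1 := hval w x x.1 hx'.1 (c.G_not hx'.2).symm
      rw [h] at h1
      by_cases h2 : ev w x.1 ∈ DD K f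
      · exact hx (by rw [h1]; exact c.D'_B (c.G_D' h2))
      · rw [c.G_not h2] at h1
        exact c.hX.acyc w x.1 hw h1.symm
  · intro i x y h
    exact (c.cmp_iff x y).2 h.1
  · rintro i x ⟨-, h | h⟩
    · exact absurd h (lt_irrefl _)
    · exact c.hX.irr _ _ h.2
  · rintro i x y z ⟨h1, h2⟩ ⟨h3, h4⟩
    refine ⟨?_, ?_⟩
    · rw [← c.cmp_iff] at h1 h3 ⊢
      exact cmp_trans h1 h3
    · rcases h2 with h2 | ⟨h2, h2'⟩ <;> rcases h4 with h4 | ⟨h4, h4'⟩
      · exact Or.inl (by omega)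
      · exact Or.inl (by omega)
      · exact Or.inl (by omega)
      · exact Or.inr ⟨by omega, c.hX.tr _ _ _ _ h2' h4'⟩
  · intro i x y h
    have h' := (c.cmp_iff x y).1 h
    have h'' := (c.cmp_iff y x).1 (cmp_symm h)
    rcases lt_trichotomy (rk B K f g i x.1) (rk B K f g i y.1) with h1 | h1 | h1
    · exact Or.inl ⟨h', Or.inl h1⟩
    · rcases c.hX.tot i x.1 y.1 (c.cmp_of x.2 y.2 h' h1) with h2 | h2 | h2
      · exact Or.inl ⟨h', Or.inr ⟨h1, h2⟩⟩
      · exact Or.inr (Or.inl (Subtype.ext h2))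
      · exact Or.inr (Or.inr ⟨h'', Or.inr ⟨h1.symm, h2⟩⟩)
    · exact Or.inr (Or.inr ⟨h'', Or.inl h1⟩)

end Ctx

theorem GN_main (hX : Good X) {A B S : Set X} (hA : Closed A) (hB : Closed B) (hS : Closed S)
    (hAB : A ⊆ B) (hAS : A ⊆ S) (hSB : ∀ z ∈ S, z ∈ B → z ∈ A) {ι : Type} {K : Set ι}
    {f g : ι → X} (hf : FreeFam A K f) (hg : FreeFam A K g) (hfS : ∀ k ∈ K, f k ∈ S)
    (hgB : ∀ k ∈ K, g k ∈ B) :
    ∃ (N : Type) (_ : Alg N) (β ζ : X → N), Good N ∧ IsEmb β B ∧ IsEmb ζ S ∧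
      (∀ a ∈ A, ζ a = β a) ∧ (∀ k ∈ K, ζ (f k) = β (g k)) ∧
      (∀ z ∈ S, ζ z ∈ β '' B → z ∈ A ∨ ∃ k ∈ K, z ∈ cl {f k}) ∧
      (∀ i, ∀ b ∈ B, ∀ z ∈ S, (Alg.lt i b z → Alg.lt i (β b) (ζ z)) ∧
        (Alg.lt i z b → Alg.lt i (ζ z) (β b))) ∧
      ∀ i, ∀ b ∈ B, (∀ k ∈ K, ∀ b₀, Alg.s b₀ b ∉ cl {g k}) → ∀ z ∈ S,
        (Alg.lt i (β b) (ζ z) ↔ Alg.lt i b z) ∧ (Alg.lt i (ζ z) (β b) ↔ Alg.lt i z b) := by
  classical
  have c : Ctx A B S K f g := ⟨hX, hA, hB, hS, hAB, hAS, hSB, hf, hg, hfS, hgB⟩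
  by_cases hne : Nonempty {x : X // x ∈ B ∨ (x ∈ S ∧ x ∉ DD K f)}
  swap
  · have hB0 : ∀ b, b ∉ B := fun b hb => hne ⟨b, Or.inl hb⟩
    have hS0 : ∀ z, z ∉ S := by
      intro z hz
      by_cases h : z ∈ DD K f
      · obtain ⟨k, hk, -⟩ := h
        exact hB0 _ (hgB k hk)
      · exact hne ⟨z, Or.inr ⟨hz, h⟩⟩
    refine ⟨X, inferInstance, id, id, hX, ⟨fun x hx => absurd hx (hB0 x), fun b x hx =>
      absurd hx (hB0 x), fun i x hx => absurd hx (hB0 x)⟩, ⟨fun x hx => absurd hx (hS0 x),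
      fun b x hx => absurd hx (hS0 x), fun i x hx => absurd hx (hS0 x)⟩, fun a ha =>
      absurd (hAB ha) (hB0 a), fun k hk => absurd (hgB k hk) (hB0 _), fun z hz =>
      absurd hz (hS0 z), fun i b hb => absurd hb (hB0 b), fun i b hb => absurd hb (hB0 b)⟩
  letI := c.alg
  let β : X → {x : X // x ∈ B ∨ (x ∈ S ∧ x ∉ DD K f)} := fun x =>
    if h : x ∈ B then ⟨x, Or.inl h⟩ else hne.some
  let ζ : X → {x : X // x ∈ B ∨ (x ∈ S ∧ x ∉ DD K f)} := fun x =>
    if h : x ∈ S then ⟨GG K f g x, c.G_mem h⟩ else hne.some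
  have hβ : ∀ x ∈ B, (β x).1 = x := fun x hx => by
    show (dite (x ∈ B) _ _ : {x : X // x ∈ B ∨ (x ∈ S ∧ x ∉ DD K f)}).1 = x
    rw [dif_pos hx]
  have hζ : ∀ x ∈ S, (ζ x).1 = GG K f g x := fun x hx => by
    show (dite (x ∈ S) _ _ : {x : X // x ∈ B ∨ (x ∈ S ∧ x ∉ DD K f)}).1 = GG K f g x
    rw [dif_pos hx]
  have hlt : ∀ (i : Ix) (x y : {x : X // x ∈ B ∨ (x ∈ S ∧ x ∉ DD K f)}),
      Alg.lt i x y ↔ LT B K f g i x.1 y.1 := fun i x y => Iff.rfl
  -- the mixed case
  have hmix : ∀ i, ∀ b ∈ B, ∀ z ∈ S, Cmp i b z →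
      (Alg.lt i (β b) (ζ z) ↔ Alg.lt i b z) ∧ (Alg.lt i (ζ z) (β b) ↔ Alg.lt i z b) := by
    intro i b hb z hz h
    obtain ⟨h1, h2, h3, h4⟩ := c.mix hb hz h
    have h5 : CC K f g i (GG K f g z) b := by
      cases i with
      | fib b₀ => exact h1.symm
      | co u v => exact ⟨h1.2, h1.1⟩
    rw [hlt, hlt, hβ b hb, hζ z hz]
    constructor
    · constructor
      · rintro ⟨-, h6 | h6⟩
        · rw [h2, h3, h4] at h6
          exact absurd h6 (lt_irrefl 0)
        · rw [h2] at h6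
          exact h6.2
      · intro h6
        refine ⟨h1, Or.inr ⟨by rw [h2, h3, h4], by rw [h2]; exact h6⟩⟩
    · constructor
      · rintro ⟨-, h6 | h6⟩
        · rw [h2, h3, h4] at h6
          exact absurd h6 (lt_irrefl 0)
        · rw [h2] at h6
          exact h6.2
      · intro h6
        refine ⟨h5, Or.inr ⟨by rw [h2, h3, h4], by rw [h2]; exact h6⟩⟩
  refine ⟨_, c.alg, β, ζ, c.good, ⟨?_, ?_, ?_⟩, ⟨?_, ?_, ?_⟩, ?_, ?_, ?_, ?_, ?_⟩
  · intro x hx y hy h
    rw [← hβ x hx, ← hβ y hy, h]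
  · intro b x hx
    apply Subtype.ext
    rw [hβ _ (hB b x hx)]
    show _ = GG K f g (Alg.s b (β x).1)
    rw [hβ x hx, c.G_B (hB b x hx)]
  · intro i x hx y hy
    rw [hlt, hβ x hx, hβ y hy]
    exact c.LT_B hx hy
  · intro x hx y hy h
    apply c.G_inj hx hy
    rw [← hζ x hx, ← hζ y hy, h]
  · intro b x hx
    apply Subtype.ext
    rw [hζ _ (hS b x hx)]
    show _ = GG K f g (Alg.s b (ζ x).1)
    rw [hζ x hx, c.G_s b hx]
  · intro i x hx y hy
    rw [hlt, hζ x hx, hζ y hy]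
    exact c.LT_S hx hy
  · intro a ha
    apply Subtype.ext
    rw [hζ a (hAS ha), hβ a (hAB ha), c.G_B (hAB ha)]
  · intro k hk
    apply Subtype.ext
    rw [hζ _ (hfS k hk), hβ _ (hgB k hk)]
    exact c.G_D hk []
  · rintro z hz ⟨b, hb, hbz⟩
    by_cases h : z ∈ DD K f
    · obtain ⟨k, hk, w, rfl⟩ := h
      exact Or.inr ⟨k, hk, mem_cl_one.2 ⟨w, rfl⟩⟩
    · left
      have h1 := congrArg Subtype.val hbz
      rw [hβ b hb, hζ z hz, c.G_not h] at h1
      exact hSB z hz (h1 ▸ hb)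
  · intro i b hb z hz
    exact ⟨fun h => (hmix i b hb z hz (hX.cmp _ _ _ h)).1.2 h,
      fun h => (hmix i b hb z hz (cmp_symm (hX.cmp _ _ _ h))).2.2 h⟩
  · intro i b hb hch z hz
    by_cases h : Cmp i b z
    · exact hmix i b hb z hz h
    · have h1 : ¬ Cmp i (β b) (ζ z) := by
        rw [c.cmp_iff, hβ b hb, hζ z hz]
        intro h2
        apply h
        cases i with
        | fib b₀ =>
          have h3 : GG K f g (Alg.s b₀ b) = GG K f g (Alg.s b₀ (GG K f g z)) := h2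
          rw [c.G_s b₀ hz, c.G_B (hB b₀ b hb)] at h3
          by_cases h4 : Alg.s b₀ z ∈ DD K f
          · obtain ⟨k, hk, w, hw⟩ := c.G_D' h4
            exact absurd (mem_cl_one.2 ⟨w, h3.trans hw⟩) (hch k hk b₀)
          · rwa [c.G_not h4] at h3
        | co u v =>
          refine ⟨h2.1, ?_⟩
          have h3 : z ∉ DD K f := by
            intro h3
            obtain ⟨k, hk, w, hw⟩ := c.G_D' h3
            have h4 := h2.2
            rw [hw] at h4
            exact free_inN (free_ev (hg.1 k hk) w) u v h4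
          have h4 := h2.2
          rwa [c.G_not h3] at h4
      exact ⟨iff_of_false (fun h2 => h1 (c.good.cmp _ _ _ h2)) fun h2 => h (hX.cmp _ _ _ h2),
        iff_of_false (fun h2 => h1 (cmp_symm (c.good.cmp _ _ _ h2))) fun h2 =>
          h (cmp_symm (hX.cmp _ _ _ h2))⟩

end

end Pool.Agent.Lib_helper23.TF
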