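import Pool.Agent.Lib_helper23.TF.Defs
import Pool.Agent.Lib_helper23.TF.CB
import Pool.Agent.Lib_helper23.TF.GN
import Pool.Agent.Lib_helper23.TF.DE
import Pool.Agent.Lib_helper23.TF.EM
import Pool.Agent.Lib_helper23.TF.QE
import Pool.Agent.Lib_helper23.TF.NW

/-!
# MP_bc6371_lc, non-distal theory with idempotent types: block GL (gluing)
-/

set_option autoImplicit false

namespace Pool.Agent.Lib_helper23.TF

open Cardinal Pool.Agent.Lib_helper23.SD Pool.Agent.Lib_helper23.TF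

variable {U : Type} [Lg.Structure U] {κ : Cardinal.{0}}

theorem GL_main (hκ : ℵ₀ < κ) (hs : Saturated Lg κ U) (hG : Good U) (hE : Ext U) {A B : Set U}
    (hA : Closed A) (hB : Closed B) (hAB : A ⊆ B) (hBκ : #B < κ) {α : Type} [Finite α]
    (p : Typ Lg (Set.univ : Set U) α) (hp : InvOver Lg A p.sets) {x₀ : α → U}
    (hx : Real Lg p.sets B x₀) {K : Set (α × List Bool)} (hK : FreeFam A K (val x₀))
    {g : α × List Bool → U} (hg : FreeFam A K g) (hgB : ∀ k ∈ K, g k ∈ B) :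
    ∃ x : α → U, (∀ k ∈ K, val x k = g k) ∧
      (∀ A' : Set U, Closed A' → A ⊆ A' → A' ⊆ B → (∀ k ∈ K, Disjoint A' (cl {g k})) →
        Real Lg p.sets A' x) ∧
      (∀ i t, ∀ b ∈ B, (Alg.lt i b (val x₀ t) → Alg.lt i b (val x t)) ∧
        (Alg.lt i (val x₀ t) b → Alg.lt i (val x t) b)) ∧
      ∀ t, val x t ∈ B → val x t ∈ A ∨ ∃ k ∈ K, val x t ∈ cl {g k} := by
  classical
  rcases isEmpty_or_nonempty α with hα | hα
  · -- no variables: the tuple is the empty one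
    refine ⟨x₀, ?_, ?_, ?_, ?_⟩
    · intro k _
      exact (hα.false k.1).elim
    · intro A' _ _ hA'B _
      exact IN_real hx hA'B
    · intro i t
      exact (hα.false t.1).elim
    · intro t
      exact (hα.false t.1).elim
  haveI : Nonempty U := hα.map x₀
  have hAκ : #A < κ := lt_of_le_of_lt (Cardinal.mk_le_mk_of_subset hAB) hBκ
  have hD0 : Closed (cl (Set.range x₀)) := closed_cl _
  have hS : Closed (A ∪ cl (Set.range x₀)) := closed_union hA hD0
  have hvS : ∀ t : α × List Bool, val x₀ t ∈ cl (Set.range x₀) := fun t =>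
    mem_cl_range.2 ⟨t, rfl⟩
  have hSB : ∀ z ∈ A ∪ cl (Set.range x₀), z ∈ B → z ∈ A := by
    rintro z (hz | hz) hzB
    · exact hz
    · obtain ⟨t, rfl⟩ := mem_cl_range.1 hz
      refine NW_main hκ hs hG hE hA hAκ p hp (t := t) ?_
      exact (IN_iff p hx (DE_eqc hzB t)).1 rfl
  obtain ⟨N, iN, β, ζ, hN, hβ, hζ, hζA, hζf, hζB, hrel, hrel'⟩ :=
    GN_main hG hA hB hS hAB Set.subset_union_left hSB hK hg
      (fun k _ => Or.inr (hvS k)) hgB
  obtain ⟨hC, hinv, hinv1, -⟩ := emb_inv hβ hB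
  have hCκ : #(β '' B : Set N) < κ := lt_of_le_of_lt Cardinal.mk_image_le hBκ
  obtain ⟨g', hg'C, hg', hg'E⟩ := EM_main hκ hs hG hE hN hC hCκ hinv (fun j => ζ (x₀ j)) hBκ
  -- basic facts
  have hβB : ∀ b ∈ B, g' (β b) = b := by
    intro b hb
    rw [hg'C _ ⟨b, hb, rfl⟩, hinv1 b hb]
  have hval : ∀ t : α × List Bool, ζ (val x₀ t) = val (fun j => ζ (x₀ j)) t := by
    intro t
    exact emb_ev hζ hS (Or.inr (subset_cl _ ⟨t.1, rfl⟩)) t.2
  have hvC : ∀ t : α × List Bool, ζ (val x₀ t) ∈ cl (Set.range fun j => ζ (x₀ j)) := by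
    intro t
    rw [hval]
    exact mem_cl_range.2 ⟨t, rfl⟩
  have hC' : Closed (β '' B ∪ cl (Set.range fun j => ζ (x₀ j))) :=
    closed_union hC (closed_cl _)
  have hval' : ∀ t : α × List Bool, val (fun j => g' (ζ (x₀ j))) t = g' (ζ (val x₀ t)) := by
    intro t
    rw [hval]
    exact (emb_ev hg' hC' (Or.inr (subset_cl _ ⟨t.1, rfl⟩)) t.2).symm
  have hζw : ∀ k ∈ K, ∀ w, ζ (ev w (val x₀ k)) = β (ev w (g k)) := by
    intro k hk w
    rw [emb_ev hζ hS (Or.inr (hvS k)) w, hζf k hk, ← emb_ev hβ hB (hgB k hk) w]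
  refine ⟨fun j => g' (ζ (x₀ j)), ?_, ?_, ?_, ?_⟩
  · intro k hk
    rw [hval', hζf k hk, hβB _ (hgB k hk)]
  · intro A' hA' hAA' hA'B hdis
    have hA'κ : #A' < κ := lt_of_le_of_lt (Cardinal.mk_le_mk_of_subset hA'B) hBκ
    let G : U → U := fun z => if z ∈ A' then z else g' (ζ z)
    have hGA : ∀ a ∈ A', G a = a := fun a ha => if_pos ha
    have hGA' : ∀ a ∈ A', G a = g' (β a) := fun a ha => by
      rw [hGA a ha, hβB a (hA'B ha)]
    have hGS : ∀ z ∈ cl (Set.range x₀), G z = g' (ζ z) := by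
      intro z hz
      by_cases h : z ∈ A'
      · have hzA : z ∈ A := hSB z (Or.inr hz) (hA'B h)
        rw [hGA z h, hζA z hzA, hβB z (hA'B h)]
      · exact if_neg h
    have hζcl : ∀ z ∈ cl (Set.range x₀), ζ z ∈ β '' B ∪ cl (Set.range fun j => ζ (x₀ j)) := by
      intro z hz
      obtain ⟨t, rfl⟩ := mem_cl_range.1 hz
      exact Or.inr (hvC t)
    have hβcl : ∀ b ∈ A', β b ∈ β '' B ∪ cl (Set.range fun j => ζ (x₀ j)) := fun b hb =>
      Or.inl ⟨b, hA'B hb, rfl⟩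
    have hmix : ∀ z ∈ A', ∀ z' ∈ cl (Set.range x₀), β z = ζ z' → z = z' := by
      intro z hz z' hz' he
      rcases hζB z' (Or.inr hz') (he ▸ ⟨z, hA'B hz, rfl⟩) with h | ⟨k, hk, h⟩
      · rw [hζA z' h] at he
        exact hβ.inj (hA'B hz) (hAB h) he
      · obtain ⟨w, rfl⟩ := mem_cl_one.1 h
        rw [hζw k hk w] at he
        have h1 : z = ev w (g k) := hβ.inj (hA'B hz) (ev_mem hB (hgB k hk) w) he
        exact absurd (mem_cl_one.2 ⟨w, h1⟩) (Set.disjoint_left.1 (hdis k hk) hz)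
    have hch : ∀ z ∈ A', ∀ k ∈ K, ∀ b₀, Alg.s b₀ z ∉ cl {g k} := fun z hz k hk b₀ =>
      Set.disjoint_left.1 (hdis k hk) (hA' b₀ z hz)
    have hGe : IsEmb G (A' ∪ cl (Set.range x₀)) := by
      refine ⟨?_, ?_, ?_⟩
      · rintro z (hz | hz) z' (hz' | hz') he
        · rwa [hGA z hz, hGA z' hz'] at he
        · rw [hGA' z hz, hGS z' hz'] at he
          exact hmix z hz z' hz' (hg'.inj (hβcl z hz) (hζcl z' hz') he)
        · rw [hGA' z' hz', hGS z hz] at he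
          exact (hmix z' hz' z hz (hg'.inj (hζcl z hz) (hβcl z' hz') he).symm).symm
        · rw [hGS z hz, hGS z' hz'] at he
          exact hζ.inj (Or.inr hz) (Or.inr hz') (hg'.inj (hζcl z hz) (hζcl z' hz') he)
      · rintro b z (hz | hz)
        · rw [hGA z hz, hGA _ (hA' b z hz)]
        · rw [hGS z hz, hGS _ (hD0 b z hz), hζ.s b z (Or.inr hz), hg'.s b _ (hζcl z hz)]
      · rintro i z (hz | hz) z' (hz' | hz')
        · rw [hGA z hz, hGA z' hz']
        · rw [hGA' z hz, hGS z' hz', hg'.lt i _ (hβcl z hz) _ (hζcl z' hz')]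
          exact (hrel' i z (hA'B hz) (hch z hz) z' (Or.inr hz')).1
        · rw [hGA' z' hz', hGS z hz, hg'.lt i _ (hζcl z hz) _ (hβcl z' hz')]
          exact (hrel' i z' (hA'B hz') (hch z' hz') z (Or.inr hz)).2
        · rw [hGS z hz, hGS z' hz', hg'.lt i _ (hζcl z hz) _ (hζcl z' hz'),
            hζ.lt i z (Or.inr hz) z' (Or.inr hz')]
    have hsame : SameTp Lg A' x₀ (fun j => g' (ζ (x₀ j))) :=
      QE_main hκ hs hG hE hA' hA'κ hGe hGA fun j => hGS _ (subset_cl _ ⟨j, rfl⟩)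
    intro D hD hDA
    exact (hsame D hDA).1 (hx D hD (hDA.mono hA'B))
  · intro i t b hb
    have hb' : β b ∈ β '' B ∪ cl (Set.range fun j => ζ (x₀ j)) := Or.inl ⟨b, hb, rfl⟩
    have ht' : ζ (val x₀ t) ∈ β '' B ∪ cl (Set.range fun j => ζ (x₀ j)) := Or.inr (hvC t)
    rw [hval']
    refine ⟨fun h => ?_, fun h => ?_⟩
    · have h1 := (hg'.lt i _ hb' _ ht').2 ((hrel i b hb _ (Or.inr (hvS t))).1 h)
      rwa [hβB b hb] at h1
    · have h1 := (hg'.lt i _ ht' _ hb').2 ((hrel i b hb _ (Or.inr (hvS t))).2 h)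
      rwa [hβB b hb] at h1
  · intro t ht
    rw [hval'] at ht ⊢
    have h1 : ζ (val x₀ t) ∈ β '' B := by
      by_contra hn
      exact hg'E _ (hvC t) hn ht
    rcases hζB _ (Or.inr (hvS t)) h1 with h | ⟨k, hk, h⟩
    · left
      rw [hζA _ h, hβB _ (hAB h)]
      exact h
    · right
      obtain ⟨w, hw⟩ := mem_cl_one.1 h
      refine ⟨k, hk, ?_⟩
      rw [hw, hζw k hk w, hβB _ (ev_mem hB (hgB k hk) w)]
      exact mem_cl_one.2 ⟨w, rfl⟩

end Pool.Agent.Lib_helper23.TF
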