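import Pool.Agent.Lib_helper23.TF.Defs

/-!
# MP_bc6371_lc, a non-distal theory all of whose types are idempotent: block MO (a model)

The model consists of the terms `base n` and `node a₀ a₁ e`, where `e` is a finite association list from
indices to lists of integers; `s b (base n) = base (n + 1)` and `s b (node a₀ a₁ e) = a_b`. The position of `x`
for the index `i` is the sequence of integers which starts with the list number `i` of `x` and
continues with the constant `code x`; these sequences are ordered lexicographically.
-/

set_option autoImplicit false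

namespace Pool.Agent.Lib_helper23.TF


open Cardinal Pool.Agent.Lib_helper23.SD

deriving instance Countable for Ix

/-- the terms -/
inductive Tm : Type
  | base (n : ℕ) : Tm
  | node (a b : Tm) (e : List (Ix × List ℤ)) : Tm
  deriving Countable

/-- an injection of the terms into the natural numbers -/
noncomputable def code : Tm → ℕ := (exists_injective_nat Tm).choose

private theorem code_inj : Function.Injective code := (exists_injective_nat Tm).choose_spec

/-- the two functions -/
def tS : Bool → Tm → Tm
  | _, .base n => .base (n + 1)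
  | false, .node a _ _ => a
  | true, .node _ b _ => b

/-- the height -/
def ht : Tm → ℤ
  | .base n => - (n : ℤ)
  | .node a b _ => max (ht a) (ht b) + 1

private theorem ht_s (b : Bool) (x : Tm) : ht (tS b x) < ht x := by
  cases x with
  | base n => cases b <;> simp [tS, ht]
  | node c d e =>
    cases b
    · have h1 : ht c ≤ max (ht c) (ht d) := le_max_left _ _
      simp only [tS, ht]; omega
    · have h1 : ht d ≤ max (ht c) (ht d) := le_max_right _ _
      simp only [tS, ht]; omega

open Classical in
/-- look an index up in an association list -/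
noncomputable def look (i : Ix) : List (Ix × List ℤ) → List ℤ
  | [] => []
  | (j, l) :: t => if j = i then l else look i t

private theorem look_map (f : Ix → List ℤ) (i : Ix) (I : List Ix) (hi : i ∈ I) :
    look i (I.map (fun j => (j, f j))) = f i := by
  induction I with
  | nil => simp at hi
  | cons j t ih =>
    simp only [List.map_cons, look]
    by_cases hj : j = i
    · rw [if_pos hj, hj]
    · rw [if_neg hj]
      apply ih
      rcases List.mem_cons.1 hi with h | h
      · exact absurd h.symm hj
      · exact h

/-- the list number `i` of a term -/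
noncomputable def pos (i : Ix) : Tm → List ℤ
  | .base _ => []
  | .node _ _ e => look i e

/-- the position of a term for the index `i` -/
noncomputable def vT (i : Ix) (x : Tm) : Lex (ℕ → ℤ) :=
  toLex (fun n => (pos i x).getD n (code x : ℤ))

private theorem vT_inj {i : Ix} {x y : Tm} (h : vT i x = vT i y) : x = y := by
  have h1 : (fun n => (pos i x).getD n (code x : ℤ)) = fun n => (pos i y).getD n (code y : ℤ) :=
    toLex.injective h
  have h2 := congrFun h1 (max (pos i x).length (pos i y).length)
  rw [List.getD_eq_default _ _ (le_max_left _ _), List.getD_eq_default _ _ (le_max_right _ _)] at h2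
  exact code_inj (by exact_mod_cast h2)

/-- the preliminary structure -/
@[reducible] def alg0 : Alg Tm := ⟨tS, fun _ _ _ => False⟩

/-- comparability -/
def CmpT (i : Ix) (x y : Tm) : Prop := @Cmp Tm alg0 i x y

/-- the relations -/
def ltT (i : Ix) (x y : Tm) : Prop := CmpT i x y ∧ vT i x < vT i y

/-- the structure -/
@[reducible] def strT : Lg.Structure Tm where
  funMap := fun {n} f => match n, f with
    | _, Fn.s b => fun x => tS b (x 0)
  RelMap := fun {n} r => match n, r with
    | _, Rl.lt i => fun x => ltT i (x 0) (x 1)

/-- the set with functions and relations -/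
@[reducible] def algT : Alg Tm := @algOf Tm strT

private theorem s_eq (b : Bool) (x : Tm) : @Alg.s Tm algT b x = tS b x := rfl

private theorem lt_eq (i : Ix) (x y : Tm) : @Alg.lt Tm algT i x y = ltT i x y := rfl

private theorem ev_eq (w : List Bool) (x : Tm) : @ev Tm algT w x = @ev Tm alg0 w x := by
  induction w generalizing x with
  | nil => rfl
  | cons b w ih => exact ih _

private theorem inN_eq (u v : List Bool) (x : Tm) : @InN Tm algT u v x ↔ @InN Tm alg0 u v x := by
  unfold InN
  rw [ev_eq, ev_eq]
  exact Iff.rfl

private theorem cmp_eq (i : Ix) (x y : Tm) : @Cmp Tm algT i x y ↔ CmpT i x y := by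
  unfold CmpT
  cases i with
  | fib b => exact Iff.rfl
  | co u v => exact and_congr (inN_eq u v x) (inN_eq u v y)

private theorem cmp_tr {X : Type} [Alg X] {i : Ix} {x y z : X} (h : Cmp i x y) (h' : Cmp i y z) :
    Cmp i x z := by
  cases i with
  | fib b => exact Eq.trans h h'
  | co u v => exact ⟨h.1, h'.2⟩

private theorem cmp_sy {X : Type} [Alg X] {i : Ix} {x y : X} (h : Cmp i x y) : Cmp i y x := by
  cases i with
  | fib b => exact Eq.symm h
  | co u v => exact ⟨h.2, h.1⟩

private theorem ht_ev (w : List Bool) (x : Tm) (hw : w ≠ []) : ht (@ev Tm alg0 w x) < ht x := by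
  induction w generalizing x with
  | nil => exact absurd rfl hw
  | cons b w ih =>
    have h1 : ht (tS b x) < ht x := ht_s b x
    by_cases h : w = []
    · subst h; exact h1
    · exact lt_trans (ih (tS b x) h) h1

private theorem good : @Good Tm algT := by
  refine @Good.mk Tm algT ?_ ?_ ?_ ?_ ?_
  · intro w x hw he
    rw [ev_eq] at he
    have := ht_ev w x hw
    rw [he] at this
    exact lt_irrefl _ this
  · intro i x y h
    exact (cmp_eq i x y).2 h.1
  · intro i x h
    exact lt_irrefl _ h.2
  · intro i x y z h h'
    exact ⟨@cmp_tr Tm alg0 i x y z h.1 h'.1, lt_trans h.2 h'.2⟩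
  · intro i x y h
    have h0 : CmpT i x y := (cmp_eq i x y).1 h
    rcases lt_trichotomy (vT i x) (vT i y) with h1 | h1 | h1
    · exact Or.inl ⟨h0, h1⟩
    · exact Or.inr (Or.inl (vT_inj h1))
    · exact Or.inr (Or.inr ⟨@cmp_sy Tm alg0 i x y h0, h1⟩)

/-- separation of finite sets of sequences -/
private theorem sep (A B : Finset (Lex (ℕ → ℤ))) (h : ∀ a ∈ A, ∀ b ∈ B, a < b) :
    ∃ l : List ℤ, ∀ t : ℤ, (∀ a ∈ A, a < toLex (fun n => l.getD n t)) ∧
      ∀ b ∈ B, toLex (fun n => l.getD n t) < b := by
  rcases A.eq_empty_or_nonempty with hA | hA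
  · rcases B.eq_empty_or_nonempty with hB | hB
    · refine ⟨[], fun t => ⟨?_, ?_⟩⟩
      · intro a ha; rw [hA] at ha; simp at ha
      · intro b hb; rw [hB] at hb; simp at hb
    · refine ⟨[(ofLex (B.min' hB)) 0 - 1], fun t => ⟨?_, ?_⟩⟩
      · intro a ha; rw [hA] at ha; simp at ha
      · intro b hb
        refine lt_of_lt_of_le ?_ (B.min'_le b hb)
        refine ⟨0, fun j hj => absurd hj (Nat.not_lt_zero _), ?_⟩
        show (ofLex (B.min' hB)) 0 - 1 < (ofLex (B.min' hB)) 0
        omega
  · rcases B.eq_empty_or_nonempty with hB | hB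
    · refine ⟨[(ofLex (A.max' hA)) 0 + 1], fun t => ⟨?_, ?_⟩⟩
      · intro a ha
        refine lt_of_le_of_lt (A.le_max' a ha) ?_
        refine ⟨0, fun j hj => absurd hj (Nat.not_lt_zero _), ?_⟩
        show (ofLex (A.max' hA)) 0 < (ofLex (A.max' hA)) 0 + 1
        omega
      · intro b hb; rw [hB] at hb; simp at hb
    · obtain ⟨n, hn1, hn2⟩ := h _ (A.max'_mem hA) _ (B.min'_mem hB)
      set lam : ℕ → ℤ := ofLex (A.max' hA) with hlam
      set rho : ℕ → ℤ := ofLex (B.min' hB) with hrho
      set l : List ℤ := List.ofFn (fun k : Fin (n + 2) => if (k : ℕ) ≤ n then lam k else lam k + 1)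
        with hl
      have hlen : l.length = n + 2 := by rw [hl, List.length_ofFn]
      have hget : ∀ t : ℤ, ∀ j : ℕ, j < n + 2 →
          l.getD j t = if j ≤ n then lam j else lam j + 1 := by
        intro t j hj
        rw [List.getD_eq_getElem _ _ (by rw [hlen]; exact hj)]
        simp only [hl, List.getElem_ofFn]
      refine ⟨l, fun t => ⟨?_, ?_⟩⟩
      · intro a ha
        refine lt_of_le_of_lt (A.le_max' a ha) ?_
        refine ⟨n + 1, ?_, ?_⟩
        · intro j hj
          show lam j = l.getD j t
          rw [hget t j (by omega), if_pos (by omega)]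
        · show lam (n + 1) < l.getD (n + 1) t
          rw [hget t (n + 1) (by omega), if_neg (by omega)]
          omega
      · intro b hb
        refine lt_of_lt_of_le ?_ (B.min'_le b hb)
        refine ⟨n, ?_, ?_⟩
        · intro j hj
          show l.getD j t = rho j
          rw [hget t j (by omega), if_pos (by omega)]
          exact hn1 j hj
        · show l.getD n t < rho n
          rw [hget t n (by omega), if_pos le_rfl]
          exact hn2

private theorem ext : @Ext Tm algT := by
  classical
  intro a I L R hL hR hLR
  have hsep : ∀ i : Ix, ∃ l : List ℤ, i ∈ I → ∀ t : ℤ,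
      (∀ c ∈ L i, vT i c < toLex (fun n => l.getD n t)) ∧
      ∀ d ∈ R i, toLex (fun n => l.getD n t) < vT i d := by
    intro i
    by_cases hi : i ∈ I
    · obtain ⟨l, hl⟩ := sep ((L i).image (vT i)) ((R i).image (vT i)) (by
        intro x hx y hy
        obtain ⟨c, hc, rfl⟩ := Finset.mem_image.1 hx
        obtain ⟨d, hd, rfl⟩ := Finset.mem_image.1 hy
        exact (hLR i hi c hc d hd).2)
      refine ⟨l, fun _ t => ⟨?_, ?_⟩⟩
      · intro c hc
        exact (hl t).1 _ (Finset.mem_image_of_mem _ hc)
      · intro d hd
        exact (hl t).2 _ (Finset.mem_image_of_mem _ hd)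
    · exact ⟨[], fun h => absurd h hi⟩
  choose f hf using hsep
  set y : Tm := Tm.node (a false) (a true) (I.toList.map (fun j => (j, f j))) with hy
  have hs : ∀ b, tS b y = a b := by intro b; cases b <;> rfl
  have hpos : ∀ i ∈ I, pos i y = f i := by
    intro i hi
    exact look_map f i _ (Finset.mem_toList.2 hi)
  have hv : ∀ i ∈ I, vT i y = toLex (fun n => (f i).getD n (code y : ℤ)) := by
    intro i hi
    unfold vT
    rw [hpos i hi]
  have hc : ∀ i c, @InC Tm algT i a c → CmpT i c y := by
    intro i c h
    rw [← cmp_eq]
    cases i with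
    | fib b => exact Eq.trans h (hs b).symm
    | co u v =>
      refine ⟨h.2, ?_⟩
      have h1 := h.1
      unfold InN
      rcases h1 with h1 | h1
      · exact Or.inl h1
      · exact Or.inr h1
  refine ⟨y, hs, fun i hi => ⟨?_, ?_⟩⟩
  · intro c hcL
    refine ⟨hc i c (hL i hi c hcL), ?_⟩
    show vT i c < vT i y
    rw [hv i hi]
    exact (hf i hi (code y)).1 c hcL
  · intro d hdR
    refine ⟨@cmp_sy Tm alg0 i d y (hc i d (hR i hi d hdR)), ?_⟩
    show vT i y < vT i d
    rw [hv i hi]
    exact (hf i hi (code y)).2 d hdR

theorem MO_main : ∃ (M : Type) (_ : Lg.Structure M), Infinite M ∧ Good M ∧ Ext M := by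
  refine ⟨Tm, strT, ?_, good, ext⟩
  refine Infinite.of_injective Tm.base ?_
  intro m n h
  exact Tm.base.inj h


end Pool.Agent.Lib_helper23.TF
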