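import Pool.Agent.Lib_helper23.TF.Defs
import Pool.Agent.Lib_helper23.TF.CB
import Pool.Agent.Lib_helper23.TF.FR1
import Pool.Agent.Lib_helper23.TF.DE
import Pool.Agent.Lib_helper23.TF.QE
import Pool.Agent.Lib_helper23.TF.FX

/-! # MP_bc6371_lc, project TF, block ND (cites CB, FR1, DE_eqc, QE_main, FX_main) -/

set_option autoImplicit false

namespace Pool.Agent.Lib_helper23.TF

open Cardinal Pool.Agent.Lib_helper23.SD Pool.Agent.Lib_helper23.TF

section
variable {U : Type} [Lg.Structure U] {κ : Cardinal.{0}}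

/-- the map between two free families -/
private theorem nd_emb (hG : Good U) {α : Type} {A : Set U} (hA : Closed A) {x y : α → U}
    (hx : FreeFam A Set.univ x) (hy : FreeFam A Set.univ y) :
    ∃ g : U → U, IsEmb g (A ∪ cl (Set.range x)) ∧ (∀ a ∈ A, g a = a) ∧ ∀ j, g (x j) = y j := by
  classical
  have hxA : ∀ j w, ev w (x j) ∉ A := fun j w => (hx.1 j trivial).2 w
  have hyA : ∀ j w, ev w (y j) ∉ A := fun j w => (hy.1 j trivial).2 w
  let g : U → U := fun z => if z ∈ A then z else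
    if h : ∃ p : α × List Bool, z = ev p.2 (x p.1) then ev h.choose.2 (y h.choose.1) else z
  have g1 : ∀ a ∈ A, g a = a := fun a ha => if_pos ha
  have g2 : ∀ j w, g (ev w (x j)) = ev w (y j) := by
    intro j w
    have h : ∃ p : α × List Bool, ev w (x j) = ev p.2 (x p.1) := ⟨(j, w), rfl⟩
    have h1 : g (ev w (x j)) = ev h.choose.2 (y h.choose.1) := by
      show (if ev w (x j) ∈ A then ev w (x j) else _) = _
      rw [if_neg (hxA j w), dif_pos h]
    have h2 := fam_inj hx (Set.mem_univ j) (Set.mem_univ h.choose.1) h.choose_spec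
    rw [h1, ← h2.1, ← h2.2]
  have hS : ∀ z ∈ A ∪ cl (Set.range x), z ∈ A ∨ ∃ j w, z = ev w (x j) := by
    rintro z (hz | hz)
    · exact Or.inl hz
    · obtain ⟨t, ht⟩ := mem_cl_range.1 hz
      exact Or.inr ⟨t.1, t.2, ht⟩
  have hsnoc : ∀ (b : Bool) (w : List Bool) (z : U), Alg.s b (ev w z) = ev (w ++ [b]) z := by
    intro b w z
    rw [ev_append]
    rfl
  refine ⟨g, ⟨?_, ?_, ?_⟩, g1, fun j => g2 j []⟩
  · intro z hz z' hz' h
    rcases hS z hz with h1 | ⟨j, w, rfl⟩ <;> rcases hS z' hz' with h2 | ⟨j', w', rfl⟩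
    · rwa [g1 z h1, g1 z' h2] at h
    · rw [g1 z h1, g2] at h
      exact absurd (h ▸ h1) (hyA j' w')
    · rw [g1 z' h2, g2] at h
      exact absurd (h ▸ h2) (hyA j w)
    · rw [g2, g2] at h
      obtain ⟨rfl, rfl⟩ := fam_inj hy (Set.mem_univ j) (Set.mem_univ j') h
      rfl
  · intro b z hz
    rcases hS z hz with h1 | ⟨j, w, rfl⟩
    · rw [g1 z h1, g1 _ (hA b z h1)]
    · rw [hsnoc, g2, g2, hsnoc]
  · intro i z hz z' hz'
    rcases hS z hz with h1 | ⟨j, w, rfl⟩
    · rcases hS z' hz' with h2 | ⟨j', w', rfl⟩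
      · rw [g1 z h1, g1 z' h2]
      · rw [g1 z h1, g2]
        constructor
        · intro h
          have h3 := fam_cmp hG hA hy (Set.mem_univ j') (Or.inl h1) (cmp_symm (hG.cmp i _ _ h))
          exact absurd (h3 ▸ h1) (hyA j' w')
        · intro h
          have h3 := fam_cmp hG hA hx (Set.mem_univ j') (Or.inl h1) (cmp_symm (hG.cmp i _ _ h))
          exact absurd (h3 ▸ h1) (hxA j' w')
    · rw [g2]
      have hz'' : z' ∈ A ∨ ∃ k' ∈ (Set.univ : Set α), ∃ w', z' = ev w' (x k') := by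
        rcases hS z' hz' with h2 | ⟨j', w', h2⟩
        · exact Or.inl h2
        · exact Or.inr ⟨j', trivial, w', h2⟩
      have hg'' : g z' ∈ A ∨ ∃ k' ∈ (Set.univ : Set α), ∃ w', g z' = ev w' (y k') := by
        rcases hS z' hz' with h2 | ⟨j', w', rfl⟩
        · exact Or.inl (by rwa [g1 z' h2])
        · exact Or.inr ⟨j', trivial, w', g2 j' w'⟩
      constructor
      · intro h
        have h3 := fam_cmp hG hA hy (Set.mem_univ j) hg'' (hG.cmp i _ _ h)
        rw [h3] at h
        exact absurd h (hG.irr i _)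
      · intro h
        have h3 := fam_cmp hG hA hx (Set.mem_univ j) hz'' (hG.cmp i _ _ h)
        rw [h3] at h
        exact absurd h (hG.irr i _)

theorem ND_main [Nonempty U] (hκ : ℵ₀ < κ) (hs : Saturated Lg κ U) (hG : Good U) (hE : Ext U) :
    ¬ Distal Lg U := by
  rintro ⟨-, hD⟩
  have hcl : ∀ S : Set U, S.Finite → #(cl S) < κ := fun S hS =>
    card_cl hκ (lt_of_lt_of_le (Cardinal.lt_aleph0_iff_set_finite.2 hS) hκ.le)
  -- a free sequence
  obtain ⟨f, hf1, hf2⟩ := exists_seq_of_forall_finset_exists (fun x : U => Free (∅ : Set U) x)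
    (fun x y => Disjoint (cl {x}) (cl {y})) (by
      intro s _
      obtain ⟨y, hy⟩ := FX_main hκ hs hG hE (A := cl (s : Set U)) (closed_cl _)
        (hcl _ s.finite_toSet)
      refine ⟨y, free_mono hy (Set.empty_subset _), fun x hx => ?_⟩
      rw [Set.disjoint_left]
      intro z hz hz'
      obtain ⟨w, rfl⟩ := mem_cl_one.1 hz'
      refine hy.2 w (cl_min (closed_cl _) ?_ hz)
      rw [Set.singleton_subset_iff]
      exact subset_cl _ hx)
  let e : ℚ → U := fun q => f (Denumerable.eqv ℚ q)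
  have he1 : ∀ q, Free (∅ : Set U) (e q) := fun q => hf1 _
  have he2 : ∀ q q', q ≠ q' → Disjoint (cl {e q}) (cl {e q'}) := by
    intro q q' h
    have h1 : (Denumerable.eqv ℚ) q ≠ (Denumerable.eqv ℚ) q' := fun h' =>
      h ((Denumerable.eqv ℚ).injective h')
    rcases lt_or_gt_of_ne h1 with h2 | h2
    · exact hf2 _ _ h2
    · exact (hf2 _ _ h2).symm
  let s : ℚ → Unit → U := fun q _ => e q
  have hind : Indisc Lg ∅ s := by
    intro k i j hi hj
    have hfam : ∀ i : Fin k → ℚ, StrictMono i → FreeFam (∅ : Set U) Set.univ (tup s i) := by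
      intro i hi
      refine ⟨fun a _ => he1 _, fun a _ b _ hab => he2 _ _ fun h => hab ?_⟩
      exact Prod.ext (hi.injective h) (Subsingleton.elim _ _)
    have hc : Closed (∅ : Set U) := fun b x hx => absurd hx (by simp)
    obtain ⟨g, hg1, hg2, hg3⟩ := nd_emb hG hc (hfam i hi) (hfam j hj)
    exact QE_main hκ hs hG hE hc (by
      rw [Cardinal.mk_eq_zero]
      exact lt_trans Cardinal.aleph0_pos hκ) hg1 hg2 hg3
  have hcut : Cut (0 : ℚ) := by
    refine ⟨⟨-1, by norm_num⟩, ⟨1, by norm_num⟩, fun i hi => ?_, fun i hi => ?_⟩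
    · exact exists_between hi
    · exact exists_between hi
  have hind2 : Indisc Lg {e 0} (fun i : {i : ℚ // i ≠ 0} => s i.1) := by
    intro k i j hi hj
    have hfam : ∀ i : Fin k → {i : ℚ // i ≠ 0}, StrictMono i → FreeFam (cl {e 0}) Set.univ
        (tup (fun i : {i : ℚ // i ≠ 0} => s i.1) i) := by
      intro i hi
      refine ⟨fun a _ => ⟨(he1 _).1, fun w hw => ?_⟩, fun a _ b _ hab => he2 _ _ fun h => hab ?_⟩
      · have h1 := he2 (i a.1).1 0 (i a.1).2
        exact (Set.disjoint_left.1 h1) (mem_cl_one.2 ⟨w, rfl⟩) hw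
      · exact Prod.ext (hi.injective (Subtype.ext h)) (Subsingleton.elim _ _)
    obtain ⟨g, hg1, hg2, hg3⟩ := nd_emb hG (closed_cl _) (hfam i hi) (hfam j hj)
    have h1 := QE_main hκ hs hG hE (closed_cl _) (hcl _ (Set.finite_singleton _)) hg1 hg2 hg3
    intro D hD
    exact h1 D (hD.mono (subset_cl _))
  have h1 := hD Unit ℚ 0 hcut s {e 0} (fun _ => trivial) hind hind2
  have h2 := h1 1 (fun _ => 0) (fun _ => 1) (Subsingleton.strictMono _) (Subsingleton.strictMono _)
    {x | val x (((0 : Fin 1), ()), []) = e 0} (DE_eqc (Set.mem_singleton _) _)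
  have h3 : e 1 = e 0 := h2.1 rfl
  exact (Set.disjoint_left.1 (he2 1 0 one_ne_zero)) (mem_cl_one.2 ⟨[], rfl⟩)
    (mem_cl_one.2 ⟨[], h3⟩)

end

end Pool.Agent.Lib_helper23.TF
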