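import Pool.Agent.Lib_helper23.TF.Defs
import Pool.Agent.Lib_helper23.TF.CB
import Pool.Agent.Lib_helper23.TF.DE
import Pool.Agent.Lib_helper23.TF.QE

/-!
# MP_bc6371_lc, block NP: the theory is NIP
-/

set_option autoImplicit false

namespace Pool.Agent.Lib_helper23.TF

open Cardinal Pool.Agent.Lib_helper23.SD Pool.Agent.Lib_helper23.TF

section
variable {U : Type} [Lg.Structure U]

/-- the basic relations: equality and the relations `lt i` -/
private def rel : Option Ix → U → U → Prop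
  | none, a, b => a = b
  | some i, a, b => Alg.lt i a b

/-- the basic sets -/
private def bas {γ : Type} (f : Option Ix × (γ × List Bool) × (γ × List Bool)) : Set (γ → U) :=
  {z | rel f.1 (val z f.2.1) (val z f.2.2)}

private theorem bas_def {γ : Type} (f : Option Ix × (γ × List Bool) × (γ × List Bool)) :
    (∅ : Set U).Definable Lg (bas f : Set (γ → U)) := by
  rcases f with ⟨_ | i, t, t'⟩
  · exact DE_eq _ t t'
  · exact DE_lt _ i t t'

private theorem iff_def {γ : Type} [Finite γ] {D : Set (γ → U)}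
    (hD : (∅ : Set U).Definable Lg D) :
    (∅ : Set U).Definable Lg {w : γ ⊕ γ → U | w ∘ Sum.inl ∈ D ↔ w ∘ Sum.inr ∈ D} := by
  have h1 : (∅ : Set U).Definable Lg {w : γ ⊕ γ → U | w ∘ Sum.inl ∈ D} :=
    hD.preimage_comp Sum.inl
  have h2 : (∅ : Set U).Definable Lg {w : γ ⊕ γ → U | w ∘ Sum.inr ∈ D} :=
    hD.preimage_comp Sum.inr
  have h3 := (h1.inter h2).union (h1.compl.inter h2.compl)
  have h4 : {w : γ ⊕ γ → U | w ∘ Sum.inl ∈ D ↔ w ∘ Sum.inr ∈ D} =
      {w : γ ⊕ γ → U | w ∘ Sum.inl ∈ D} ∩ {w : γ ⊕ γ → U | w ∘ Sum.inr ∈ D} ∪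
      {w : γ ⊕ γ → U | w ∘ Sum.inl ∈ D}ᶜ ∩ {w : γ ⊕ γ → U | w ∘ Sum.inr ∈ D}ᶜ := by
    ext w
    simp only [Set.mem_ofPred_eq, Set.mem_union, Set.mem_inter_iff, Set.mem_compl_iff]
    tauto
  rw [h4]
  exact h3

/-- tuples in the same basic sets have the same type over the empty set -/
private theorem same_of_bas {κ : Cardinal.{0}} (hκ : ℵ₀ < κ) (hs : Saturated Lg κ U)
    (hG : Good U) (hE : Ext U) {γ : Type} [Finite γ] {x y : γ → U}
    (hb : ∀ f, x ∈ bas f ↔ y ∈ bas f) : SameTp Lg ∅ x y := by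
  classical
  have he : ∀ t t', val x t = val x t' ↔ val y t = val y t' := fun t t' => hb (none, t, t')
  have hl : ∀ i t t', Alg.lt i (val x t) (val x t') ↔ Alg.lt i (val y t) (val y t') :=
    fun i t t' => hb (some i, t, t')
  let g : U → U := fun z => if h : ∃ t : γ × List Bool, z = val x t then val y h.choose else z
  have hgv : ∀ t, g (val x t) = val y t := by
    intro t
    have hex : ∃ t' : γ × List Bool, val x t = val x t' := ⟨t, rfl⟩
    have h1 : g (val x t) = val y hex.choose := dif_pos hex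
    rw [h1]
    exact (he _ _).1 hex.choose_spec.symm
  have hmem : ∀ z ∈ (∅ : Set U) ∪ cl (Set.range x), ∃ t : γ × List Bool, z = val x t := by
    intro z hz
    rcases hz with hz | hz
    · exact absurd hz (Set.notMem_empty z)
    · exact mem_cl_range.1 hz
  have hemb : IsEmb g ((∅ : Set U) ∪ cl (Set.range x)) := by
    refine ⟨?_, ?_, ?_⟩
    · intro z hz z' hz' hzz
      obtain ⟨t, rfl⟩ := hmem z hz
      obtain ⟨t', rfl⟩ := hmem z' hz'
      rw [hgv, hgv] at hzz
      exact (he _ _).2 hzz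
    · intro b z hz
      obtain ⟨⟨j, w⟩, rfl⟩ := hmem z hz
      have h1 : ∀ v : γ → U, Alg.s b (val v (j, w)) = val v (j, w ++ [b]) := by
        intro v
        show Alg.s b (ev w (v j)) = ev (w ++ [b]) (v j)
        rw [ev_append]
        rfl
      rw [h1 x, hgv, hgv, h1 y]
    · intro i z hz z' hz'
      obtain ⟨t, rfl⟩ := hmem z hz
      obtain ⟨t', rfl⟩ := hmem z' hz'
      rw [hgv, hgv]
      exact (hl i t t').symm
  refine QE_main hκ hs hG hE (A := (∅ : Set U)) (fun b x hx => absurd hx (Set.notMem_empty x))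
    (SM_countable hκ Set.countable_empty) hemb (fun a ha => absurd ha (Set.notMem_empty a)) ?_
  intro j
  exact hgv (j, [])

/-- a definable set is determined by finitely many basic sets -/
private theorem fin_bas {κ : Cardinal.{0}} (hκ : ℵ₀ < κ) (hs : Saturated Lg κ U)
    (hG : Good U) (hE : Ext U) {γ : Type} [Finite γ] {R : Set (γ → U)}
    (hR : (∅ : Set U).Definable Lg R) :
    ∃ F : Finset (Option Ix × (γ × List Bool) × (γ × List Bool)), ∀ z z' : γ → U,
      (∀ f ∈ F, (z ∈ bas f ↔ z' ∈ bas f)) → (z ∈ R ↔ z' ∈ R) := by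
  classical
  by_contra hcon
  have hcon' : ∀ F : Finset (Option Ix × (γ × List Bool) × (γ × List Bool)),
      ∃ z z' : γ → U, (∀ f ∈ F, (z ∈ bas f ↔ z' ∈ bas f)) ∧ ¬ (z ∈ R ↔ z' ∈ R) := by
    intro F
    by_contra h
    refine hcon ⟨F, fun z z' hz => ?_⟩
    by_contra hn
    exact h ⟨z, z', hz, hn⟩
  let N : Set (γ ⊕ γ → U) := {w | w ∘ Sum.inl ∈ R ↔ w ∘ Sum.inr ∈ R}ᶜ
  let E : Option Ix × (γ × List Bool) × (γ × List Bool) → Set (γ ⊕ γ → U) :=
    fun f => {w | w ∘ Sum.inl ∈ bas f ↔ w ∘ Sum.inr ∈ bas f}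
  have hfin : ∀ 𝓖 : Set (Set (γ ⊕ γ → U)), 𝓖.Finite → 𝓖 ⊆ insert N (Set.range E) →
      ∃ F : Finset (Option Ix × (γ × List Bool) × (γ × List Bool)),
        ∀ w : γ ⊕ γ → U, w ∈ N → (∀ f ∈ F, w ∈ E f) → ∀ D ∈ 𝓖, w ∈ D := by
    intro 𝓖 hfG
    induction 𝓖, hfG using Set.Finite.induction_on with
    | empty =>
      intro _
      exact ⟨∅, fun w _ _ D hD => absurd hD (Set.notMem_empty D)⟩
    | @insert D 𝓖 _ _ ih =>
      intro hsub
      obtain ⟨F, hF⟩ := ih (fun D hD => hsub (Set.mem_insert_of_mem _ hD))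
      rcases hsub (Set.mem_insert _ _) with h | ⟨f, h⟩
      · refine ⟨F, fun w hw hwF D' hD' => ?_⟩
        rcases Set.mem_insert_iff.1 hD' with rfl | hD'
        · rw [h]
          exact hw
        · exact hF w hw hwF D' hD'
      · refine ⟨insert f F, fun w hw hwF D' hD' => ?_⟩
        rcases Set.mem_insert_iff.1 hD' with rfl | hD'
        · rw [← h]
          exact hwF f (Finset.mem_insert_self _ _)
        · exact hF w hw (fun f' hf' => hwF f' (Finset.mem_insert_of_mem hf')) D' hD'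
  obtain ⟨w, hw⟩ := hs ∅ (SM_countable hκ Set.countable_empty) (γ ⊕ γ)
    (insert N (Set.range E)) (by
      rintro D (rfl | ⟨f, rfl⟩)
      · exact (iff_def hR).compl
      · exact iff_def (bas_def f)) (by
      intro 𝓖 hsub hfG
      obtain ⟨F, hF⟩ := hfin 𝓖 hfG hsub
      obtain ⟨z, z', hz, hzR⟩ := hcon' F
      exact ⟨Sum.elim z z', fun D hD => hF (Sum.elim z z') hzR hz D hD⟩)
  have h1 : SameTp Lg ∅ (w ∘ Sum.inl) (w ∘ Sum.inr) :=
    same_of_bas hκ hs hG hE fun f => hw (E f) (Set.mem_insert_of_mem _ ⟨f, rfl⟩)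
  exact hw N (Set.mem_insert _ _) (h1 R hR)

/-- traces of an order -/
private theorem trace_lin {k : ℕ} (r : U → U → Prop) (hir : ∀ a, ¬ r a a)
    (htr : ∀ a b c, r a b → r b c → r a c)
    (hto : ∀ a b c, r a c → r b c → r a b ∨ a = b ∨ r b a) (p : Fin k → U) (q : U) :
    {j | r (p j) q} = (∅ : Set (Fin k)) ∨
      ∃ j₀, {j | r (p j) q} = {j | p j = p j₀ ∨ r (p j) (p j₀)} := by
  classical
  rcases Set.eq_empty_or_nonempty {j | r (p j) q} with h | h
  · exact Or.inl h
  · right
    obtain ⟨j₀, hj₀, hmax⟩ := Set.exists_max_image {j | r (p j) q}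
      (fun j => (Finset.univ.filter fun j' => r (p j') (p j)).card) (Set.toFinite _) h
    refine ⟨j₀, ?_⟩
    ext j
    constructor
    · intro hj
      rcases hto _ _ _ hj hj₀ with h1 | h1 | h1
      · exact Or.inr h1
      · exact Or.inl h1
      · exfalso
        have h2 := hmax j hj
        have h3 : (Finset.univ.filter fun j' => r (p j') (p j₀)).card <
            (Finset.univ.filter fun j' => r (p j') (p j)).card := by
          apply Finset.card_lt_card
          rw [Finset.ssubset_iff_of_subset]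
          · refine ⟨j₀, ?_, ?_⟩
            · simpa using h1
            · simpa using hir _
          · intro j' hj'
            simp only [Finset.mem_filter, Finset.mem_univ, true_and] at hj' ⊢
            exact htr _ _ _ hj' h1
        exact absurd h3 (not_lt.2 h2)
    · rintro (h1 | h1)
      · show r (p j) q
        rw [h1]
        exact hj₀
      · exact htr _ _ _ h1 hj₀

private theorem tr1 (hG : Good U) {k : ℕ} (o : Option Ix) (p : Fin k → U) (q : U) :
    {j | rel o (p j) q} = (∅ : Set (Fin k)) ∨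
      ∃ j₀, {j | rel o (p j) q} = {j | p j = p j₀ ∨ rel o (p j) (p j₀)} := by
  rcases o with _ | i
  · rcases Set.eq_empty_or_nonempty {j | rel none (p j) q} with h | ⟨j₀, h⟩
    · exact Or.inl h
    · refine Or.inr ⟨j₀, ?_⟩
      have h0 : p j₀ = q := h
      ext j
      show p j = q ↔ p j = p j₀ ∨ p j = p j₀
      rw [h0, or_self]
  · exact trace_lin (fun a b => Alg.lt i a b) (hG.irr i) (hG.tr i)
      (fun a b c hac hbc => hG.tot i a b
        (cmp_trans (hG.cmp i a c hac) (cmp_symm (hG.cmp i b c hbc)))) p q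

private theorem tr2 (hG : Good U) {k : ℕ} (o : Option Ix) (p : Fin k → U) (q : U) :
    {j | rel o q (p j)} = (∅ : Set (Fin k)) ∨
      ∃ j₀, {j | rel o q (p j)} = {j | p j = p j₀ ∨ rel o (p j₀) (p j)} := by
  rcases o with _ | i
  · rcases Set.eq_empty_or_nonempty {j | rel none q (p j)} with h | ⟨j₀, h⟩
    · exact Or.inl h
    · refine Or.inr ⟨j₀, ?_⟩
      have h0 : q = p j₀ := h
      ext j
      show q = p j ↔ p j = p j₀ ∨ p j₀ = p j
      rw [← h0]
      constructor
      · intro h1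
        exact Or.inr h1
      · rintro (h1 | h1)
        · exact h1.symm
        · exact h1
  · refine trace_lin (fun a b => Alg.lt i b a) (hG.irr i)
      (fun a b c hab hbc => hG.tr i c b a hbc hab) (fun a b c hac hbc => ?_) p q
    rcases hG.tot i a b (cmp_trans (cmp_symm (hG.cmp i c a hac)) (hG.cmp i c b hbc))
      with h | h | h
    · exact Or.inr (Or.inr h)
    · exact Or.inr (Or.inl h)
    · exact Or.inl h

/-- there are few traces of a basic set -/
private theorem few (hG : Good U) {k : ℕ} {α β : Type} (x : Fin k → α → U)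
    (f : Option Ix × ((α ⊕ β) × List Bool) × ((α ⊕ β) × List Bool)) :
    ∃ c : Option (Option (Fin k)) → Set (Fin k), ∀ u : β → U, ∃ o,
      {j | (Sum.elim (x j) u : α ⊕ β → U) ∈ bas f} = c o := by
  classical
  obtain ⟨r, ⟨a | b, w⟩, ⟨a' | b', w'⟩⟩ := f
  · exact ⟨fun _ => {j | rel r (ev w (x j a)) (ev w' (x j a'))}, fun u => ⟨none, rfl⟩⟩
  · refine ⟨fun o => match o with
      | none => ∅
      | some none => ∅
      | some (some j₀) => {j | ev w (x j a) = ev w (x j₀ a) ∨
          rel r (ev w (x j a)) (ev w (x j₀ a))}, fun u => ?_⟩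
    rcases tr1 hG r (fun j => ev w (x j a)) (ev w' (u b')) with h | ⟨j₀, h⟩
    · exact ⟨none, h⟩
    · exact ⟨some (some j₀), h⟩
  · refine ⟨fun o => match o with
      | none => ∅
      | some none => ∅
      | some (some j₀) => {j | ev w' (x j a') = ev w' (x j₀ a') ∨
          rel r (ev w' (x j₀ a')) (ev w' (x j a'))}, fun u => ?_⟩
    rcases tr2 hG r (fun j => ev w' (x j a')) (ev w (u b)) with h | ⟨j₀, h⟩
    · exact ⟨none, h⟩
    · exact ⟨some (some j₀), h⟩
  · refine ⟨fun o => match o with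
      | none => ∅
      | some _ => Set.univ, fun u => ?_⟩
    by_cases h : rel r (ev w (u b)) (ev w' (u b'))
    · refine ⟨some none, ?_⟩
      ext j
      exact ⟨fun _ => trivial, fun _ => h⟩
    · refine ⟨none, ?_⟩
      ext j
      exact ⟨fun h' => absurd h' h, fun h' => absurd h' (Set.notMem_empty j)⟩

private theorem num (m : ℕ) : ∃ k : ℕ, (k + 2) ^ m < 2 ^ k := by
  have h := tendsto_pow_const_div_const_pow_of_one_lt m (r := (2 : ℝ)) (by norm_num)
  have h1 := (h.comp (Filter.tendsto_add_atTop_nat 2)).eventually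
    (gt_mem_nhds (show (0 : ℝ) < 1 / 4 by norm_num))
  obtain ⟨k, hk⟩ := h1.exists
  refine ⟨k, ?_⟩
  have hk' : (((k + 2 : ℕ) : ℝ)) ^ m / 2 ^ (k + 2) < 1 / 4 := hk
  rw [div_lt_iff₀ (by positivity)] at hk'
  have h2 : (1 / 4 : ℝ) * 2 ^ (k + 2) = 2 ^ k := by
    rw [pow_add]
    ring
  rw [h2] at hk'
  exact_mod_cast hk'

variable {κ : Cardinal.{0}}

theorem NP_main [Nonempty U] (hκ : ℵ₀ < κ) (hs : Saturated Lg κ U) (hG : Good U) (hE : Ext U) :
    NIP Lg U := by
  classical
  intro α β _ _ R hR hIP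
  obtain ⟨F, hF⟩ := fin_bas hκ hs hG hE hR
  obtain ⟨k, hk⟩ := num F.card
  obtain ⟨x, hx⟩ := hIP k
  choose u hu using hx
  choose c hc using fun f => few hG (β := β) x f
  choose o ho using hc
  have hinj : Function.Injective
      (fun (S : Set (Fin k)) (f : F) => o f.1 (u S)) := by
    intro S S' h
    ext j
    rw [← hu S j, ← hu S' j]
    apply hF
    intro f hf
    have h1 : o f (u S) = o f (u S') := congrFun h ⟨f, hf⟩
    have h2 : {j | (Sum.elim (x j) (u S) : α ⊕ β → U) ∈ bas f} =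
        {j | (Sum.elim (x j) (u S') : α ⊕ β → U) ∈ bas f} := by
      rw [ho f (u S), ho f (u S'), h1]
    exact Set.ext_iff.1 h2 j
  have hcard := Fintype.card_le_of_injective _ hinj
  have h3 : Fintype.card (Set (Fin k)) = 2 ^ k := by simp
  have h4 : Fintype.card (F → Option (Option (Fin k))) = (k + 2) ^ F.card := by simp
  rw [h3, h4] at hcard
  omega

end

end Pool.Agent.Lib_helper23.TF
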