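import Pool.Agent.Lib_helper23.TF.Defs

/-!
# MP_bc6371_lc, project TF, block PR: the product dominates (any language)
-/

set_option autoImplicit false

namespace Pool.Agent.Lib_helper23.TF

open Cardinal Pool.Agent.Lib_helper23.SD

private theorem def_eq {L : FirstOrder.Language.{0, 0}} {U : Type} [L.Structure U] (A : Set U)
    {β : Type} (i j : β) : A.Definable L {z : β → U | z i = z j} :=
  ⟨(FirstOrder.Language.Term.var i).equal (FirstOrder.Language.Term.var j), by
    ext z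
    simp [FirstOrder.Language.Formula.realize_equal]⟩

theorem PR_main {L : FirstOrder.Language.{0, 0}} {U : Type} [L.Structure U] {κ : Cardinal.{0}}
    (hκ : ℵ₀ < κ) (hs : Saturated L κ U) {α : Type} [Finite α]
    (p : Typ L (Set.univ : Set U) α) {A : Set U} (hA : #A < κ) (hp : InvOver L A p.sets) :
    Dominates L κ (tensor L κ p.sets p.sets) p.sets := by
  obtain ⟨t, ht, hti⟩ := TT_main hκ hs p p hA hp hp
  obtain ⟨x, hx⟩ := HO_real hκ hs t hA
  rw [ht] at hx hti
  let r : Typ L A ((α ⊕ α) ⊕ α) :=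
    { sets := {R | A.Definable L R ∧ (Sum.elim x (x ∘ Sum.inl) : (α ⊕ α) ⊕ α → U) ∈ R}
      dfn := fun D hD => hD.1
      inter := fun D hD D' hD' => ⟨hD.1.inter hD'.1, hD.2, hD'.2⟩
      mono := fun D hD D' hD' hs => ⟨hD', hs hD.2⟩
      nempty := fun h => h.2
      ultra := by
        intro D hD
        by_cases h : (Sum.elim x (x ∘ Sum.inl) : (α ⊕ α) ⊕ α → U) ∈ D
        · exact Or.inl ⟨hD, h⟩
        · exact Or.inr ⟨hD.compl, h⟩ }
  refine ⟨A, hA, hti, hp, r, ?_, ?_, ?_⟩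
  · intro D hD hDA
    exact ⟨hDA.preimage_comp (Sum.inl : α ⊕ α → (α ⊕ α) ⊕ α), hx D hD hDA⟩
  · intro D hD hDA
    refine ⟨hDA.preimage_comp (Sum.inr : α → (α ⊕ α) ⊕ α), ?_⟩
    exact hx {z : α ⊕ α → U | z ∘ Sum.inl ∈ D} (TT_inl hκ hs p p hA hp hD)
      (hDA.preimage_comp (Sum.inl : α → α ⊕ α))
  · intro D hD
    refine ⟨{z : α ⊕ α → U | z ∘ Sum.inl ∈ D}, TT_inl hκ hs p p hA hp hD,
      ⋂ a : α, {z : (α ⊕ α) ⊕ α → U | z (Sum.inl (Sum.inl a)) = z (Sum.inr a)}, ⟨?_, ?_⟩, ?_⟩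
    · exact Set.definable_iInter_of_finite fun a => def_eq A _ _
    · exact Set.mem_iInter.2 fun a => rfl
    · intro z y hz hR
      have : y = z ∘ Sum.inl := by
        funext a
        exact (Set.mem_iInter.1 hR a).symm
      rw [this]
      exact hz

end Pool.Agent.Lib_helper23.TF
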