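import Pool.Agent.Lib_helper23.TF.Defs
import Pool.Agent.Lib_helper23.TF.CB
import Pool.Agent.Lib_helper23.TF.FR1
import Pool.Agent.Lib_helper23.TF.FR2
import Pool.Agent.Lib_helper23.TF.DE
import Pool.Agent.Lib_helper23.TF.NW
import Pool.Agent.Lib_helper23.TF.GL
import Pool.Agent.Lib_helper23.TF.TR

/-!
# MP_bc6371_lc, block RR: the configuration
-/

set_option autoImplicit false

namespace Pool.Agent.Lib_helper23.TF

open Cardinal Pool.Agent.Lib_helper23.SD Pool.Agent.Lib_helper23.TF

section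
variable {U : Type} [Lg.Structure U] {κ : Cardinal.{0}}

private theorem val_ev {α : Type} (x : α → U) (t : α × List Bool) (w : List Bool) :
    ev w (val x t) = val x (t.1, t.2 ++ w) := by
  unfold val
  rw [ev_append]

/-- a free family is transported by sameness of types -/
private theorem fam_same {α : Type} {A : Set U} {X x : α → U} (h : SameTp Lg A X x)
    {K : Set (α × List Bool)} (hK : FreeFam A K (val X)) : FreeFam A K (val x) := by
  obtain ⟨h1, -, -, -, -, -, -, -, h9⟩ := DE_same h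
  refine ⟨fun k hk => (h9 k).1 (hK.1 k hk), fun k hk k' hk' hne => ?_⟩
  have hd := hK.2 k hk k' hk' hne
  rw [Set.disjoint_left] at hd ⊢
  intro z hz hz'
  obtain ⟨w, hw⟩ := mem_cl_one.1 hz
  obtain ⟨w', hw'⟩ := mem_cl_one.1 hz'
  have he : ev w (val x k) = ev w' (val x k') := hw.symm.trans hw'
  rw [val_ev, val_ev] at he
  have he' := (h1 _ _).2 he
  rw [← val_ev, ← val_ev] at he'
  exact hd (mem_cl_one.2 ⟨w, rfl⟩) (mem_cl_one.2 ⟨w', he'⟩)

/-- an anchored new term: the value of a realisation over `A` is comparable with the term -/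
private theorem anch_cmp (hκ : ℵ₀ < κ) (hs : Saturated Lg κ U) (hG : Good U) (hE : Ext U)
    {A : Set U} (hA : Closed A) (hAκ : #A < κ) {α : Type} [Finite α]
    (p : Typ Lg (Set.univ : Set U) α) (hp : InvOver Lg A p.sets) {X : α → U}
    (hX : Real Lg p.sets A X) (i : Ix) (t : α × List Bool) (ha : Anch p i t) :
    {y : α → U | Cmp i (val X t) (val y t)} ∈ p.sets := by
  obtain ⟨c, hc⟩ := ha
  have hdef : (Set.univ : Set U).Definable Lg {y : α → U | Cmp i (val X t) (val y t)} :=
    DE_cmp (Set.mem_univ _) i t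
  cases i with
  | fib b =>
    have hval : ∀ y : α → U, Alg.s b (val y t) = val y (t.1, t.2 ++ [b]) := by
      intro y
      rw [← val_ev]
      rfl
    have h1 : {y : α → U | val y (t.1, t.2 ++ [b]) = Alg.s b c} ∈ p.sets := by
      refine p.mono _ hc _ (DE_eqc (Set.mem_univ _) _) ?_
      intro y hy
      show val y (t.1, t.2 ++ [b]) = Alg.s b c
      rw [← hval]
      exact (Eq.symm hy)
    have h2 : Alg.s b c ∈ A := NW_main hκ hs hG hE hA hAκ p hp h1
    have h3 : val X (t.1, t.2 ++ [b]) = Alg.s b c := hX _ h1 (DE_eqc h2 _)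
    refine p.mono _ h1 _ hdef ?_
    intro y hy
    show Alg.s b (val X t) = Alg.s b (val y t)
    rw [hval, hval, h3]
    exact (Eq.symm hy)
  | co u v =>
    have h1 : {y : α → U | InN u v (val y t)} ∈ p.sets := by
      refine p.mono _ hc _ (DE_inN _ u v t) ?_
      intro y hy
      exact hy.2
    have h3 : InN u v (val X t) := hX _ h1 (DE_inN _ u v t)
    refine p.mono _ h1 _ hdef ?_
    intro y hy
    exact ⟨h3, hy⟩

/-- one of the two relations -/
private theorem two (hκ : ℵ₀ < κ) (hs : Saturated Lg κ U) (hG : Good U) (hE : Ext U)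
    {A : Set U} (hA : Closed A) (hAκ : #A < κ) {α : Type} [Finite α]
    (p : Typ Lg (Set.univ : Set U) α) (hp : InvOver Lg A p.sets) {X : α → U}
    (hX : Real Lg p.sets A X) (i : Ix) (t : α × List Bool) (hn : New p t) (ha : Anch p i t) :
    {y : α → U | Alg.lt i (val X t) (val y t)} ∈ p.sets ∨
      {y : α → U | Alg.lt i (val y t) (val X t)} ∈ p.sets := by
  have hc := anch_cmp hκ hs hG hE hA hAκ p hp hX i t ha
  have d1 : (Set.univ : Set U).Definable Lg {y : α → U | Alg.lt i (val X t) (val y t)} :=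
    DE_clt (Set.mem_univ _) i t
  have d2 : (Set.univ : Set U).Definable Lg {y : α → U | Alg.lt i (val y t) (val X t)} :=
    DE_ltc (Set.mem_univ _) i t
  rcases p.ultra _ d1 with h1 | h1
  · exact Or.inl h1
  rcases p.ultra _ d2 with h2 | h2
  · exact Or.inr h2
  exfalso
  refine hn (val X t) ?_
  refine p.mono _ (p.inter _ hc _ (p.inter _ h1 _ h2)) _ (DE_eqc (Set.mem_univ _) t) ?_
  rintro y ⟨hy, hy1, hy2⟩
  rcases hG.tot i _ _ hy with h | h | h
  · exact absurd h hy1
  · exact Eq.symm h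
  · exact absurd h hy2

private theorem upper (hκ : ℵ₀ < κ) (hs : Saturated Lg κ U) (hG : Good U) (hE : Ext U)
    {A : Set U} (hA : Closed A) (hAκ : #A < κ) {α : Type} [Finite α]
    (p : Typ Lg (Set.univ : Set U) α) (hp : InvOver Lg A p.sets) {X : α → U}
    (hX : Real Lg p.sets A X) (i : Ix) (t : α × List Bool) (hn : New p t) (ha : Anch p i t)
    (hL : LType p A i t) : {y : α → U | Alg.lt i (val y t) (val X t)} ∈ p.sets := by
  rcases two hκ hs hG hE hA hAκ p hp hX i t hn ha with h | h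
  · exfalso
    obtain ⟨a, haA, ha1, ha2⟩ := hL _ h
    have h3 : Alg.lt i a (val X t) := hX _ ha1 (DE_clt haA i t)
    rcases ha2 with h4 | h4
    · rw [h4] at h3
      exact hG.irr i _ h3
    · exact hG.irr i _ (hG.tr i _ _ _ h3 h4)
  · exact h

private theorem lower (hκ : ℵ₀ < κ) (hs : Saturated Lg κ U) (hG : Good U) (hE : Ext U)
    {A : Set U} (hA : Closed A) (hAκ : #A < κ) {α : Type} [Finite α]
    (p : Typ Lg (Set.univ : Set U) α) (hp : InvOver Lg A p.sets) {X : α → U}
    (hX : Real Lg p.sets A X) (i : Ix) (t : α × List Bool) (hn : New p t) (ha : Anch p i t)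
    (hR : RType p A i t) : {y : α → U | Alg.lt i (val X t) (val y t)} ∈ p.sets := by
  rcases two hκ hs hG hE hA hAκ p hp hX i t hn ha with h | h
  · exact h
  · exfalso
    obtain ⟨a, haA, ha1, ha2⟩ := hR _ h
    have h3 : Alg.lt i (val X t) a := hX _ ha1 (DE_ltc haA i t)
    rcases ha2 with h4 | h4
    · rw [h4] at h3
      exact hG.irr i _ h3
    · exact hG.irr i _ (hG.tr i _ _ _ h4 h3)

theorem RR_main (hκ : ℵ₀ < κ) (hs : Saturated Lg κ U) (hG : Good U) (hE : Ext U) {A : Set U}
    (hA : Closed A) (hAκ : #A < κ) {α : Type} [Finite α] (p : Typ Lg (Set.univ : Set U) α)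
    (hp : InvOver Lg A p.sets) :
    ∃ (X x' x'' : α → U) (K : Set (α × List Bool)), Real Lg p.sets A X ∧
      Real Lg (tensor Lg κ p.sets p.sets) A (Sum.elim x' x'') ∧ FreeFam A K (val X) ∧
      (∀ t, Free A (val X t) → ∃ k ∈ K, ∃ w v, ev w (val X t) = ev v (val X k)) ∧
      (∀ k ∈ K, val x' k = Alg.s false (val X k) ∧ val x'' k = Alg.s true (val X k)) ∧
      (∀ i t, New p t → Anch p i t → LType p A i t →
        Alg.lt i (val x' t) (val X t) ∧ Alg.lt i (val x'' t) (val X t)) ∧
      ∀ i t, New p t → Anch p i t → RType p A i t →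
        Alg.lt i (val X t) (val x' t) ∧ Alg.lt i (val X t) (val x'' t) := by
  obtain ⟨X, hX⟩ := HO_real hκ hs p hAκ
  obtain ⟨K, hK, hmax⟩ := fam_max A X
  have hfin : ∀ z : α → U, #(Set.range z) < κ := fun z =>
    SM_countable hκ (Set.countable_range z)
  have hXcl : ∀ t, val X t ∈ cl (Set.range X) := fun t => mem_cl_range.2 ⟨t, rfl⟩
  -- the first gluing
  have hB1 : Closed (A ∪ cl (Set.range X)) := closed_union hA (closed_cl _)
  have hB1κ : #(A ∪ cl (Set.range X) : Set U) < κ := SM_union hκ hAκ (card_cl hκ (hfin X))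
  obtain ⟨x0, hx0⟩ := HO_real hκ hs p hB1κ
  have hsame0 : SameTp Lg A X x0 := IN_same p hX (IN_real hx0 Set.subset_union_left)
  have hg1 := (fam_half hK true).1
  obtain ⟨x'', h1, h2, h3, h4⟩ := GL_main hκ hs hG hE hA hB1 Set.subset_union_left hB1κ p hp hx0
    (fam_same hsame0 hK) (g := fun k => Alg.s true (val X k)) hg1
    (fun k _ => hB1 true _ (Or.inr (hXcl k)))
  have hfreeA : ∀ b, ∀ k ∈ K, Disjoint A (cl {Alg.s b (val X k)}) := by
    intro b k hk
    rw [Set.disjoint_left]
    intro z hz hz'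
    obtain ⟨w, hw⟩ := mem_cl_one.1 hz'
    rw [hw] at hz
    exact ((fam_half hK b).1.1 k hk).2 w hz
  have hx''A : Real Lg p.sets A x'' :=
    h2 A hA (subset_refl _) Set.subset_union_left (hfreeA true)
  -- the second gluing
  have hA2 : Closed (A ∪ cl (Set.range x'')) := closed_union hA (closed_cl _)
  have hB2 : Closed ((A ∪ cl (Set.range X)) ∪ cl (Set.range x'')) := closed_union hB1 (closed_cl _)
  have hB2κ : #((A ∪ cl (Set.range X)) ∪ cl (Set.range x'') : Set U) < κ :=
    SM_union hκ hB1κ (card_cl hκ (hfin x''))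
  have hsub : A ⊆ (A ∪ cl (Set.range X)) ∪ cl (Set.range x'') := fun a ha => Or.inl (Or.inl ha)
  obtain ⟨x1, hx1⟩ := HO_real hκ hs p hB2κ
  have hsame1 : SameTp Lg A X x1 := IN_same p hX (IN_real hx1 hsub)
  have hg2 := (fam_half hK false).1
  obtain ⟨x', k1, k2, k3, k4⟩ := GL_main hκ hs hG hE hA hB2 hsub hB2κ p hp hx1
    (fam_same hsame1 hK) (g := fun k => Alg.s false (val X k)) hg2
    (fun k _ => hB2 false _ (Or.inl (Or.inr (hXcl k))))
  have hdis : ∀ k ∈ K, Disjoint (A ∪ cl (Set.range x'')) (cl {Alg.s false (val X k)}) := by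
    intro k hk
    rw [Set.disjoint_left]
    rintro z (hz | hz) hz'
    · exact Set.disjoint_left.1 (hfreeA false k hk) hz hz'
    · obtain ⟨t, rfl⟩ := mem_cl_range.1 hz
      have hin : val x'' t ∈ A ∪ cl (Set.range X) := by
        refine cl_min hB1 ?_ hz'
        intro y hy
        rw [Set.mem_singleton_iff] at hy
        rw [hy]
        exact hB1 false _ (Or.inr (hXcl k))
      rcases h4 t hin with h5 | ⟨k', hk', h5⟩
      · exact Set.disjoint_left.1 (hfreeA false k hk) h5 hz'
      · exact Set.disjoint_left.1 ((fam_half hK false).2 k hk k' hk') hz' h5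
  have hx'A : Real Lg p.sets (A ∪ cl (Set.range x'')) x' :=
    k2 _ hA2 Set.subset_union_left
      (Set.union_subset_union_left _ Set.subset_union_left) hdis
  have hten : Real Lg (tensor Lg κ p.sets p.sets) A (Sum.elim x' x'') := by
    refine TR_main hκ hs p p (subset_refl A) hAκ hp hx''A (IN_real hx'A ?_)
    exact Set.union_subset_union_right _ (subset_cl _)
  refine ⟨X, x', x'', K, hX, hten, hK, hmax, fun k hk => ⟨k1 k hk, h1 k hk⟩, ?_, ?_⟩
  · intro i t hn ha hL
    have hu := upper hκ hs hG hE hA hAκ p hp hX i t hn ha hL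
    have m1 : val X t ∈ A ∪ cl (Set.range X) := Or.inr (hXcl t)
    have m2 : val X t ∈ (A ∪ cl (Set.range X)) ∪ cl (Set.range x'') := Or.inl m1
    exact ⟨(k3 i t _ m2).2 (hx1 _ hu (DE_ltc m2 i t)), (h3 i t _ m1).2 (hx0 _ hu (DE_ltc m1 i t))⟩
  · intro i t hn ha hR
    have hu := lower hκ hs hG hE hA hAκ p hp hX i t hn ha hR
    have m1 : val X t ∈ A ∪ cl (Set.range X) := Or.inr (hXcl t)
    have m2 : val X t ∈ (A ∪ cl (Set.range X)) ∪ cl (Set.range x'') := Or.inl m1
    exact ⟨(k3 i t _ m2).1 (hx1 _ hu (DE_clt m2 i t)), (h3 i t _ m1).1 (hx0 _ hu (DE_clt m1 i t))⟩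

end

end Pool.Agent.Lib_helper23.TF
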