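import Pool.Agent.Lib_helper23.TF.CB
import Pool.Agent.Lib_helper23.TF.DE
import Pool.Agent.Lib_helper23.TF.DI
import Pool.Agent.Lib_helper23.TF.DM
import Pool.Agent.Lib_helper23.TF.RR
import Pool.Agent.Lib_helper23.TF.FS
import Pool.Agent.Lib_helper23.TF.FB
import Pool.Agent.Lib_helper23.TF.PR
import Pool.Agent.Lib_helper23.TF.ND
import Pool.Agent.Lib_helper23.TF.NP
import Pool.Agent.Lib_helper23.TF.AX
import Pool.Agent.Lib_helper23.TF.MO
import Pool.Agent.Lib_helper23.TF.SA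
import Pool.Agent.Lib_helper23.TF.TR

/-!
# MP_bc6371_lc, non-distal theory with idempotent types: assembly
-/

set_option autoImplicit false

namespace Pool.Agent.Lib_helper23.TF

open Cardinal Pool.Agent.Lib_helper23.SD

section
variable {U : Type} [Lg.Structure U] {κ : Cardinal.{0}}

theorem real_same {L : FirstOrder.Language.{0, 0}} {U : Type} [L.Structure U] {α : Type}
    {p : Set (Set (α → U))} {A : Set U} {x y : α → U} (h : SameTp L A x y) (hx : Real L p A x) :
    Real L p A y :=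
  fun D hD hA => (h D hA).1 (hx D hD hA)

theorem freeFam_same {α : Type} {A : Set U} {x y : α → U} (h : SameTp Lg A x y)
    {K : Set (α × List Bool)} (hK : FreeFam A K (val x)) : FreeFam A K (val y) := by
  obtain ⟨h1, -, -, -, -, -, -, -, h9⟩ := DE_same h
  refine ⟨fun k hk => (h9 k).1 (hK.1 k hk), fun k hk k' hk' hne => ?_⟩
  have := hK.2 k hk k' hk' hne
  rw [Set.disjoint_left] at this ⊢
  intro z hz hz'
  rw [mem_cl_one] at hz hz'
  obtain ⟨w, rfl⟩ := hz
  obtain ⟨w', hw'⟩ := hz'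
  refine this (a := ev w (val x k)) (mem_cl_one.2 ⟨w, rfl⟩) (mem_cl_one.2 ⟨w', ?_⟩)
  have h2 := h1 (k.1, k.2 ++ w) (k'.1, k'.2 ++ w')
  simp only [val, ev_append] at h2 hw' ⊢
  exact h2.2 hw'

theorem idem (hκ : ℵ₀ < κ) (hs : Saturated Lg κ U) (hG : Good U) (hE : Ext U) {α : Type} [Finite α]
    (p : Typ Lg (Set.univ : Set U) α) (hp : ∃ A : Set U, #A < κ ∧ InvOver Lg A p.sets) :
    Dominates Lg κ p.sets (tensor Lg κ p.sets p.sets) ∧
      Dominates Lg κ (tensor Lg κ p.sets p.sets) p.sets := by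
  obtain ⟨A₀, hA₀, hp₀⟩ := hp
  refine ⟨?_, PR_main hκ hs p hA₀ hp₀⟩
  obtain ⟨A, hAdef⟩ : ∃ A : Set U, A = cl A₀ := ⟨_, rfl⟩
  have hA : Closed A := hAdef ▸ closed_cl A₀
  have hAκ : #A < κ := hAdef ▸ card_cl hκ hA₀
  have hpA : InvOver Lg A p.sets := IN_mono hp₀ (hAdef ▸ subset_cl A₀)
  obtain ⟨X, x', x'', K, hX, hx, hK, hmax, hk, hL, hR⟩ := RR_main hκ hs hG hE hA hAκ p hpA
  obtain ⟨q, hq, hqA⟩ := TT_main hκ hs p p hAκ hpA hpA
  have hx' := TR_proj hκ hs p p subset_rfl hAκ hpA hx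
  have hd : ∀ i t, New p t → LType p A i t ∨ RType p A i t := fun i t ht =>
    DI_main hκ hs hG hE hA hAκ p hpA ht i
  rw [← hq]
  refine DM_main hκ hs p q hAκ hpA hqA hX (y := Sum.elim x' x'') (by rw [hq]; exact hx) ?_
  intro D hD
  obtain ⟨m, b, R, -, hR', hDR⟩ := DF_par (q.dfn D hD)
  have hDb : (A ∪ Set.range b).Definable Lg D := by
    rw [hDR]
    exact (DF_fib hR' b).mono (Set.union_subset_union_left _ (Set.empty_subset _))
  have hFκ : #(A ∪ Set.range b : Set U) < κ :=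
    SM_union hκ hAκ (SM_countable hκ (Set.finite_range b).countable)
  obtain ⟨A', hA'def⟩ : ∃ A' : Set U, A' = cl (A ∪ Set.range b) := ⟨_, rfl⟩
  have hA' : Closed A' := hA'def ▸ closed_cl _
  have hA'κ : #A' < κ := hA'def ▸ card_cl hκ hFκ
  have hsub : A ∪ Set.range b ⊆ A' := hA'def ▸ subset_cl _
  have hAA' : A ⊆ A' := Set.subset_union_left.trans hsub
  refine ⟨A', hAA', hA'κ, hDb.mono hsub, ?_⟩
  intro Y y hY hsame
  obtain ⟨y', hy'⟩ : ∃ y' : α → U, y' = y ∘ Sum.inl := ⟨_, rfl⟩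
  obtain ⟨y'', hy''⟩ : ∃ y'' : α → U, y'' = y ∘ Sum.inr := ⟨_, rfl⟩
  have hy : y = Sum.elim y' y'' := by
    rw [hy', hy'']
    exact (Sum.elim_comp_inl_inr y).symm
  subst hy
  obtain ⟨h1, -, h3, -, -, -, -, -, h9⟩ := DE_same hsame
  have hsX : SameTp Lg A Y X := IN_comp hsame Sum.inl
  have hsy : SameTp Lg A (Sum.elim y' y'') (Sum.elim x' x'') := IN_comp hsame Sum.inr
  have hs' : SameTp Lg A y' x' := IN_comp hsy Sum.inl
  have hs'' : SameTp Lg A y'' x'' := IN_comp hsy Sum.inr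
  have hsame' : ∀ {β : Type} {a b : β → U}, SameTp Lg A a b → SameTp Lg A b a :=
    fun h D hD => (h D hD).symm
  have hKY : FreeFam A K (val Y) := freeFam_same (hsame' hsX) hK
  obtain ⟨e1, -, -, -, -, -, -, -, e9⟩ := DE_same hsX
  have hmaxY : ∀ t, Free A (val Y t) → ∃ k ∈ K, ∃ w v, ev w (val Y t) = ev v (val Y k) := by
    intro t ht
    obtain ⟨k, hkK, w, v, h⟩ := hmax t ((e9 t).1 ht)
    refine ⟨k, hkK, w, v, ?_⟩
    have h2 := e1 (t.1, t.2 ++ w) (k.1, k.2 ++ v)
    simp only [val, ev_append] at h2 h ⊢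
    exact h2.2 h
  have hk' : ∀ k ∈ K, val y' k = Alg.s false (val Y k) := by
    intro k hkK
    have h2 := h1 (Sum.inr (Sum.inl k.1), k.2) (Sum.inl k.1, k.2 ++ [false])
    simp only [val, ev_append, Sum.elim_inl, Sum.elim_inr] at h2
    exact h2.2 (hk k hkK).1
  have hk'' : ∀ k ∈ K, val y'' k = Alg.s true (val Y k) := by
    intro k hkK
    have h2 := h1 (Sum.inr (Sum.inr k.1), k.2) (Sum.inl k.1, k.2 ++ [true])
    simp only [val, ev_append, Sum.elim_inl, Sum.elim_inr] at h2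
    exact h2.2 (hk k hkK).2
  have hy'A' : Real Lg p.sets A' y' := by
    refine FS_main hκ hs hG hE hA hAκ p hpA hd hA' hAA' hA'κ hY (real_same (hsame' hs') hx'.1) hKY
      hmaxY false hk' ?_ ?_
    · intro i t ht ha hl
      exact (h3 i (Sum.inr (Sum.inl t.1), t.2) (Sum.inl t.1, t.2)).2 (hL i t ht ha hl).1
    · intro i t ht ha hl
      exact (h3 i (Sum.inl t.1, t.2) (Sum.inr (Sum.inl t.1), t.2)).2 (hR i t ht ha hl).1
  have hy''A' : Real Lg p.sets A' y'' := by
    refine FS_main hκ hs hG hE hA hAκ p hpA hd hA' hAA' hA'κ hY (real_same (hsame' hs'') hx'.2) hKY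
      hmaxY true hk'' ?_ ?_
    · intro i t ht ha hl
      exact (h3 i (Sum.inr (Sum.inr t.1), t.2) (Sum.inl t.1, t.2)).2 (hL i t ht ha hl).2
    · intro i t ht ha hl
      exact (h3 i (Sum.inl t.1, t.2) (Sum.inr (Sum.inr t.1), t.2)).2 (hR i t ht ha hl).2
  have hfin := FB_main hκ hs hG hE hA hAκ p hpA hA' hAA' hA'κ hy'A' hy''A'
    (real_same (hsame' hsy) hx)
  exact hfin D (hq ▸ hD) (hDb.mono hsub)

end

instance : Countable (Σ n, Lg.Functions n) := by
  have hs : Function.Surjective (fun b : Bool => (⟨1, Fn.s b⟩ : Σ n, Lg.Functions n)) := by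
    rintro ⟨n, f⟩
    cases f with
    | s b => exact ⟨b, rfl⟩
  exact hs.countable

instance : Countable (Σ n, Lg.Relations n) := by
  have hs : Function.Surjective (fun z : Bool ⊕ List Bool × List Bool =>
      (⟨2, Rl.lt (Sum.elim (fun b => Ix.fib b) (fun u => Ix.co u.1 u.2) z)⟩ :
        Σ n, Lg.Relations n)) := by
    rintro ⟨n, f⟩
    cases f with
    | lt i =>
      cases i with
      | fib b => exact ⟨Sum.inl b, rfl⟩
      | co u v => exact ⟨Sum.inr (u, v), rfl⟩
  exact hs.countable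

/-- the theorem -/
theorem main : ∃ (L : FirstOrder.Language.{0, 0}) (T : L.Theory),
    Countable L.Symbols ∧ T.IsComplete ∧ (∀ (U : Type) [L.Structure U], U ⊨ T → Infinite U) ∧
    (∀ κ : Cardinal.{0}, ∃ (U : Type) (_ : L.Structure U), U ⊨ T ∧ Saturated L κ U) ∧
    ∀ (κ : Cardinal.{0}) (U : Type) [L.Structure U], ℵ₀ < κ → U ⊨ T → Saturated L κ U →
      NIP L U ∧ ¬ Distal L U ∧
      ∀ (α : Type) [Finite α] (p : Typ L (Set.univ : Set U) α),
        (∃ A : Set U, #A < κ ∧ InvOver L A p.sets) →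
        Dominates L κ p.sets (tensor L κ p.sets p.sets) ∧
        Dominates L κ (tensor L κ p.sets p.sets) p.sets := by
  obtain ⟨M, hM, hinf, hG, hE⟩ := MO_main
  have hne : Nonempty M := inferInstance
  have hee : ∀ (U : Type) [Lg.Structure U], U ⊨ Lg.completeTheory M →
      Lg.ElementarilyEquivalent M U := by
    intro U _ hU
    show Lg.completeTheory M = Lg.completeTheory U
    have h1 : Lg.completeTheory M ⊆ Lg.completeTheory U := FirstOrder.Language.Theory.completeTheory.subset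
    refine Set.Subset.antisymm h1 fun φ hφ => ?_
    rcases (FirstOrder.Language.completeTheory.isMaximal Lg M).2 φ with h | h
    · exact h
    · have h2 := h1 h
      rw [FirstOrder.Language.mem_completeTheory] at hφ h2
      exact absurd hφ (FirstOrder.Language.Sentence.realize_not U |>.1 h2)
  refine ⟨Lg, Lg.completeTheory M, ?_, ?_, ?_, ?_, ?_⟩
  · show Countable ((Σ n, Lg.Functions n) ⊕ (Σ n, Lg.Relations n))
    infer_instance
  · exact (FirstOrder.Language.completeTheory.isMaximal Lg M).isComplete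
  · intro U _ hU
    have := hee U hU
    exact this.infinite_iff.1 hinf
  · intro κ
    obtain ⟨U, hU, hMU, hs⟩ := SA_main Lg M κ
    refine ⟨U, hU, ?_, hs⟩
    exact hMU.theory_model (T := Lg.completeTheory M)
  · intro κ U _ hκ hU hs
    obtain ⟨hG', hE'⟩ := AX_main hG hE (hee U hU)
    have hinfU : Infinite U := (hee U hU).infinite_iff.1 hinf
    have hne' : Nonempty U := inferInstance
    exact ⟨NP_main hκ hs hG' hE', ND_main hκ hs hG' hE', fun α _ p hp => idem hκ hs hG' hE' p hp⟩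

end Pool.Agent.Lib_helper23.TF
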