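import Pool.Agent.Lib_helper23.TF.Defs

/-!
# MP_bc6371_lc Q1, block SA: every structure has a saturated elementarily equivalent structure

The structure is a limit ultrapower: functions on `Λ → I` which depend on the coordinates below some
element of the long well order `Λ`, modulo an ultrafilter with a Fubini property.
-/

set_option autoImplicit false

namespace Pool.Agent.Lib_helper23.TF

open Cardinal Pool.Agent.Lib_helper23.SD Filter

section lam
open Ordinal

private theorem SAT_Lam (θ : Cardinal.{0}) : ∃ (Λ : Type) (_ : LinearOrder Λ) (_ : WellFoundedLT Λ),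
    ∀ (J : Type) (_ : #J ≤ θ) (f : J → Λ), ∃ β, ∀ j, f j < β := by
  set c : Cardinal.{0} := Order.succ (max θ ℵ₀) with hc
  have hreg : c.IsRegular := isRegular_succ (le_max_right _ _)
  refine ⟨c.ord.ToType, inferInstance, inferInstance, fun J hJ f => ?_⟩
  have hJ' : #J < c := lt_of_le_of_lt (hJ.trans (le_max_left _ _)) (Order.lt_succ _)
  have h1 : lsub (fun j => ((ToType.mk.symm (f j) : Set.Iio c.ord) : Ordinal)) < c.ord :=
    lsub_lt_ord_of_isRegular hreg hJ' fun j => (ToType.mk.symm (f j)).2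
  refine ⟨ToType.mk ⟨_, h1⟩, fun j => ?_⟩
  have h2 : (ToType.mk.symm (f j) : Set.Iio c.ord) < ⟨_, h1⟩ :=
    lt_lsub (fun j => ((ToType.mk.symm (f j) : Set.Iio c.ord) : Ordinal)) j
  have h3 := (ToType.mk (o := c.ord)).lt_iff_lt.2 h2
  rwa [OrderIso.apply_symm_apply] at h3

end lam

section SATuf
variable {Λ I : Type} [LinearOrder Λ]

/-- `g` depends on the coordinates below `α` -/
private def SAT_lt (α : Λ) {Y : Type} (g : (Λ → I) → Y) : Prop :=
  ∀ ω ω' : Λ → I, (∀ β, β < α → ω β = ω' β) → g ω = g ω'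

/-- `g` depends on the coordinates up to `α` -/
private def SAT_le (α : Λ) {Y : Type} (g : (Λ → I) → Y) : Prop :=
  ∀ ω ω' : Λ → I, (∀ β, β ≤ α → ω β = ω' β) → g ω = g ω'

private theorem SAT_lt_mono {α β : Λ} (h : α ≤ β) {Y : Type} {g : (Λ → I) → Y} (hg : SAT_lt α g) :
    SAT_lt β g := fun ω ω' hω => hg ω ω' fun γ hγ => hω γ (lt_of_lt_of_le hγ h)

private theorem SAT_lt_of_le {α β : Λ} (h : α < β) {Y : Type} {g : (Λ → I) → Y} (hg : SAT_le α g) :
    SAT_lt β g := fun ω ω' hω => hg ω ω' fun γ hγ => hω γ (lt_of_le_of_lt hγ h)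

/-- the product of `V` and `𝒰` in the coordinate `α` -/
private noncomputable def SAT_suc (𝒰 : Ultrafilter I) (α : Λ) (V : Ultrafilter (Λ → I)) :
    Ultrafilter (Λ → I) :=
  𝒰.bind fun i => V.map fun ω => Function.update ω α i

private theorem SAT_ev_suc (𝒰 : Ultrafilter I) (α : Λ) (V : Ultrafilter (Λ → I)) (p : (Λ → I) → Prop) :
    (∀ᶠ ω in (SAT_suc 𝒰 α V : Filter (Λ → I)), p ω) ↔
      ∀ᶠ i in (𝒰 : Filter I), ∀ᶠ ω in (V : Filter (Λ → I)), p (Function.update ω α i) :=
  Iff.rfl

private theorem SAT_suc_lt (𝒰 : Ultrafilter I) (α : Λ) (V : Ultrafilter (Λ → I)) {p : (Λ → I) → Prop}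
    (hp : SAT_lt α p) : (∀ᶠ ω in (SAT_suc 𝒰 α V : Filter (Λ → I)), p ω) ↔
      ∀ᶠ ω in (V : Filter (Λ → I)), p ω := by
  rw [SAT_ev_suc]
  have h : ∀ i : I, (∀ᶠ ω in (V : Filter (Λ → I)), p (Function.update ω α i)) ↔
      ∀ᶠ ω in (V : Filter (Λ → I)), p ω := by
    intro i
    have h1 : ∀ ω : Λ → I, p (Function.update ω α i) = p ω := fun ω =>
      hp _ _ fun β hβ => Function.update_of_ne hβ.ne _ _
    simp only [h1]
  simp only [h]
  exact eventually_const

/-- the sets with support up to some `β` in `S` which are large for `V β` -/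
private def SAT_gen (𝒰 : Ultrafilter I) (S : Set Λ) (V : Λ → Ultrafilter (Λ → I)) : Set (Set (Λ → I)) :=
  {X | ∃ β ∈ S, SAT_le β (fun ω => ω ∈ X) ∧ X ∈ SAT_suc 𝒰 β (V β)}

/-- coherence -/
private def SAT_coh (𝒰 : Ultrafilter I) (V : Λ → Ultrafilter (Λ → I)) (β γ : Λ) : Prop :=
  ∀ X : Set (Λ → I), SAT_le β (fun ω => ω ∈ X) → X ∈ SAT_suc 𝒰 β (V β) → X ∈ V γ

private theorem SAT_up (𝒰 : Ultrafilter I) (V : Λ → Ultrafilter (Λ → I)) {β γ : Λ} (h : β ≤ γ)
    (hc : β < γ → SAT_coh 𝒰 V β γ) {X : Set (Λ → I)} (hX : SAT_le β (fun ω => ω ∈ X))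
    (hX' : X ∈ SAT_suc 𝒰 β (V β)) : X ∈ SAT_suc 𝒰 γ (V γ) := by
  rcases h.eq_or_lt with rfl | h
  · exact hX'
  · exact (SAT_suc_lt 𝒰 γ (V γ) (p := fun ω => ω ∈ X) (SAT_lt_of_le h hX)).2 (hc h X hX hX')

private theorem SAT_neBot (𝒰 : Ultrafilter I) (S : Set Λ) (V : Λ → Ultrafilter (Λ → I)) [Nonempty I]
    (hc : ∀ β ∈ S, ∀ γ ∈ S, β < γ → SAT_coh 𝒰 V β γ) : (generate (SAT_gen 𝒰 S V)).NeBot := by
  rw [generate_neBot_iff]
  intro t ht hf
  have key : t = ∅ ∨ ∃ β ∈ S, ∀ X ∈ t, X ∈ SAT_suc 𝒰 β (V β) := by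
    refine Set.Finite.induction_on_subset (motive := fun s _ => s = ∅ ∨ ∃ β ∈ S, ∀ X ∈ s, X ∈ SAT_suc 𝒰 β (V β) ∧ SAT_le β (fun ω => ω ∈ X)) t hf ?_ ?_ |>.imp id (fun ⟨β, h, h'⟩ => ⟨β, h, fun X hX => (h' X hX).1⟩)
    · exact Or.inl rfl
    · intro X s hX hs _ ih
      right
      obtain ⟨β, hβ, hβ1, hβ2⟩ := ht hX
      rcases ih with rfl | ⟨γ, hγ, ih⟩
      · exact ⟨β, hβ, fun Y hY => by
          rcases hY with rfl | hY
          · exact ⟨hβ2, hβ1⟩
          · exact hY.elim⟩
      · have mono : ∀ {α δ : Λ}, α ≤ δ → ∀ Y : Set (Λ → I), SAT_le α (fun ω => ω ∈ Y) → SAT_le δ (fun ω => ω ∈ Y) :=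
          fun h Y hY ω ω' hω => hY ω ω' fun ε hε => hω ε (hε.trans h)
        rcases le_total β γ with h | h
        · refine ⟨γ, hγ, fun Y hY => ?_⟩
          rcases hY with rfl | hY
          · exact ⟨SAT_up 𝒰 V h (hc β hβ γ hγ) hβ1 hβ2, mono h _ hβ1⟩
          · exact ih Y hY
        · refine ⟨β, hβ, fun Y hY => ?_⟩
          rcases hY with rfl | hY
          · exact ⟨hβ2, hβ1⟩
          · exact ⟨SAT_up 𝒰 V h (hc γ hγ β hβ) (ih Y hY).2 (ih Y hY).1, mono h _ (ih Y hY).2⟩
  rcases key with rfl | ⟨β, _, h⟩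
  · simp only [Set.sInter_empty]
    exact ⟨fun _ => Classical.arbitrary I, trivial⟩
  · have : ⋂₀ t ∈ SAT_suc 𝒰 β (V β) := (sInter_mem hf).2 h
    exact Ultrafilter.nonempty_of_mem this

private theorem SAT_exists_V [WellFoundedLT Λ] (𝒰 : Ultrafilter I) [Nonempty I] :
    ∃ V : Λ → Ultrafilter (Λ → I), ∀ β γ, β < γ → SAT_coh 𝒰 V β γ := by
  classical
  let gen : ∀ α : Λ, (∀ β, β < α → Ultrafilter (Λ → I)) → Set (Set (Λ → I)) := fun α W =>
    {X | ∃ β, ∃ h : β < α, SAT_le β (fun ω => ω ∈ X) ∧ X ∈ SAT_suc 𝒰 β (W β h)}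
  let step : ∀ α : Λ, (∀ β, β < α → Ultrafilter (Λ → I)) → Ultrafilter (Λ → I) := fun α W =>
    if h : (generate (gen α W)).NeBot then @Ultrafilter.of _ _ h
    else pure fun _ => Classical.arbitrary I
  let V : Λ → Ultrafilter (Λ → I) := (wellFounded_lt (α := Λ)).fix step
  have hV : ∀ α, V α = step α fun β _ => V β := fun α => WellFounded.fix_eq _ _ _
  have hgen : ∀ α, gen α (fun β _ => V β) = SAT_gen 𝒰 (Set.Iio α) V := by
    intro α
    ext X
    constructor
    · rintro ⟨β, h, h1, h2⟩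
      exact ⟨β, h, h1, h2⟩
    · rintro ⟨β, h, h1, h2⟩
      exact ⟨β, h, h1, h2⟩
  have key : ∀ γ, ∀ β, β < γ → SAT_coh 𝒰 V β γ := by
    intro γ
    induction γ using WellFoundedLT.induction with
    | _ γ ih =>
      have hn : (generate (gen γ (fun β _ => V β))).NeBot := by
        rw [hgen]
        exact SAT_neBot 𝒰 _ V fun β _ δ hδ h => ih δ hδ β h
      have h1 : V γ = @Ultrafilter.of _ _ hn := by
        rw [hV γ]
        exact dif_pos hn
      have h2 : (V γ : Filter (Λ → I)) ≤ generate (gen γ (fun β _ => V β)) := by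
        rw [h1]
        exact @Ultrafilter.of_le _ _ hn
      intro β hβ X hX hX'
      exact h2 (mem_generate_of_mem ⟨β, hβ, hX, hX'⟩)
  exact ⟨V, fun β γ h => key γ β h⟩

/-- the ultrafilter with the Fubini property -/
private theorem SAT_uf [WellFoundedLT Λ] (𝒰 : Ultrafilter I) [Nonempty I] :
    ∃ V : Ultrafilter (Λ → I), ∀ (α : Λ) (p : I → (Λ → I) → Prop), (∀ i, SAT_lt α (p i)) →
      (∀ᶠ i in (𝒰 : Filter I), ∀ᶠ ω in (V : Filter (Λ → I)), p i ω) →
      ∀ᶠ ω in (V : Filter (Λ → I)), p (ω α) ω := by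
  obtain ⟨W, hW⟩ := SAT_exists_V (Λ := Λ) 𝒰
  haveI hn := SAT_neBot 𝒰 Set.univ W fun β _ γ _ h => hW β γ h
  set V : Ultrafilter (Λ → I) := Ultrafilter.of (generate (SAT_gen 𝒰 Set.univ W)) with hV
  have hle : (V : Filter (Λ → I)) ≤ generate (SAT_gen 𝒰 Set.univ W) := Ultrafilter.of_le _
  have h1 : ∀ (α : Λ) (q : (Λ → I) → Prop), SAT_le α q →
      (∀ᶠ ω in (SAT_suc 𝒰 α (W α) : Filter (Λ → I)), q ω) → ∀ᶠ ω in (V : Filter (Λ → I)), q ω := by
    intro α q hq h
    exact hle (mem_generate_of_mem ⟨α, trivial, hq, h⟩)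
  -- `V` and `W α` agree on the sets with support below `α`
  have h2 : ∀ (α : Λ) (q : (Λ → I) → Prop), SAT_lt α q →
      (∀ᶠ ω in (V : Filter (Λ → I)), q ω) → ∀ᶠ ω in (W α : Filter (Λ → I)), q ω := by
    intro α q hq h
    by_contra hn'
    rw [← Ultrafilter.eventually_not] at hn'
    have hq' : SAT_lt α fun ω => ¬ q ω := fun ω ω' hω => by
      show (¬ q ω) = ¬ q ω'
      rw [hq ω ω' hω]
    have h3 := h1 α (fun ω => ¬ q ω) (fun ω ω' hω => hq' ω ω' fun β hβ => hω β hβ.le)
      ((SAT_suc_lt 𝒰 α (W α) hq').2 hn')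
    obtain ⟨ω, h4, h5⟩ := (h.and h3).exists
    exact h5 h4
  refine ⟨V, fun α p hp h => h1 α _ ?_ ?_⟩
  · intro ω ω' hω
    show p (ω α) ω = p (ω' α) ω'
    rw [hω α le_rfl]
    exact hp _ ω ω' fun β hβ => hω β hβ.le
  · rw [SAT_ev_suc]
    refine h.mono fun i hi => ?_
    refine (h2 α _ (hp i) hi).mono fun ω hω => ?_
    show p (Function.update ω α i α) (Function.update ω α i)
    rw [Function.update_self]
    have : p i (Function.update ω α i) = p i ω := hp i _ _ fun β hβ => Function.update_of_ne hβ.ne _ _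
    rw [this]
    exact hω

end SATuf

section lp
variable {Λ I : Type} [LinearOrder Λ] {L : FirstOrder.Language.{0, 0}}

/-- functions which depend on the coordinates below some element of `Λ` -/
private def GG (Λ I : Type) [LinearOrder Λ] (M : Type) : Type :=
  {g : (Λ → I) → M // ∃ α : Λ, SAT_lt α g}

/-- equality almost everywhere -/
private def gset (V : Ultrafilter (Λ → I)) (M : Type) : Setoid (GG Λ I M) where
  r f g := ∀ᶠ ω in (V : Filter (Λ → I)), f.1 ω = g.1 ω
  iseqv :=
    { refl := fun _ => Eventually.of_forall fun _ => rfl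
      symm := fun h => h.mono fun _ h => h.symm
      trans := fun h h' => (h.and h').mono fun _ h => h.1.trans h.2 }

/-- the limit ultrapower -/
private def UU (V : Ultrafilter (Λ → I)) (M : Type) : Type := Quotient (gset V M)

variable (V : Ultrafilter (Λ → I)) {M : Type}

/-- the class of a function -/
private def mk (f : GG Λ I M) : UU V M := Quotient.mk (gset V M) f

private theorem mk_eq {f g : GG Λ I M} :
    mk V f = mk V g ↔ ∀ᶠ ω in (V : Filter (Λ → I)), f.1 ω = g.1 ω :=
  ⟨fun h => Quotient.exact h, fun h => Quotient.sound h⟩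

private theorem mk_surj (x : UU V M) : ∃ f, mk V f = x :=
  Quotient.exists_rep (s := gset V M) x

private noncomputable def rep (x : UU V M) : GG Λ I M := (mk_surj V x).choose

private theorem mk_rep (x : UU V M) : mk V (rep V x) = x := (mk_surj V x).choose_spec

private theorem bdd [Nonempty Λ] {β : Type} [Finite β] (v : β → GG Λ I M) :
    ∃ α : Λ, ∀ b, SAT_lt α (v b).1 := by
  choose a ha using fun b => (v b).2
  obtain ⟨α, hα⟩ := (Set.finite_range a).bddAbove
  exact ⟨α, fun b => SAT_lt_mono (hα ⟨b, rfl⟩) (ha b)⟩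

/-- pointwise operations -/
private theorem lt_pw {β Y : Type} {v : β → GG Λ I M} {α : Λ} (h : ∀ b, SAT_lt α (v b).1)
    (F : (β → M) → Y) : SAT_lt α fun ω => F fun b => (v b).1 ω := by
  intro ω ω' hω
  show F _ = F _
  congr 1
  funext b
  exact h b ω ω' hω

/-- pointwise operations -/
private def pw {β : Type} (v : β → GG Λ I M) {α : Λ} (h : ∀ b, SAT_lt α (v b).1)
    (F : (β → M) → M) : GG Λ I M := ⟨fun ω => F fun b => (v b).1 ω, α, lt_pw h F⟩

variable [Nonempty Λ]

private noncomputable instance strU [L.Structure M] : L.Structure (UU V M) where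
  funMap f x := mk V (pw (fun i => rep V (x i)) (bdd fun i => rep V (x i)).choose_spec
    (FirstOrder.Language.Structure.funMap f))
  RelMap r x := ∀ᶠ ω in (V : Filter (Λ → I)),
    FirstOrder.Language.Structure.RelMap r fun i => (rep V (x i)).1 ω

omit [Nonempty Λ] in
private theorem rep_ev {n : ℕ} (v : Fin n → GG Λ I M) :
    ∀ᶠ ω in (V : Filter (Λ → I)), (fun i => (rep V (mk V (v i))).1 ω) = fun i => (v i).1 ω := by
  have h : ∀ i, ∀ᶠ ω in (V : Filter (Λ → I)), (rep V (mk V (v i))).1 ω = (v i).1 ω :=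
    fun i => (mk_eq V).1 (mk_rep V (mk V (v i)))
  exact (eventually_all.2 h).mono fun ω hω => funext hω

private theorem funMap_mk [L.Structure M] {n : ℕ} (f : L.Functions n) (v : Fin n → GG Λ I M)
    {α : Λ} (h : ∀ b, SAT_lt α (v b).1) :
    FirstOrder.Language.Structure.funMap f (fun i => mk V (v i)) =
      mk V (pw v h (FirstOrder.Language.Structure.funMap f)) := by
  refine (mk_eq V).2 ((rep_ev V v).mono fun ω hω => ?_)
  exact congrArg (FirstOrder.Language.Structure.funMap f) hω

private theorem RelMap_mk [L.Structure M] {n : ℕ} (r : L.Relations n) (v : Fin n → GG Λ I M) :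
    FirstOrder.Language.Structure.RelMap r (fun i => mk V (v i)) ↔
      ∀ᶠ ω in (V : Filter (Λ → I)), FirstOrder.Language.Structure.RelMap r fun i => (v i).1 ω := by
  refine eventually_congr ((rep_ev V v).mono fun ω hω => ?_)
  rw [hω]

private theorem term_mk [L.Structure M] {β : Type} (v : β → GG Λ I M) {α : Λ}
    (h : ∀ b, SAT_lt α (v b).1) (t : L.Term β) :
    t.realize (fun b => mk V (v b)) = mk V (pw v h fun y => t.realize y) := by
  induction t with
  | var b => exact (mk_eq V).2 (Eventually.of_forall fun ω => rfl)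
  | func f ts ih =>
    show FirstOrder.Language.Structure.funMap f (fun i => (ts i).realize fun b => mk V (v b)) = _
    rw [funext ih, funMap_mk V f (fun i => pw v h fun y => (ts i).realize y)
      (α := α) fun i => lt_pw h fun y => (ts i).realize y]
    exact (mk_eq V).2 (Eventually.of_forall fun ω => rfl)

private theorem los [L.Structure M] [Nonempty M] {β : Type} {n : ℕ} (φ : L.BoundedFormula β n) :
    ∀ (v : β → GG Λ I M) (x : Fin n → GG Λ I M) (α : Λ) (_ : ∀ b, SAT_lt α (v b).1)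
      (_ : ∀ i, SAT_lt α (x i).1),
    φ.Realize (fun b => mk V (v b)) (fun i => mk V (x i)) ↔
      ∀ᶠ ω in (V : Filter (Λ → I)), φ.Realize (fun b => (v b).1 ω) fun i => (x i).1 ω := by
  induction φ with
  | falsum =>
    intro v x α _ _
    exact ⟨fun h => h.elim, fun h => h.exists.elim fun _ h => h⟩
  | equal t t' =>
    intro v x α hv hx
    have hs : Sum.elim (fun b => mk V (v b)) (fun i => mk V (x i)) =
        fun b => mk V (Sum.elim v x b) := by
      funext b
      cases b <;> rfl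
    have hs' : ∀ ω, Sum.elim (fun b => (v b).1 ω) (fun i => (x i).1 ω) =
        fun b => (Sum.elim v x b).1 ω := by
      intro ω
      funext b
      cases b <;> rfl
    have hb : ∀ b, SAT_lt α (Sum.elim v x b).1 := by
      intro b
      cases b with
      | inl b => exact hv b
      | inr b => exact hx b
    show t.realize _ = t'.realize _ ↔
      ∀ᶠ ω in (V : Filter (Λ → I)), t.realize _ = t'.realize _
    rw [hs, term_mk V _ hb, term_mk V _ hb, mk_eq]
    simp only [hs']
    exact Iff.rfl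
  | rel R ts =>
    intro v x α hv hx
    have hs : Sum.elim (fun b => mk V (v b)) (fun i => mk V (x i)) =
        fun b => mk V (Sum.elim v x b) := by
      funext b
      cases b <;> rfl
    have hs' : ∀ ω, Sum.elim (fun b => (v b).1 ω) (fun i => (x i).1 ω) =
        fun b => (Sum.elim v x b).1 ω := by
      intro ω
      funext b
      cases b <;> rfl
    have hb : ∀ b, SAT_lt α (Sum.elim v x b).1 := by
      intro b
      cases b with
      | inl b => exact hv b
      | inr b => exact hx b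
    show FirstOrder.Language.Structure.RelMap R (fun i => (ts i).realize _) ↔
      ∀ᶠ ω in (V : Filter (Λ → I)),
        FirstOrder.Language.Structure.RelMap R (fun i => (ts i).realize _)
    rw [hs, funext fun i => term_mk V _ hb (ts i), RelMap_mk]
    simp only [hs']
    exact Iff.rfl
  | imp φ ψ ih ih' =>
    intro v x α hv hx
    show (φ.Realize _ _ → ψ.Realize _ _) ↔ _
    rw [ih v x α hv hx, ih' v x α hv hx]
    exact Ultrafilter.eventually_imp.symm
  | @all n φ ih =>
    intro v x α hv hx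
    have hsn : ∀ f : GG Λ I M, (Fin.snoc (fun i => mk V (x i)) (mk V f) : Fin (n + 1) → UU V M) =
        fun i => mk V ((Fin.snoc x f : Fin (n + 1) → GG Λ I M) i) := by
      intro f
      funext i
      refine Fin.lastCases ?_ (fun i => ?_) i
      · rw [Fin.snoc_last, Fin.snoc_last]
      · rw [Fin.snoc_castSucc, Fin.snoc_castSucc]
    have hsn' : ∀ (f : GG Λ I M) (ω : Λ → I),
        (fun i => ((Fin.snoc x f : Fin (n + 1) → GG Λ I M) i).1 ω) =
        (Fin.snoc (fun i => (x i).1 ω) (f.1 ω) : Fin (n + 1) → M) := by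
      intro f ω
      funext i
      refine Fin.lastCases ?_ (fun i => ?_) i
      · rw [Fin.snoc_last, Fin.snoc_last]
      · rw [Fin.snoc_castSucc, Fin.snoc_castSucc]
    have hih : ∀ (f : GG Λ I M) (γ : Λ), α ≤ γ → SAT_lt γ f.1 →
        (φ.Realize (fun b => mk V (v b)) (Fin.snoc (fun i => mk V (x i)) (mk V f)) ↔
        ∀ᶠ ω in (V : Filter (Λ → I)),
          φ.Realize (fun b => (v b).1 ω) (Fin.snoc (fun i => (x i).1 ω) (f.1 ω))) := by
      intro f γ hγ hf
      have h1 := ih v (Fin.snoc x f : Fin (n + 1) → GG Λ I M) γ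
        (fun b => SAT_lt_mono hγ (hv b)) (fun i => by
          refine Fin.lastCases ?_ (fun i => ?_) i
          · rw [Fin.snoc_last]
            exact hf
          · rw [Fin.snoc_castSucc]
            exact SAT_lt_mono hγ (hx i))
      rw [← hsn] at h1
      simp only [hsn'] at h1
      exact h1
    show (∀ y : UU V M, φ.Realize _ (Fin.snoc _ y)) ↔
      ∀ᶠ ω in (V : Filter (Λ → I)), ∀ y : M, φ.Realize _ (Fin.snoc _ y)
    constructor
    · intro h
      by_contra hn
      rw [← Ultrafilter.eventually_not] at hn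
      let P : (Λ → I) → M → Prop := fun ω y =>
        ¬ φ.Realize (fun b => (v b).1 ω) (Fin.snoc (fun i => (x i).1 ω) y)
      have hP : ∀ ω ω' : Λ → I, (∀ γ, γ < α → ω γ = ω' γ) → P ω = P ω' := by
        intro ω ω' hω
        have h1 : (fun b => (v b).1 ω) = fun b => (v b).1 ω' := funext fun b => hv b ω ω' hω
        have h2 : (fun i => (x i).1 ω) = fun i => (x i).1 ω' := funext fun i => hx i ω ω' hω
        funext y
        show (¬ φ.Realize (fun b => (v b).1 ω) (Fin.snoc (fun i => (x i).1 ω) y)) =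
          ¬ φ.Realize (fun b => (v b).1 ω') (Fin.snoc (fun i => (x i).1 ω') y)
        rw [h1, h2]
      let f : GG Λ I M := ⟨fun ω => Classical.epsilon (P ω), α, fun ω ω' hω => by
        show Classical.epsilon (P ω) = Classical.epsilon (P ω')
        rw [hP ω ω' hω]⟩
      have h2 := (hih f α le_rfl (fun ω ω' hω => by
        show Classical.epsilon (P ω) = Classical.epsilon (P ω')
        rw [hP ω ω' hω])).1 (h (mk V f))
      obtain ⟨ω, h3, h4⟩ := (h2.and hn).exists
      rw [not_forall] at h4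
      exact Classical.epsilon_spec h4 h3
    · intro h y
      obtain ⟨f, rfl⟩ := mk_surj V y
      obtain ⟨γ, hγ⟩ := f.2
      exact (hih f (max α γ) (le_max_left _ _) (SAT_lt_mono (le_max_right _ _) hγ)).2
        (h.mono fun ω hω => hω (f.1 ω))

end lp

/-- BLOCK SA. -/
theorem SA_main (L : FirstOrder.Language.{0, 0}) [Countable (Σ n, L.Functions n)]
    [Countable (Σ n, L.Relations n)] (M : Type) [L.Structure M] [Nonempty M]
    (κ : Cardinal.{0}) :
    ∃ (U : Type) (_ : L.Structure U), L.ElementarilyEquivalent M U ∧ Saturated L κ U := by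
  classical
  let K0 : Type := κ.out
  let K : Type := Σ n : ℕ, L.Formula (K0 ⊕ Fin n)
  let I : Type := Finset K
  let 𝒰 : Ultrafilter I := Ultrafilter.of (atTop : Filter (Finset K))
  have h𝒰 : ∀ k : K, ∀ᶠ i in (𝒰 : Filter I), k ∈ i := by
    intro k
    have h1 : ∀ᶠ i in (atTop : Filter (Finset K)), k ∈ i :=
      (eventually_ge_atTop {k}).mono fun i hi => hi (Finset.mem_singleton_self k)
    exact Ultrafilter.of_le _ h1
  obtain ⟨Λ, _, _, hΛ⟩ := SAT_Lam (#I + #K0 + ℵ₀)
  have hN : Nonempty Λ := by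
    obtain ⟨β, _⟩ := hΛ Empty (by simp) fun x => x.elim
    exact ⟨β⟩
  have hmax : ∀ α : Λ, ∃ β, α < β := by
    intro α
    obtain ⟨β, hβ⟩ := hΛ Unit (by
      rw [mk_unit]
      exact one_le_aleph0.trans (self_le_add_left _ _)) fun _ => α
    exact ⟨β, hβ ()⟩
  obtain ⟨V, hV⟩ := SAT_uf (Λ := Λ) 𝒰
  have hne : Nonempty (UU V M) :=
    ⟨mk V ⟨fun _ => Classical.arbitrary M, Classical.arbitrary Λ, fun _ _ _ => rfl⟩⟩
  refine ⟨UU V M, strU V, ?_, ?_⟩
  · rw [FirstOrder.Language.elementarilyEquivalent_iff]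
    intro φ
    have h1 := los V (M := M) φ (fun b => b.elim) (fun i => i.elim0) (Classical.arbitrary Λ)
      (fun b => b.elim) (fun i => i.elim0)
    have h2 : (fun b : Empty => mk V ((fun b => b.elim : Empty → GG Λ I M) b)) = default :=
      Subsingleton.elim _ _
    have h3 : (fun i : Fin 0 => mk V ((fun i => i.elim0 : Fin 0 → GG Λ I M) i)) = default :=
      Subsingleton.elim _ _
    have h4 : ∀ ω : Λ → I, (fun b : Empty => ((fun b => b.elim : Empty → GG Λ I M) b).1 ω) =
      default := fun ω => Subsingleton.elim _ _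
    have h5 : ∀ ω : Λ → I, (fun i : Fin 0 => ((fun i => i.elim0 : Fin 0 → GG Λ I M) i).1 ω) =
      default := fun ω => Subsingleton.elim _ _
    rw [h2, h3] at h1
    simp only [h4, h5] at h1
    rw [eventually_const] at h1
    exact h1.symm
  · intro A hA α _ 𝓕 hdef hfip
    obtain ⟨n, ⟨e⟩⟩ := Finite.exists_equiv_fin α
    have hA' : #A ≤ #K0 := by
      rw [mk_out]
      exact hA.le
    obtain ⟨ι⟩ := hA'
    let e' : K0 → UU V M := fun k => if h : ∃ a : A, ι a = k then h.choose.1 else hne.some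
    have he' : ∀ a : A, e' (ι a) = a.1 := by
      intro a
      have h : ∃ a' : A, ι a' = ι a := ⟨a, rfl⟩
      have h1 : e' (ι a) = h.choose.1 := dif_pos h
      rw [h1, ι.injective h.choose_spec]
    -- the formulas
    let S : L.Formula (K0 ⊕ Fin n) → Set (α → UU V M) := fun φ =>
      {v | φ.Realize (Sum.elim e' fun i => v (e.symm i))}
    have hD : ∀ D ∈ 𝓕, ∃ φ : L.Formula (K0 ⊕ Fin n), D = S φ := by
      intro D hD
      obtain ⟨φ, rfl⟩ := (Set.definable_iff_exists_formula_sum).1 (hdef D hD)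
      refine ⟨φ.relabel (Sum.map ι e), ?_⟩
      ext v
      show φ.Realize _ ↔ (φ.relabel (Sum.map ι e)).Realize _
      rw [FirstOrder.Language.Formula.realize_relabel]
      have h1 : (Sum.elim e' fun i => v (e.symm i)) ∘ Sum.map ι e =
          Sum.elim (fun a : A => (a : UU V M)) v := by
        funext b
        cases b with
        | inl a => exact he' a
        | inr i => exact congrArg v (e.symm_apply_apply i)
      rw [h1]
    -- representatives
    choose e0 he0 using fun k : K0 => mk_surj V (e' k)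
    obtain ⟨β0, hβ0⟩ := hΛ K0 ((self_le_add_left _ _).trans (self_le_add_right _ _))
      fun j => (e0 j).2.choose
    have hp : ∀ i : I, ∃ p : α → UU V M, ∀ φ : L.Formula (K0 ⊕ Fin n),
        (⟨n, φ⟩ : K) ∈ i → S φ ∈ 𝓕 → p ∈ S φ := by
      intro i
      obtain ⟨p, hp⟩ := hfip (𝓕 ∩ (S '' {φ | (⟨n, φ⟩ : K) ∈ i})) Set.inter_subset_left (by
          refine Set.Finite.subset (Set.Finite.image _ ?_) Set.inter_subset_right
          exact (i.finite_toSet).preimage (f := fun φ : L.Formula (K0 ⊕ Fin n) => (⟨n, φ⟩ : K))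
            (fun φ _ ψ _ h => eq_of_heq (Sigma.mk.inj_iff.1 h).2))
      exact ⟨p, fun φ h1 h2 => hp _ ⟨h2, φ, h1, rfl⟩⟩
    choose p hp using hp
    choose v hv using fun (i : I) (j : Fin n) => mk_surj V (p i (e.symm j))
    choose a ha using fun i => bdd (v i)
    obtain ⟨β1, hβ1⟩ := hΛ I ((self_le_add_right _ _).trans (self_le_add_right _ _)) a
    obtain ⟨β', hβ'⟩ := hmax (max β0 β1)
    have e1 : ∀ k, SAT_lt (max β0 β1) (e0 k).1 := fun k =>
      SAT_lt_mono ((hβ0 k).le.trans (le_max_left _ _)) (e0 k).2.choose_spec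
    have e2 : ∀ i j, SAT_lt (max β0 β1) (v i j).1 := fun i j =>
      SAT_lt_mono ((hβ1 i).le.trans (le_max_right _ _)) (ha i j)
    have ht : ∀ j : Fin n, SAT_lt β' fun ω : Λ → I => (v (ω (max β0 β1)) j).1 ω := by
      intro j ω ω' hω
      show (v (ω (max β0 β1)) j).1 ω = (v (ω' (max β0 β1)) j).1 ω'
      rw [hω _ hβ']
      exact e2 _ _ ω ω' fun γ hγ => hω γ (hγ.trans hβ')
    let t : Fin n → GG Λ I M := fun j => ⟨fun ω => (v (ω (max β0 β1)) j).1 ω, β', ht j⟩
    -- the Los theorem for these formulas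
    have key0 : ∀ (φ : L.Formula (K0 ⊕ Fin n)) (w : Fin n → GG Λ I M) (γ : Λ),
        max β0 β1 ≤ γ → (∀ j, SAT_lt γ (w j).1) →
        (φ.Realize (Sum.elim e' fun j => mk V (w j)) ↔
          ∀ᶠ ω in (V : Filter (Λ → I)),
            φ.Realize (Sum.elim (fun k => (e0 k).1 ω) fun j => (w j).1 ω)) := by
      intro φ w γ hγ hw
      have h1 := los V (M := M) φ (Sum.elim e0 w) (fun i => i.elim0) γ (fun b => by
        cases b with
        | inl b => exact SAT_lt_mono hγ (e1 b)
        | inr b => exact hw b) (fun i => i.elim0)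
      have h2 : (fun b => mk V (Sum.elim e0 w b)) = Sum.elim e' fun j => mk V (w j) := by
        funext b
        cases b with
        | inl b => exact he0 b
        | inr b => rfl
      have h3 : (fun i : Fin 0 => mk V ((fun i => i.elim0 : Fin 0 → GG Λ I M) i)) = default :=
        Subsingleton.elim _ _
      have h4 : ∀ ω : Λ → I, (fun b => (Sum.elim e0 w b).1 ω) =
          Sum.elim (fun k => (e0 k).1 ω) fun j => (w j).1 ω := by
        intro ω
        funext b
        cases b with
        | inl b => rfl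
        | inr b => rfl
      have h5 : ∀ ω : Λ → I, (fun i : Fin 0 => ((fun i => i.elim0 : Fin 0 → GG Λ I M) i).1 ω) =
        default := fun ω => Subsingleton.elim _ _
      rw [h2, h3] at h1
      simp only [h4, h5] at h1
      exact h1
    refine ⟨fun b => mk V (t (e b)), fun D hDF => ?_⟩
    obtain ⟨φ, rfl⟩ := hD D hDF
    show φ.Realize (Sum.elim e' fun i => mk V (t (e (e.symm i))))
    have h6 : (fun i => mk V (t (e (e.symm i)))) = fun i => mk V (t i) := by
      funext i
      rw [e.apply_symm_apply]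
    rw [h6, key0 φ t β' hβ'.le ht]
    have key := hV (max β0 β1) (fun i ω =>
        φ.Realize (Sum.elim (fun k => (e0 k).1 ω) fun j => (v i j).1 ω))
      (fun i ω ω' hω => by
        have h1 : (fun k => (e0 k).1 ω) = fun k => (e0 k).1 ω' := funext fun k => e1 k ω ω' hω
        have h2 : (fun j => (v i j).1 ω) = fun j => (v i j).1 ω' :=
          funext fun j => e2 i j ω ω' hω
        show φ.Realize (Sum.elim (fun k => (e0 k).1 ω) fun j => (v i j).1 ω) =
          φ.Realize (Sum.elim (fun k => (e0 k).1 ω') fun j => (v i j).1 ω')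
        rw [h1, h2])
      ((h𝒰 ⟨n, φ⟩).mono fun i hi => by
        have h1 : φ.Realize (Sum.elim e' fun j => p i (e.symm j)) := hp i φ hi hDF
        rw [← funext (hv i), key0 φ (v i) (max β0 β1) le_rfl (e2 i)] at h1
        exact h1)
    exact key

end Pool.Agent.Lib_helper23.TF
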